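import Mathlib

/-!
Counting adjacent pairs while points are added one by one along a cycle.
-/

set_option autoImplicit false

namespace Pool.Agent.Lib.MP_0702e0_co

open Classical in
/-- The number of two-element subsets of `S` whose elements are related by `adj`. -/
noncomputable def pairs {X : Type} (adj : X → X → Prop) (S : Finset X) : ℕ :=
  ((S.powersetCard 2).filter fun s => ∃ x ∈ s, ∃ y ∈ s, x ≠ y ∧ adj x y).card

open Classical in
theorem pairs_insert {X : Type} {adj : X → X → Prop} {S T : Finset X} {x : X} (hx : x ∉ S)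
    (hT : T ⊆ S) (ht : ∀ t ∈ T, adj x t) : pairs adj S + T.card ≤ pairs adj (insert x S) := by
  have hxT : ∀ t ∈ T, x ≠ t := fun t h e => hx (e ▸ hT h)
  have hinj : Set.InjOn (fun t => ({x, t} : Finset X)) (T : Set X) := by
    intro t h t' h' e
    have : t ∈ ({x, t'} : Finset X) := by
      rw [← show ({x, t} : Finset X) = {x, t'} from e]; simp
    rw [Finset.mem_insert, Finset.mem_singleton] at this
    rcases this with h1 | h1
    · exact absurd h1.symm (hxT t h)
    · exact h1
  unfold pairs
  rw [← Finset.card_image_of_injOn hinj, ← Finset.card_union_of_disjoint]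
  · apply Finset.card_le_card
    intro s hs
    rw [Finset.mem_union] at hs
    rw [Finset.mem_filter, Finset.mem_powersetCard]
    rcases hs with hs | hs
    · rw [Finset.mem_filter, Finset.mem_powersetCard] at hs
      exact ⟨⟨hs.1.1.trans (Finset.subset_insert x S), hs.1.2⟩, hs.2⟩
    · rw [Finset.mem_image] at hs
      obtain ⟨t, h, rfl⟩ := hs
      refine ⟨⟨?_, Finset.card_pair (hxT t h)⟩, x, by simp, t, by simp, hxT t h, ht t h⟩
      intro y hy
      rw [Finset.mem_insert, Finset.mem_singleton] at hy
      rcases hy with rfl | rfl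
      · simp
      · exact Finset.mem_insert_of_mem (hT h)
  · rw [Finset.disjoint_left]
    intro s hs hs'
    rw [Finset.mem_filter, Finset.mem_powersetCard] at hs
    rw [Finset.mem_image] at hs'
    obtain ⟨t, h, rfl⟩ := hs'
    exact hx (hs.1.1 (by simp))

open Classical in
/-- The set `S` together with the points `x r, x (r + 1), …, x (r + m - 1)`. -/
noncomputable def arc {X : Type} (S : Finset X) (x : ℕ → X) (r : ℕ) : ℕ → Finset X
  | 0 => S
  | m + 1 => insert (x (r + m)) (arc S x r m)

theorem mem_arc {X : Type} (S : Finset X) (x : ℕ → X) (r m : ℕ) (y : X) :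
    y ∈ arc S x r m ↔ y ∈ S ∨ ∃ i < m, y = x (r + i) := by
  induction m with
  | zero => simp [arc]
  | succ m ih =>
    classical
    rw [arc, Finset.mem_insert, ih]
    constructor
    · rintro (h | h | ⟨i, hi, h⟩)
      · exact Or.inr ⟨m, Nat.lt_succ_self m, h⟩
      · exact Or.inl h
      · exact Or.inr ⟨i, by omega, h⟩
    · rintro (h | ⟨i, hi, h⟩)
      · exact Or.inr (Or.inl h)
      · by_cases him : i = m
        · subst him; exact Or.inl h
        · exact Or.inr (Or.inr ⟨i, by omega, h⟩)

/-- The data of a cycle of `N` new points around a set `S`. -/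
structure Ring {X : Type} (adj : X → X → Prop) (S : Finset X) (N : ℕ) (x : ℕ → X)
    (w : ℕ → ℕ) : Prop where
  three : 3 ≤ N
  symm : ∀ a b, adj a b → adj b a
  next : ∀ i, adj (x (i + 1)) (x i)
  per : ∀ i, x (i + N) = x i
  inj : ∀ i j, x i = x j → i % N = j % N
  disj : ∀ i, x i ∉ S
  par : ∀ i, ∃ T : Finset X, T ⊆ S ∧ T.card = w i ∧ ∀ t ∈ T, adj (x i) t

theorem Ring.notMem {X : Type} {adj : X → X → Prop} {S : Finset X} {N : ℕ} {x : ℕ → X}
    {w : ℕ → ℕ} (h : Ring adj S N x w) (r m : ℕ) (hm : m < N) : x (r + m) ∉ arc S x r m := by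
  rw [mem_arc]
  rintro (h1 | ⟨i, hi, h1⟩)
  · exact h.disj _ h1
  · have h2 := h.inj _ _ h1
    have h3 : m % N = i % N := Nat.ModEq.add_left_cancel' r h2
    rw [Nat.mod_eq_of_lt hm, Nat.mod_eq_of_lt (by omega)] at h3
    omega

theorem Ring.card {X : Type} {adj : X → X → Prop} {S : Finset X} {N : ℕ} {x : ℕ → X}
    {w : ℕ → ℕ} (h : Ring adj S N x w) (r m : ℕ) (hm : m ≤ N) :
    (arc S x r m).card = S.card + m := by
  induction m with
  | zero => simp [arc]
  | succ m ih =>
    classical
    rw [arc, Finset.card_insert_of_notMem (h.notMem r m (by omega)), ih (by omega)]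
    ring

open Classical in
/-- Adding an arc. -/
theorem Ring.pairs_arc {X : Type} {adj : X → X → Prop} {S : Finset X} {N : ℕ} {x : ℕ → X}
    {w : ℕ → ℕ} (h : Ring adj S N x w) (r m : ℕ) (hm : m + 1 ≤ N) :
    pairs adj S + (∑ i ∈ Finset.range (m + 1), w (r + i)) + m ≤ pairs adj (arc S x r (m + 1)) := by
  induction m with
  | zero =>
    obtain ⟨T, h1, h2, h3⟩ := h.par (r + 0)
    have := pairs_insert (h.notMem r 0 (by omega)) (T := T) (by simpa [arc] using h1) h3
    rw [h2] at this
    simpa [arc] using this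
  | succ m ih =>
    obtain ⟨T, h1, h2, h3⟩ := h.par (r + (m + 1))
    have hnot : x (r + m) ∉ T := fun hh => h.disj _ (h1 hh)
    have hsub : insert (x (r + m)) T ⊆ arc S x r (m + 1) := by
      intro y hy
      rw [Finset.mem_insert] at hy
      rw [mem_arc]
      rcases hy with hy | hy
      · exact Or.inr ⟨m, by omega, hy⟩
      · exact Or.inl (h1 hy)
    have hadj : ∀ t ∈ insert (x (r + m)) T, adj (x (r + (m + 1))) t := by
      intro t ht
      rw [Finset.mem_insert] at ht
      rcases ht with ht | ht
      · rw [ht]; exact h.next (r + m)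
      · exact h3 t ht
    have := pairs_insert (h.notMem r (m + 1) (by omega)) hsub hadj
    rw [Finset.card_insert_of_notMem hnot, h2] at this
    have ih' := ih (by omega)
    rw [Finset.sum_range_succ]
    change _ ≤ pairs adj (insert (x (r + (m + 1))) (arc S x r (m + 1)))
    omega

open Classical in
/-- Adding the whole cycle. -/
theorem Ring.pairs_full {X : Type} {adj : X → X → Prop} {S : Finset X} {N : ℕ} {x : ℕ → X}
    {w : ℕ → ℕ} (h : Ring adj S N x w) :
    pairs adj S + (∑ i ∈ Finset.range N, w i) + N ≤ pairs adj (arc S x 0 N) := by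
  have h3 := h.three
  obtain ⟨m, rfl⟩ : ∃ m, N = m + 3 := ⟨N - 3, by omega⟩
  have ih := h.pairs_arc 0 (m + 1) (by omega)
  obtain ⟨T, h1, h2, h3⟩ := h.par (0 + (m + 2))
  have hnot : x (0 + (m + 1)) ∉ T := fun hh => h.disj _ (h1 hh)
  have hnot2 : x 0 ∉ insert (x (0 + (m + 1))) T := by
    intro hh
    rw [Finset.mem_insert] at hh
    rcases hh with hh | hh
    · have := h.inj _ _ hh
      rw [Nat.mod_eq_of_lt (by omega), Nat.mod_eq_of_lt (by omega)] at this
      omega
    · exact h.disj _ (h1 hh)
  have hsub : insert (x 0) (insert (x (0 + (m + 1))) T) ⊆ arc S x 0 (m + 2) := by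
    intro y hy
    rw [Finset.mem_insert, Finset.mem_insert] at hy
    rw [mem_arc]
    rcases hy with hy | hy | hy
    · exact Or.inr ⟨0, by omega, by simpa using hy⟩
    · exact Or.inr ⟨m + 1, by omega, hy⟩
    · exact Or.inl (h1 hy)
  have hadj : ∀ t ∈ insert (x 0) (insert (x (0 + (m + 1))) T), adj (x (0 + (m + 2))) t := by
    intro t ht
    rw [Finset.mem_insert, Finset.mem_insert] at ht
    rcases ht with ht | ht | ht
    · rw [ht]
      apply h.symm
      have h5 := h.next (m + 2)
      have h6 := h.per 0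
      rw [show m + 2 + 1 = 0 + (m + 3) by ring, h6] at h5
      rw [zero_add]
      exact h5
    · rw [ht]; exact h.next (0 + (m + 1))
    · exact h3 t ht
  have := pairs_insert (h.notMem 0 (m + 2) (by omega)) hsub hadj
  rw [Finset.card_insert_of_notMem hnot2, Finset.card_insert_of_notMem hnot, h2] at this
  rw [Finset.sum_range_succ]
  change _ ≤ pairs adj (insert (x (0 + (m + 2))) (arc S x 0 (m + 2)))
  simp only [zero_add] at ih this ⊢
  rw [show m + 1 + 1 = m + 2 from rfl] at ih
  omega

theorem sum_shift {N : ℕ} (f : ℕ → ℕ) (hf : ∀ i, f (i + N) = f i) (s : ℕ) :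
    ∑ r ∈ Finset.range N, f (r + s) = ∑ r ∈ Finset.range N, f r := by
  induction s with
  | zero => simp
  | succ s ih =>
    rw [← ih]
    have h1 := Finset.sum_range_succ (fun r => f (r + s)) N
    have h2 := Finset.sum_range_succ' (fun r => f (r + s)) N
    rw [h2] at h1
    have h3 : f (N + s) = f (0 + s) := by rw [add_comm N s, hf, zero_add]
    simp only [h3] at h1
    have h4 : ∑ r ∈ Finset.range N, f (r + (s + 1)) = ∑ r ∈ Finset.range N, f (r + 1 + s) := by
      apply Finset.sum_congr rfl
      intro r _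
      congr 1; ring
    rw [h4]
    omega

/-- Some arc of length `m` is at least as heavy as the average. -/
theorem exists_arc {N : ℕ} (hN : 0 < N) (f : ℕ → ℕ) (hf : ∀ i, f (i + N) = f i) (m : ℕ) :
    ∃ r, m * (∑ r ∈ Finset.range N, f r) ≤ N * ∑ i ∈ Finset.range m, f (r + i) := by
  by_contra hcon
  push Not at hcon
  have h1 : ∑ r ∈ Finset.range N, (N * ∑ i ∈ Finset.range m, f (r + i)) <
      ∑ r ∈ Finset.range N, m * (∑ r ∈ Finset.range N, f r) := by
    apply Finset.sum_lt_sum_of_nonempty
    · exact ⟨0, Finset.mem_range.mpr hN⟩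
    · intro r _; exact hcon r
  rw [← Finset.mul_sum, Finset.sum_comm, Finset.sum_const, Finset.card_range] at h1
  rw [Finset.sum_congr rfl (fun s _ => sum_shift f hf s), Finset.sum_const, Finset.card_range] at h1
  simp only [smul_eq_mul] at h1
  exact lt_irrefl _ h1

end Pool.Agent.Lib.MP_0702e0_co
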