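import Pool.Agent.Lib.MP_0702e0_co.Layers
import Pool.Agent.Lib.MP_0702e0_co.Count

/-!
Adjacency between the points of the layers, and the resulting cycles.
-/

set_option autoImplicit false

namespace Pool.Agent.Lib.MP_0702e0_co

open Matrix UpperHalfPlane

/-- The hyperbolic cosine of the side length. -/
noncomputable def del : ℝ := 1 + 2 * (c0 ^ 2 - 3) / (4 - c0 ^ 2)

/-- Two points at the side length from one another. -/
def AdjP (p q : ℍ) : Prop := Real.cosh (dist p q) = del

theorem AdjP.symm {p q : ℍ} (h : AdjP p q) : AdjP q p := by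
  unfold AdjP at *; rw [dist_comm]; exact h

theorem adj_of_form {a b : Node} (ha : GoodN a) (hb : GoodN b)
    (h : Bf (a.2 *ᵥ v) (b.2 *ᵥ v) = Bf (J *ᵥ v) v) : AdjP (P a) (P b) := by
  refine cosh_adj ha.isVert hb.isVert ?_
  have := congrFun h 0
  rw [Bf_zero, Bf_zero] at this
  exact this

theorem adj_mv {t t' : Ty} {g : M} (h : GoodN (t, g)) (i : ℕ) : AdjP (P (t', g * mv i)) (P (t, g)) :=
  adj_of_form (goodN_mv h i) h (Bf_step h.1 i)

theorem adj_ch {nd y : Node} (h : GoodN nd) (hy : y ∈ ch nd) : AdjP (P y) (P nd) := by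
  obtain ⟨t, g⟩ := nd
  cases t <;> simp only [ch, List.mem_cons, List.not_mem_nil, or_false] at hy
  · rcases hy with h1 | h1 | h1 | h1 | h1 | h1 | h1 <;> rw [h1] <;> exact adj_mv h _
  · rcases hy with h1 | h1 | h1 <;> rw [h1] <;> exact adj_mv h _
  · rcases hy with h1 | h1 <;> rw [h1] <;> exact adj_mv h _

theorem mul_R_v (g : M) : (g * R) *ᵥ v = g *ᵥ v := by rw [← mulVec_mulVec, R_v]

theorem NA_v (g : M) : (g * NA) *ᵥ v = (g * mv 1) *ᵥ v := by
  rw [NA, ← mul_assoc, mul_R_v, mv, pow_one]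

theorem NB_v (g : M) : (g * NB) *ᵥ v = (g * mv 2) *ᵥ v := by
  rw [NB, ← mul_assoc, mul_R_v, mv]

theorem adj_nx {a b : Node} (ha : GoodN a) (hb : GoodN b) (h : Nx a b) : AdjP (P b) (P a) := by
  obtain ⟨h1, h2, h3⟩ := h
  obtain ⟨t, g⟩ := a
  obtain ⟨t', g'⟩ := b
  simp only at h1 h2 h3
  subst h3
  refine adj_of_form hb ha ?_
  cases t
  · exact absurd rfl h1
  · simp only [NT]
    rw [NA_v]; exact Bf_step ha.1 1
  · simp only [NT]
    rw [NB_v]; exact Bf_step ha.1 2

/-- Consecutive neighbours are adjacent. -/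
theorem Bf_consec {g : M} (hg : Good g) (i : ℕ) :
    Bf ((g * mv (i + 1)) *ᵥ v) ((g * mv i) *ᵥ v) = Bf (J *ᵥ v) v := by
  rw [← mulVec_mulVec, ← mulVec_mulVec, hg.form]
  have e1 : mv (i + 1) *ᵥ v = (R ^ i * J) *ᵥ ((J * R * J) *ᵥ v) := by
    rw [mulVec_mulVec, mv]
    congr 1
    have : R ^ i * J * (J * R * J) = R ^ i * (J * J) * R * J := by noncomm_ring
    rw [this, J_sq, mul_one, pow_succ]
  have e2 : mv i *ᵥ v = (R ^ i * J) *ᵥ v := rfl
  rw [e1, e2, ((good_R.pow i).mul good_J).form, JRJ]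
  rw [← mulVec_mulVec, R_pow_v, ← mulVec_mulVec]
  calc Bf (R ^ 6 *ᵥ (J *ᵥ v)) v = Bf (R ^ 6 *ᵥ (J *ᵥ v)) (R ^ 6 *ᵥ v) := by rw [R_pow_v]
    _ = Bf (J *ᵥ v) v := (good_R.pow 6).form _ _

/-- The second parent of a child of type `B`. -/
theorem adj_second {nd y q : Node} (h : GoodN nd) (hq : GoodN q) (hy : y ∈ ch nd)
    (hB : y.1 = Ty.B) (hn : Nx nd q) : AdjP (P y) (P q) := by
  obtain ⟨h1, h2, h3⟩ := hn
  have hyg := goodN_ch h y hy
  refine adj_of_form hyg hq ?_
  rw [h3]
  obtain ⟨t, g⟩ := nd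
  cases t
  · exact absurd rfl h1
  · simp only [ch, List.mem_cons, List.not_mem_nil, or_false] at hy
    rcases hy with e | e | e
    · rw [e] at hB; exact absurd hB (by simp)
    · rw [e] at hB; exact absurd hB (by simp)
    · rw [e]
      simp only [NT]
      rw [NA_v]; exact Bf_consec h.1 1
  · simp only [ch, List.mem_cons, List.not_mem_nil, or_false] at hy
    rcases hy with e | e
    · rw [e] at hB; exact absurd hB (by simp)
    · rw [e]
      simp only [NT]
      rw [NB_v]; exact Bf_consec h.1 2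

/-! ### Types in the layers -/

theorem ch_ty {nd y : Node} (hy : y ∈ ch nd) : y.1 = Ty.A ∨ y.1 = Ty.B := by
  obtain ⟨t, g⟩ := nd
  cases t <;> simp only [ch, List.mem_cons, List.not_mem_nil, or_false] at hy
  · rcases hy with h1 | h1 | h1 | h1 | h1 | h1 | h1 <;> rw [h1] <;> simp
  · rcases hy with h1 | h1 | h1 <;> rw [h1] <;> simp
  · rcases hy with h1 | h1 <;> rw [h1] <;> simp

theorem L_ty (k : ℕ) : ∀ y ∈ L (k + 1), y.1 = Ty.A ∨ y.1 = Ty.B := by
  intro y hy
  rw [L_succ, List.mem_flatMap] at hy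
  obtain ⟨nd, _, hy⟩ := hy
  exact ch_ty hy

/-- Number of nodes of type `A`. -/
noncomputable def nAc (l : List Node) : ℕ := l.countP (fun nd => nd.1 = Ty.A)
/-- Number of nodes of type `B`. -/
noncomputable def nBc (l : List Node) : ℕ := l.countP (fun nd => nd.1 = Ty.B)

theorem count_len (l : List Node) (h : ∀ y ∈ l, y.1 = Ty.A ∨ y.1 = Ty.B) :
    nAc l + nBc l = l.length := by
  induction l with
  | nil => simp [nAc, nBc]
  | cons a l ih =>
    have h1 := ih (fun y hy => h y (List.mem_cons_of_mem a hy))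
    have h2 := h a List.mem_cons_self
    simp only [nAc, nBc, List.countP_cons, List.length_cons] at *
    rcases h2 with h2 | h2 <;> simp [h2] <;> omega

theorem count_flat (l : List Node) (h : ∀ y ∈ l, y.1 = Ty.A ∨ y.1 = Ty.B) :
    nAc (l.flatMap ch) = 2 * nAc l + nBc l ∧ nBc (l.flatMap ch) = nAc l + nBc l := by
  induction l with
  | nil => simp [nAc, nBc]
  | cons a l ih =>
    have h1 := ih (fun y hy => h y (List.mem_cons_of_mem a hy))
    have h2 := h a List.mem_cons_self
    obtain ⟨t, g⟩ := a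
    simp only [nAc, nBc, List.flatMap_cons, List.countP_append, List.countP_cons] at *
    rcases h2 with h2 | h2 <;> subst h2 <;> simp [ch] <;> omega

noncomputable def al (k : ℕ) : ℕ := nAc (L (k + 1))
noncomputable def be (k : ℕ) : ℕ := nBc (L (k + 1))

theorem al_zero : al 0 = 7 := by simp [al, nAc, L_one]
theorem be_zero : be 0 = 0 := by simp [be, nBc, L_one]

theorem al_succ (k : ℕ) : al (k + 1) = 2 * al k + be k := by
  unfold al be; rw [L_succ (k + 1)]; exact (count_flat _ (L_ty k)).1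
theorem be_succ (k : ℕ) : be (k + 1) = al k + be k := by
  unfold al be; rw [L_succ (k + 1)]; exact (count_flat _ (L_ty k)).2

theorem L_len (k : ℕ) : (L (k + 1)).length = al k + be k := (count_len _ (L_ty k)).symm

/-! ### The vertex sets -/

open Classical in
/-- The points of the layers `0, …, k`. -/
noncomputable def Sk : ℕ → Finset ℍ
  | 0 => ((L 0).map P).toFinset
  | k + 1 => Sk k ∪ ((L (k + 1)).map P).toFinset

theorem mem_Sk (k : ℕ) (p : ℍ) : p ∈ Sk k ↔ ∃ j ≤ k, ∃ a ∈ L j, p = P a := by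
  classical
  induction k with
  | zero =>
    simp only [Sk, List.mem_toFinset, List.mem_map]
    constructor
    · rintro ⟨a, ha, rfl⟩; exact ⟨0, le_rfl, a, ha, rfl⟩
    · rintro ⟨j, hj, a, ha, rfl⟩
      have : j = 0 := by omega
      subst this
      exact ⟨a, ha, rfl⟩
  | succ k ih =>
    rw [Sk, Finset.mem_union, ih]
    simp only [List.mem_toFinset, List.mem_map]
    constructor
    · rintro (⟨j, hj, a, ha, rfl⟩ | ⟨a, ha, rfl⟩)
      · exact ⟨j, by omega, a, ha, rfl⟩
      · exact ⟨k + 1, le_rfl, a, ha, rfl⟩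
    · rintro ⟨j, hj, a, ha, rfl⟩
      by_cases hjk : j = k + 1
      · subst hjk; exact Or.inr ⟨a, ha, rfl⟩
      · exact Or.inl ⟨j, by omega, a, ha, rfl⟩

/-- The node of layer `k + 1` at cyclic position `i`. -/
noncomputable def nd (k i : ℕ) : Node :=
  (L (k + 1)).getD (i % (L (k + 1)).length) (Ty.O, 1)

theorem len_ge (k : ℕ) : 7 ≤ (L (k + 1)).length := by
  rw [L_len]
  induction k with
  | zero => rw [al_zero, be_zero]
  | succ k ih => rw [al_succ, be_succ]; omega

theorem nd_eq (k i : ℕ) : ∃ h : i % (L (k + 1)).length < (L (k + 1)).length,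
    nd k i = (L (k + 1))[i % (L (k + 1)).length] := by
  have h : i % (L (k + 1)).length < (L (k + 1)).length :=
    Nat.mod_lt _ (by have := len_ge k; omega)
  exact ⟨h, by unfold nd; rw [List.getD_eq_getElem _ _ h]⟩

theorem nd_mem (k i : ℕ) : nd k i ∈ L (k + 1) := by
  obtain ⟨h, e⟩ := nd_eq k i
  rw [e]; exact List.getElem_mem h

theorem nd_next (k i : ℕ) : Nx (nd k i) (nd k (i + 1)) := by
  obtain ⟨hd, tl, h1, h2⟩ := CC_L k
  obtain ⟨hi, ei⟩ := nd_eq k i
  obtain ⟨hj, ej⟩ := nd_eq k (i + 1)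
  have hlen := len_ge k
  rw [ei, ej]
  rw [List.isChain_iff_getElem] at h2
  have hlt : i % (L (k + 1)).length + 1 < (L (k + 1) ++ [hd]).length := by
    rw [List.length_append, List.length_singleton]; omega
  have h3 := h2 (i % (L (k + 1)).length) hlt
  rw [List.getElem_append_left hi] at h3
  by_cases hc : i % (L (k + 1)).length + 1 < (L (k + 1)).length
  · rw [List.getElem_append_left hc] at h3
    have e : (i + 1) % (L (k + 1)).length = i % (L (k + 1)).length + 1 := by
      rw [Nat.add_mod, Nat.mod_eq_of_lt (show 1 < (L (k + 1)).length by omega), Nat.mod_eq_of_lt hc]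
    simp only [e]
    exact h3
  · rw [List.getElem_append_right (by omega)] at h3
    have e : (i + 1) % (L (k + 1)).length = 0 := by
      rw [Nat.add_mod, Nat.mod_eq_of_lt (show 1 < (L (k + 1)).length by omega),
        show i % (L (k + 1)).length + 1 = (L (k + 1)).length by omega, Nat.mod_self]
    have e2 : (L (k + 1))[0]'(by omega) = hd := by
      simp only [h1, List.getElem_cons_zero]
    simp only [e, e2]
    simpa using h3

/-- Every node of a layer `≥ 1` has a next node in its layer. -/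
theorem exists_next (k : ℕ) {a : Node} (ha : a ∈ L (k + 1)) : ∃ q ∈ L (k + 1), Nx a q := by
  obtain ⟨i, hi, rfl⟩ := List.mem_iff_getElem.mp ha
  refine ⟨nd k (i + 1), nd_mem k _, ?_⟩
  have h := nd_next k i
  obtain ⟨h1, h2⟩ := nd_eq k i
  rw [h2] at h
  simpa only [Nat.mod_eq_of_lt hi] using h

theorem nx_ne {k : ℕ} {a q : Node} (ha : a ∈ L (k + 1)) (hq : q ∈ L (k + 1)) (h : Nx a q) :
    P a ≠ P q := by
  intro e
  have h1 := adj_nx (L_good _ a ha) (L_good _ q hq) h
  unfold AdjP at h1
  rw [e, dist_self, Real.cosh_zero] at h1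
  unfold del at h1
  have h2 : 0 < 2 * (c0 ^ 2 - 3) / (4 - c0 ^ 2) := by
    apply div_pos
    · linarith [sq_lower]
    · linarith [sq_upper]
  linarith

/-- The parents of a node. -/
theorem parents (k : ℕ) {y : Node} (hy : y ∈ L (k + 1)) :
    ∃ T : Finset ℍ, T ⊆ Sk k ∧ T.card = 1 + (if y.1 = Ty.B then 1 else 0) ∧ ∀ t ∈ T, AdjP (P y) t := by
  classical
  have hy0 := hy
  rw [L_succ, List.mem_flatMap] at hy
  obtain ⟨a, ha, hya⟩ := hy
  have hag := L_good _ a ha
  by_cases hB : y.1 = Ty.B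
  · rw [if_pos hB]
    cases k with
    | zero =>
      exfalso
      rw [L_one] at hy0
      simp only [List.mem_cons, List.not_mem_nil, or_false] at hy0
      rcases hy0 with h1 | h1 | h1 | h1 | h1 | h1 | h1 <;> rw [h1] at hB <;> exact absurd hB (by simp)
    | succ k =>
      obtain ⟨q, hq, hn⟩ := exists_next k ha
      refine ⟨{P a, P q}, ?_, ?_, ?_⟩
      · intro p hp
        rw [Finset.mem_insert, Finset.mem_singleton] at hp
        rw [mem_Sk]
        rcases hp with rfl | rfl
        · exact ⟨k + 1, le_rfl, a, ha, rfl⟩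
        · exact ⟨k + 1, le_rfl, q, hq, rfl⟩
      · rw [Finset.card_pair (nx_ne ha hq hn)]
      · intro t ht
        rw [Finset.mem_insert, Finset.mem_singleton] at ht
        rcases ht with rfl | rfl
        · exact adj_ch hag hya
        · exact adj_second hag (L_good _ q hq) hya hB hn
  · rw [if_neg hB]
    refine ⟨{P a}, ?_, by simp, ?_⟩
    · intro p hp
      rw [Finset.mem_singleton] at hp
      rw [mem_Sk, hp]
      exact ⟨k, le_rfl, a, ha, rfl⟩
    · intro t ht
      rw [Finset.mem_singleton] at ht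
      rw [ht]
      exact adj_ch hag hya

/-- The weight at position `i` of layer `k + 1`. -/
noncomputable def bt (k i : ℕ) : ℕ := if (nd k i).1 = Ty.B then 1 else 0

theorem ring_k (k : ℕ) : Ring AdjP (Sk k) (L (k + 1)).length (fun i => P (nd k i))
    (fun i => 1 + bt k i) := by
  have hlen := len_ge k
  refine ⟨by omega, fun a b h => h.symm, fun i => ?_, fun i => ?_, fun i j h => ?_, fun i h => ?_,
    fun i => ?_⟩
  · exact adj_nx (L_good _ _ (nd_mem k i)) (L_good _ _ (nd_mem k (i + 1))) (nd_next k i)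
  · simp only [nd, Nat.add_mod_right]
  · obtain ⟨hi, ei⟩ := nd_eq k i
    obtain ⟨hj, ej⟩ := nd_eq k j
    have hnd := L_nodup (k + 1)
    simp only [ei, ej] at h
    have h1 : ((L (k + 1)).map P)[i % (L (k + 1)).length]'(by simpa using hi) =
        ((L (k + 1)).map P)[j % (L (k + 1)).length]'(by simpa using hj) := by
      simpa using h
    exact (List.Nodup.getElem_inj_iff hnd).mp h1
  · rw [mem_Sk] at h
    obtain ⟨j, hj, a, ha, e⟩ := h
    exact L_cross (show k + 1 ≠ j by omega) _ (nd_mem k i) _ ha e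
  · exact parents k (nd_mem k i)

theorem Sk_succ (k : ℕ) : Sk (k + 1) = arc (Sk k) (fun i => P (nd k i)) 0 (L (k + 1)).length := by
  classical
  ext p
  rw [mem_arc, Sk, Finset.mem_union]
  simp only [List.mem_toFinset, List.mem_map]
  apply or_congr Iff.rfl
  constructor
  · rintro ⟨a, ha, rfl⟩
    obtain ⟨i, hi, rfl⟩ := List.mem_iff_getElem.mp ha
    refine ⟨i, hi, ?_⟩
    obtain ⟨h1, h2⟩ := nd_eq k (0 + i)
    rw [h2]
    simp only [zero_add, Nat.mod_eq_of_lt hi]
  · rintro ⟨i, hi, rfl⟩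
    exact ⟨_, nd_mem k _, rfl⟩

theorem bt_sum (k : ℕ) : ∑ i ∈ Finset.range (L (k + 1)).length, bt k i = be k := by
  have h1 : ∀ i (hi : i < (L (k + 1)).length), bt k i = if ((L (k + 1))[i]).1 = Ty.B then 1 else 0 := by
    intro i hi
    obtain ⟨h1, h2⟩ := nd_eq k i
    unfold bt
    rw [h2]
    simp only [Nat.mod_eq_of_lt hi]
  have h2 : ∀ l : List Node, ∀ f : ℕ → ℕ,
      (∀ i (hi : i < l.length), f i = if (l[i]).1 = Ty.B then 1 else 0) →
      ∑ i ∈ Finset.range l.length, f i = nBc l := by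
    intro l
    induction l with
    | nil => intro f _; simp [nBc]
    | cons a l ih =>
      intro f hf
      rw [List.length_cons, Finset.sum_range_succ', ih (fun i => f (i + 1))]
      · have h0 := hf 0 (by simp)
        simp only [List.getElem_cons_zero] at h0
        rw [h0]
        simp only [nBc, List.countP_cons]
        simp
      · intro i hi
        have := hf (i + 1) (by simpa using hi)
        simpa using this
  exact h2 _ _ h1

end Pool.Agent.Lib.MP_0702e0_co
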