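import Pool.Agent.Lib.MP_0702e0_co.Inj

/-!
# The minimal distance (MP_0702e0_co)
-/

namespace Pool.Agent.Lib.MP_0702e0_co

/-- elements of `ℤ[θ]`, as triples of real numbers -/
def IsO (x : Fin 3 → ℝ) : Prop := ∃ a b c : ℤ, ∀ i, x i = a + b * thK i + c * thK i ^ 2

lemma thK_cub (i : Fin 3) : thK i ^ 3 + thK i ^ 2 - 2 * thK i - 1 = 0 := by
  have := congrFun thK_cubic i
  simpa using this

lemma IsO.add {x y : Fin 3 → ℝ} (hx : IsO x) (hy : IsO y) : IsO (x + y) := by
  obtain ⟨a, b, c, h⟩ := hx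
  obtain ⟨a', b', c', h'⟩ := hy
  refine ⟨a + a', b + b', c + c', fun i => ?_⟩
  rw [Pi.add_apply, h, h']; push_cast; ring

lemma IsO.sub {x y : Fin 3 → ℝ} (hx : IsO x) (hy : IsO y) : IsO (x - y) := by
  obtain ⟨a, b, c, h⟩ := hx
  obtain ⟨a', b', c', h'⟩ := hy
  refine ⟨a - a', b - b', c - c', fun i => ?_⟩
  rw [Pi.sub_apply, h, h']; push_cast; ring

lemma IsO.mul {x y : Fin 3 → ℝ} (hx : IsO x) (hy : IsO y) : IsO (x * y) := by
  obtain ⟨a, b, c, h⟩ := hx
  obtain ⟨a', b', c', h'⟩ := hy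
  refine ⟨a * a' + (b * c' + c * b') - c * c', a * b' + b * a' + 2 * (b * c' + c * b') - c * c',
    a * c' + b * b' + c * a' - (b * c' + c * b') + 3 * (c * c'), fun i => ?_⟩
  rw [Pi.mul_apply, h, h']; push_cast
  linear_combination ((b * c' + c * b' : ℝ) + c * c' * (thK i - 1)) * thK_cub i

lemma IsO.one : IsO 1 := ⟨1, 0, 0, fun i => by simp⟩

lemma IsO.zero : IsO 0 := ⟨0, 0, 0, fun i => by simp⟩

lemma IsO.th : IsO thK := ⟨0, 1, 0, fun i => by simp⟩

lemma IsSp.ind {K : Type*} [CommRing K] {θ : K} {s : ℕ → K} (hs : IsSp θ s) (P : K → Prop)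
    (h0 : P (s 0)) (h1 : P (s 1)) (h2 : P (s 2))
    (h : ∀ x y z, P x → P y → P z → P (θ * (x + y) - z)) : ∀ n, P (s n) := by
  intro n
  induction n using Nat.strong_induction_on with
  | _ n ih =>
    match n, ih with
    | 0, _ => exact h0
    | 1, _ => exact h1
    | 2, _ => exact h2
    | n + 3, ih =>
      have hc := cc_mono_succ (n + 1)
      have hl := cc_lt (n + 1) (by omega)
      rcases (show cc (n + 1 + 1) = cc (n + 1) ∨ cc (n + 1 + 1) = cc (n + 1) + 1 by omega)
        with hA | hB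
      · have := (hs (n + 1) (by omega)).1 hA
        have e : s (n + 3) = θ * (s (n + 2) + s (cc (n + 1))) - s (n + 1) := by
          linear_combination this
        rw [e]
        exact h _ _ _ (ih _ (by omega)) (ih _ (by omega)) (ih _ (by omega))
      · have := (hs (n + 1) (by omega)).2 hB
        have e : s (n + 3) = θ * (s (n + 2) + s (cc (n + 1) + 1)) - s (cc (n + 1)) := by
          linear_combination this
        rw [e]
        exact h _ _ _ (ih _ (by omega)) (ih _ (by omega)) (ih _ (by omega))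

lemma isSp_coord {K : Type*} [CommRing K] (θ : K) (j : Fin 3) : IsSp θ (fun n => vv θ n j) :=
  isSp_sp θ _

lemma vvK_zero : vv thK 0 = ![1, 0, 0] := by
  funext j; fin_cases j <;> simp [vv, sp]

lemma vvK_one : vv thK 1 = ![0, 1, 0] := by
  funext j; fin_cases j <;> simp [vv, sp]

lemma vvK_two : vv thK 2 = ![0, 0, 1] := by
  funext j; fin_cases j <;> simp [vv, sp]

lemma isO_coord (n : ℕ) (j : Fin 3) : IsO (vv thK n j) := by
  refine (isSp_coord thK j).ind IsO ?_ ?_ ?_ ?_ n
  · simp only [vvK_zero]; fin_cases j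
    · exact IsO.one
    · exact IsO.zero
    · exact IsO.zero
  · simp only [vvK_one]; fin_cases j
    · exact IsO.zero
    · exact IsO.one
    · exact IsO.zero
  · simp only [vvK_two]; fin_cases j
    · exact IsO.zero
    · exact IsO.zero
    · exact IsO.one
  · intro x y z hx hy hz
    exact (IsO.th.mul (hx.add hy)).sub hz

lemma isO_sum (n : ℕ) : ∃ σ, IsO σ ∧ vv thK n 0 + vv thK n 1 + vv thK n 2 = 1 + 2 * σ := by
  have hs : IsSp thK (fun n => vv thK n 0 + vv thK n 1 + vv thK n 2) := by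
    intro n hn
    have h := fun j : Fin 3 => isSp_coord thK j n hn
    constructor
    · intro hc
      have h0 := (h 0).1 hc
      have h1 := (h 1).1 hc
      have h2 := (h 2).1 hc
      simp only at h0 h1 h2 ⊢
      linear_combination h0 + h1 + h2
    · intro hc
      have h0 := (h 0).2 hc
      have h1 := (h 1).2 hc
      have h2 := (h 2).2 hc
      simp only at h0 h1 h2 ⊢
      linear_combination h0 + h1 + h2
  refine hs.ind (fun x => ∃ σ, IsO σ ∧ x = 1 + 2 * σ) ?_ ?_ ?_ ?_ n
  · exact ⟨0, IsO.zero, by simp [vvK_zero]⟩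
  · exact ⟨0, IsO.zero, by simp [vvK_one]⟩
  · exact ⟨0, IsO.zero, by simp [vvK_two]⟩
  · rintro x y z ⟨a, ha, rfl⟩ ⟨b, hb, rfl⟩ ⟨c, hc, rfl⟩
    exact ⟨thK * (1 + a + b) - c - 1,
      ((IsO.th.mul ((IsO.one.add ha).add hb)).sub hc).sub IsO.one, by ring⟩

/-- the half difference `(β - (2 - θ))/2` is an algebraic integer -/
lemma isO_W (m n : ℕ) : ∃ W, IsO W ∧ be thK (vv thK m) (vv thK n) = 2 - thK + 2 * W := by
  obtain ⟨σ, hσ, e⟩ := isO_sum m
  obtain ⟨τ, hτ, e'⟩ := isO_sum n
  refine ⟨(1 - thK) * (vv thK m 0 * vv thK n 0 + vv thK m 1 * vv thK n 1 +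
    vv thK m 2 * vv thK n 2) + thK * (σ + τ + (σ * τ + σ * τ)) + thK - 1, ?_, ?_⟩
  · have h0 := (isO_coord m 0).mul (isO_coord n 0)
    have h1 := (isO_coord m 1).mul (isO_coord n 1)
    have h2 := (isO_coord m 2).mul (isO_coord n 2)
    exact ((((IsO.one.sub IsO.th).mul ((h0.add h1).add h2)).add
      (IsO.th.mul ((hσ.add hτ).add ((hσ.mul hτ).add (hσ.mul hτ))))).add IsO.th).sub IsO.one
  · unfold be
    linear_combination thK * (vv thK n 0 + vv thK n 1 + vv thK n 2) * e + thK * (1 + 2 * σ) * e'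

/-- passing to one embedding -/
lemma sp_apply (x : Fin 3 → Fin 3 → ℝ) (i : Fin 3) (n : ℕ) :
    sp thK x n i = sp (thK i) (fun j => x j i) n := by
  induction n using Nat.strong_induction_on with
  | _ n ih =>
    match n, ih with
    | 0, _ => simp [sp]
    | 1, _ => simp [sp]
    | 2, _ => simp [sp]
    | n + 3, ih =>
      rw [sp, sp]
      simp only [Pi.sub_apply, Pi.mul_apply, Pi.add_apply]
      rw [ih (n + 2) (by omega), ih (min (cc (n + 2)) (n + 2)) (by omega)]
      split_ifs with h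
      · rw [ih (n + 1) (by omega)]
      · rw [ih (min (cc (n + 1)) (n + 2)) (by omega)]

lemma vv_apply (i j : Fin 3) (n : ℕ) : vv thK n j i = vv (thK i) n j := by
  unfold vv
  rw [sp_apply]
  congr 1
  funext k
  split_ifs <;> simp

lemma be_apply (i : Fin 3) (m n : ℕ) :
    be thK (vv thK m) (vv thK n) i = be (thK i) (vv (thK i) m) (vv (thK i) n) := by
  unfold be
  simp [vv_apply]

lemma be_self' (i : Fin 3) (n : ℕ) : be (thK i) (vv (thK i) n) (vv (thK i) n) = 2 - thK i := by
  rcases Nat.eq_zero_or_pos n with h | h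
  · subst h
    have : vv (thK i) 0 = ![1, 0, 0] := by
      funext j; fin_cases j <;> simp [vv, sp]
    rw [this]; simp [be]; ring
  · exact (tri_vv (thK_cub i) n h).yy

lemma pos_def {t : ℝ} (h1 : -2 < t) (h2 : t < 1) (p : Fin 3 → ℝ) : 0 ≤ be t p p := by
  have e : be t p p = (t + 2) / 3 * (p 0 + p 1 + p 2) ^ 2 +
      2 * (1 - t) * ((p 0 - p 1) ^ 2 / 2 + (p 0 + p 1 - 2 * p 2) ^ 2 / 6) := by
    unfold be; ring
  rw [e]
  have h3 : 0 < 1 - t := by linarith
  have h4 : 0 < t + 2 := by linarith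
  positivity

lemma be_bound {t : ℝ} (h1 : -2 < t) (h2 : t < 1) (p q : Fin 3 → ℝ) (hp : be t p p = 2 - t)
    (hq : be t q q = 2 - t) : -(2 - t) ≤ be t p q ∧ be t p q ≤ 2 - t := by
  have h3 := pos_def h1 h2 (p - q)
  have h4 := pos_def h1 h2 (p + q)
  have e3 : be t (p - q) (p - q) = be t p p + be t q q - 2 * be t p q := by
    unfold be; simp only [Pi.sub_apply]; ring
  have e4 : be t (p + q) (p + q) = be t p p + be t q q + 2 * be t p q := by
    unfold be; simp only [Pi.add_apply]; ring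
  rw [e3, hp, hq] at h3
  rw [e4, hp, hq] at h4
  constructor <;> linarith

/-- the number theoretic gap -/
lemma gap {a b c : ℤ} (h1 : -(2 - thK 1) ≤ a + b * thK 1 + c * thK 1 ^ 2)
    (h1' : a + b * thK 1 + c * thK 1 ^ 2 ≤ (0 : ℝ))
    (h2 : -(2 - thK 2) ≤ a + b * thK 2 + c * thK 2 ^ 2)
    (h2' : a + b * thK 2 + c * thK 2 ^ 2 ≤ (0 : ℝ))
    (h0 : (0 : ℝ) < a + b * th + c * th ^ 2) : th - 1 ≤ a + b * th + c * th ^ 2 := by
  by_contra hcon
  push Not at hcon
  have l0 := th_lo
  have u0 := th_hi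
  have l1 := th_sq_lo
  have u1 := th_sq_hi
  have hc := th_cubic
  have t1 : thK 1 = th ^ 2 - 2 := rfl
  have t2 : thK 2 = 1 - th - th ^ 2 := rfl
  set W0 : ℝ := a + b * th + c * th ^ 2 with hW0
  set W1 : ℝ := a + b * thK 1 + c * thK 1 ^ 2 with hW1
  set W2 : ℝ := a + b * thK 2 + c * thK 2 ^ 2 with hW2
  have e : 7 * (c : ℝ) = W0 * (thK 1 - thK 2) - W1 * (th - thK 2) + W2 * (th - thK 1) := by
    rw [hW0, hW1, hW2, t1, t2]
    linear_combination (-c * (1 + 9 * th - th ^ 2 - 2 * th ^ 3)) * hc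
  have d12 : 0 < thK 1 - thK 2 := by rw [t1, t2]; linarith
  have d12' : thK 1 - thK 2 < 1.3572 := by rw [t1, t2]; linarith
  have d02 : 0 < th - thK 2 := by rw [t2]; linarith
  have d02' : th - thK 2 < 3.0491 := by rw [t2]; linarith
  have d01 : 1.6918 < th - thK 1 := by rw [t1]; linarith
  have d01' : th - thK 1 < 1.6924 := by rw [t1]; linarith
  have w1 : -2.4454 < W1 := by rw [t1] at h1; linarith
  have w2 : -3.8022 < W2 := by rw [t2] at h2; linarith
  have m1 : 0 < W0 * (thK 1 - thK 2) := mul_pos h0 d12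
  have m1' : W0 * (thK 1 - thK 2) ≤ 0.247 * 1.3572 :=
    mul_le_mul (by linarith) d12'.le d12.le (by norm_num)
  have m2 : 0 ≤ -W1 * (th - thK 2) := mul_nonneg (by linarith) d02.le
  have m2' : -W1 * (th - thK 2) ≤ 2.4454 * 3.0491 :=
    mul_le_mul (by linarith) d02'.le d02.le (by norm_num)
  have m3 : 0 ≤ -W2 * (th - thK 1) := mul_nonneg (by linarith) (by linarith)
  have m3' : -W2 * (th - thK 1) ≤ 3.8022 * 1.6924 :=
    mul_le_mul (by linarith) d01'.le (by linarith) (by norm_num)
  have c0 : (-1 : ℝ) < c := by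
    norm_num at m1' m2' m3'
    linarith
  have c2 : (c : ℝ) < 2 := by
    norm_num at m1' m2' m3'
    linarith
  have c0' : -1 < c := by exact_mod_cast c0
  have c2' : c < 2 := by exact_mod_cast c2
  rcases (show c = 0 ∨ c = 1 by omega) with hc0 | hc1
  · -- `c = 0`
    have e01 : W0 - W1 = b * (th - thK 1) := by rw [hW0, hW1, hc0]; push_cast; ring
    have b0 : (0 : ℝ) < b := by
      by_contra hb
      push Not at hb
      have := mul_nonneg (neg_nonneg.mpr hb) (show 0 ≤ th - thK 1 by linarith)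
      linarith
    have b1 : (b : ℝ) < 2 := by
      by_contra hb
      push Not at hb
      have := mul_nonneg (sub_nonneg.mpr hb) (show 0 ≤ th - thK 1 by linarith)
      linarith
    have b0' : 0 < b := by exact_mod_cast b0
    have b1' : b < 2 := by exact_mod_cast b1
    have hb1 : b = 1 := by omega
    have ea : W0 = a + th := by rw [hW0, hc0, hb1]; push_cast; ring
    have a0 : (-2 : ℝ) < a := by linarith
    have a1 : (a : ℝ) < -1 := by linarith
    have a0' : -2 < a := by exact_mod_cast a0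
    have a1' : a < -1 := by exact_mod_cast a1
    omega
  · -- `c = 1`
    have e02 : W0 - W2 = (b + 1 - th ^ 2) * (th - thK 2) := by
      rw [hW0, hW2, hc1, t2]; push_cast; ring
    have e01 : W0 - W1 = (b + th + th ^ 2 - 2) * (th - thK 1) := by
      rw [hW0, hW1, hc1, t1]; push_cast; ring
    have b0 : (0 : ℝ) < b := by
      by_contra hb
      push Not at hb
      have := mul_nonneg (show 0 ≤ -(b + 1 - th ^ 2) by linarith) d02.le
      linarith
    have b0' : 1 ≤ b := by
      have : 0 < b := by exact_mod_cast b0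
      omega
    have b1 : (1 : ℝ) ≤ b := by exact_mod_cast b0'
    have := mul_le_mul (show 1.8 ≤ b + th + th ^ 2 - 2 by linarith) d01.le (by norm_num)
      (by linarith)
    norm_num at this
    linarith

/-- two vertices of the spiral are either equal or at distance at least the side length -/
theorem min_dist (m n : ℕ) (h : 2 - th < be th (vv th m) (vv th n)) :
    th ≤ be th (vv th m) (vv th n) := by
  obtain ⟨W, ⟨a, b, c, hW⟩, e⟩ := isO_W m n
  have k0 : thK 0 = th := rfl
  have t1 : thK 1 = th ^ 2 - 2 := rfl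
  have t2 : thK 2 = 1 - th - th ^ 2 := rfl
  have l0 := th_lo
  have u0 := th_hi
  have l1 := th_sq_lo
  have u1 := th_sq_hi
  have E : ∀ i, be (thK i) (vv (thK i) m) (vv (thK i) n) = 2 - thK i +
      2 * (a + b * thK i + c * thK i ^ 2) := by
    intro i
    rw [← be_apply, e, ← hW i]
    simp
  have E0 := E 0
  have E1 := E 1
  have E2 := E 2
  have B1 := be_bound (t := thK 1) (by rw [t1]; linarith) (by rw [t1]; linarith)
    (vv (thK 1) m) (vv (thK 1) n) (be_self' 1 m) (be_self' 1 n)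
  have B2 := be_bound (t := thK 2) (by rw [t2]; linarith) (by rw [t2]; linarith)
    (vv (thK 2) m) (vv (thK 2) n) (be_self' 2 m) (be_self' 2 n)
  rw [E1] at B1
  rw [E2] at B2
  rw [k0] at E0
  rw [E0] at h ⊢
  have := gap (a := a) (b := b) (c := c) (by linarith [B1.1]) (by linarith [B1.2])
    (by linarith [B2.1]) (by linarith [B2.2]) (by linarith)
  linarith

end Pool.Agent.Lib.MP_0702e0_co
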