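import Mathlib

/-!
# Contact numbers in the hyperbolic plane (MP_0702e0_co)

The hyperbolic plane is Mathlib's upper half plane `ℍ` with its hyperbolic distance
(constant curvature `-1`).
-/

namespace Pool.Agent.Lib.MP_0702e0_co

open UpperHalfPlane

/-- `P` is the set of centres of a packing by discs of diameter `d`: the distance between two
different points of `P` is at least `d` -/
def IsPacking (d : ℝ) (P : Finset ℍ) : Prop := ∀ x ∈ P, ∀ y ∈ P, x ≠ y → d ≤ dist x y

open Classical in
/-- the number of touching pairs: two-element subsets of `P` whose elements are at distance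
exactly `d` -/
noncomputable def touching (d : ℝ) (P : Finset ℍ) : ℕ :=
  ((P.powersetCard 2).filter fun s => ∀ x ∈ s, ∀ y ∈ s, x ≠ y → dist x y = d).card

/-- `e_d(n)`: the largest number of touching pairs in a packing by `n` discs of diameter `d` -/
noncomputable def contactNumber (d : ℝ) (n : ℕ) : ℕ :=
  sSup {k : ℕ | ∃ P : Finset ℍ, P.card = n ∧ IsPacking d P ∧ touching d P = k}

end Pool.Agent.Lib.MP_0702e0_co
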