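import Mathlib

/-!
The number `c = 2 cos (π/7)`, its two conjugates, and the ring `ℤ[c]` embedded in `ℝ × ℝ × ℝ`.
-/

set_option autoImplicit false

namespace Pool.Agent.Lib.MP_0702e0_co

/-- `2 cos (π/7)`. -/
noncomputable def c0 : ℝ := 2 * Real.cos (Real.pi / 7)

theorem c0_cubic : c0 ^ 3 = c0 ^ 2 + 2 * c0 - 1 := by
  have hθ : Real.cos (4 * (Real.pi / 7)) = - Real.cos (3 * (Real.pi / 7)) := by
    rw [← Real.cos_pi_sub]; congr 1; ring
  have h3 := Real.cos_three_mul (Real.pi / 7)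
  have h4 : Real.cos (4 * (Real.pi / 7)) = 2 * (2 * Real.cos (Real.pi / 7) ^ 2 - 1) ^ 2 - 1 := by
    rw [show 4 * (Real.pi / 7) = 2 * (2 * (Real.pi / 7)) by ring, Real.cos_two_mul, Real.cos_two_mul]
  have hpos : 0 < Real.cos (Real.pi / 7) := by
    apply Real.cos_pos_of_mem_Ioo
    constructor <;> nlinarith [Real.pi_pos]
  have hc : (c0 + 2) * (c0 ^ 3 - c0 ^ 2 - 2 * c0 + 1) = 0 := by
    rw [h4, h3] at hθ
    unfold c0
    nlinarith [hθ]
  have h2 : c0 + 2 ≠ 0 := by unfold c0; positivity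
  have := (mul_eq_zero.mp hc).resolve_left h2
  linarith

theorem c0_gt_one : 7 / 5 < c0 := by
  have h : Real.cos (Real.pi / 4) < Real.cos (Real.pi / 7) := by
    apply Real.cos_lt_cos_of_nonneg_of_le_pi_div_two <;> nlinarith [Real.pi_pos]
  rw [Real.cos_pi_div_four] at h
  have h2 : (7 / 5 : ℝ) < Real.sqrt 2 := by
    apply Real.lt_sqrt_of_sq_lt; norm_num
  unfold c0
  linarith

theorem c0_lower : (1.8019 : ℝ) < c0 := by
  by_contra h
  push Not at h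
  have h1 := c0_cubic
  have h2 := c0_gt_one
  nlinarith [mul_nonneg (sub_nonneg.mpr h) (sub_nonneg.mpr h2.le),
    mul_nonneg (mul_nonneg (sub_nonneg.mpr h) (sub_nonneg.mpr h2.le)) (sub_nonneg.mpr h2.le)]

theorem c0_upper : c0 < (1.802 : ℝ) := by
  by_contra h
  push Not at h
  have h1 := c0_cubic
  nlinarith [mul_nonneg (sub_nonneg.mpr h) (sub_nonneg.mpr h),
    mul_nonneg (mul_nonneg (sub_nonneg.mpr h) (sub_nonneg.mpr h)) (sub_nonneg.mpr h)]

/-- The algebra `ℝ × ℝ × ℝ` (one coordinate for each real embedding of `ℚ(c)`). -/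
abbrev A : Type := Fin 3 → ℝ

/-- The element `(c, c', c'')`. -/
noncomputable def c : A := ![c0, c0 ^ 2 - c0 - 1, 2 - c0 ^ 2]

theorem c_cubic : c ^ 3 = c ^ 2 + 2 * c - 1 := by
  have h := c0_cubic
  ext i
  fin_cases i
  · simpa [c] using h
  · simp only [c, Fin.mk_one, Fin.isValue, Pi.pow_apply, Matrix.cons_val_one, Matrix.cons_val_zero,
      Pi.add_apply, Pi.sub_apply, Pi.mul_apply, Pi.ofNat_apply]
    linear_combination (c0 ^ 3 - 2 * c0 ^ 2 - c0 + 1) * h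
  · simp only [c, Fin.reduceFinMk, Fin.isValue, Pi.pow_apply, Matrix.cons_val,
      Pi.add_apply, Pi.sub_apply, Pi.mul_apply, Pi.ofNat_apply]
    linear_combination (-c0 ^ 3 - c0 ^ 2 + 2 * c0 + 1) * h

/-- The ring `ℤ[c]` inside `ℝ × ℝ × ℝ`. -/
noncomputable def O : Subring A where
  carrier := {b | ∃ x y z : ℤ, b = (x : A) + y * c + z * c ^ 2}
  mul_mem' := by
    rintro a b ⟨x, y, z, rfl⟩ ⟨x', y', z', rfl⟩
    refine ⟨x * x' - (y * z' + z * y') - z * z', x * y' + y * x' + 2 * (y * z' + z * y') + z * z',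
      x * z' + y * y' + z * x' + (y * z' + z * y') + 3 * (z * z'), ?_⟩
    push_cast
    linear_combination ((y : A) * z' + z * y' + z * z' + z * z' * c) * c_cubic
  one_mem' := ⟨1, 0, 0, by simp⟩
  add_mem' := by
    rintro a b ⟨x, y, z, rfl⟩ ⟨x', y', z', rfl⟩
    exact ⟨x + x', y + y', z + z', by push_cast; ring⟩
  zero_mem' := ⟨0, 0, 0, by simp⟩
  neg_mem' := by
    rintro a ⟨x, y, z, rfl⟩
    exact ⟨-x, -y, -z, by push_cast; ring⟩

theorem c_mem : c ∈ O := ⟨0, 1, 0, by simp⟩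

theorem mem_O {b : A} : b ∈ O ↔ ∃ x y z : ℤ, b = (x : A) + y * c + z * c ^ 2 := Iff.rfl

theorem int_cases (x y z : ℤ) (j1 : 0 < 3 * x + y + 5 * z) (j1' : 3 * x + y + 5 * z < 5)
    (j2 : -3 < x + 5 * y + 4 * z) (j2' : x + 5 * y + 4 * z < 3)
    (j3 : 0 < 5 * x + 4 * y + 13 * z) (j3' : 5 * x + 4 * y + 13 * z < 7) :
    (x = -1 ∧ y = -1 ∧ z = 1) ∨ (x = 1 ∧ y = 0 ∧ z = 0) ∨ (x = 3 ∧ y = 0 ∧ z = -1) := by
  have hx1 : -1 ≤ x := by omega
  have hx2 : x ≤ 3 := by omega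
  have hy1 : -1 ≤ y := by omega
  have hy2 : y ≤ 1 := by omega
  interval_cases x <;> interval_cases y <;> omega

/-- The smallest totally nonnegative elements: an element of `ℤ[c]` that is nonnegative at all places,
and bounded at the second and third place as required, is zero or at least one at the first place. -/
theorem arith {b : A} (hb : b ∈ O) (h0 : 0 ≤ b 0) (h1 : 0 ≤ b 1) (h2 : 0 ≤ b 2)
    (h1' : b 1 * (3 - (c 1) ^ 2) ≤ 4 - (c 1) ^ 2) (h2' : b 2 * (3 - (c 2) ^ 2) ≤ 4 - (c 2) ^ 2)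
    (hne : b 0 ≠ 0) : 1 ≤ b 0 := by
  obtain ⟨x, y, z, rfl⟩ := hb
  have hl := c0_lower
  have hu := c0_upper
  have h3 := c0_cubic
  simp only [c, Pi.add_apply, Pi.mul_apply, Pi.pow_apply, Pi.intCast_apply, Matrix.cons_val_zero,
    Matrix.cons_val_one, Matrix.cons_val, Fin.isValue] at *
  by_contra hlt
  push Not at hlt
  have hpos := lt_of_le_of_ne h0 (Ne.symm hne)
  have hsq : c0 ^ 2 < 3.2473 := by nlinarith
  have hsq' : 3.2468 < c0 ^ 2 := by nlinarith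
  set X : ℝ := (x : ℝ) with hX
  set Y : ℝ := (y : ℝ) with hY
  set Z : ℝ := (z : ℝ) with hZ
  set b0 := X + Y * c0 + Z * c0 ^ 2 with hb0
  set b1 := X + Y * (c0 ^ 2 - c0 - 1) + Z * (c0 ^ 2 - c0 - 1) ^ 2 with hb1
  set b2 := X + Y * (2 - c0 ^ 2) + Z * (2 - c0 ^ 2) ^ 2 with hb2
  have e1 : (c0 ^ 2 - c0 - 1) ^ 2 = 2 - c0 := by
    linear_combination (c0 - 1) * h3
  have e2 : (2 - c0 ^ 2) ^ 2 = 3 + c0 - c0 ^ 2 := by
    linear_combination (c0 + 1) * h3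
  have t1 : b0 + b1 + b2 = 3 * X + Y + 5 * Z := by
    rw [hb0, hb1, hb2, e1, e2]; ring
  have t2 : b0 * c0 + b1 * (c0 ^ 2 - c0 - 1) + b2 * (2 - c0 ^ 2) = X + 5 * Y + 4 * Z := by
    rw [hb0, hb1, hb2, e1, e2]
    linear_combination (2 * Y * c0 + Z * c0) * h3
  have t3 : b0 * c0 ^ 2 + b1 * (2 - c0) + b2 * (3 + c0 - c0 ^ 2) = 5 * X + 4 * Y + 13 * Z := by
    rw [hb0, hb1, hb2, e1, e2]
    linear_combination (Y * c0 + 2 * Z * c0) * h3
  rw [e1] at h1'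
  rw [e2] at h2'
  have u1 : b1 ≤ 1.357 := by nlinarith
  have u2 : b2 ≤ 1.6925 := by nlinarith
  have i1 : (0 : ℝ) < 3 * X + Y + 5 * Z := by rw [← t1]; linarith
  have i1' : 3 * X + Y + 5 * Z < (5 : ℝ) := by rw [← t1]; linarith
  have p0 : 0 ≤ b0 * c0 := by positivity
  have p0' : b0 * c0 ≤ 1 * 1.802 := mul_le_mul hlt.le hu.le (by linarith) (by norm_num)
  have p1 : 0 ≤ b1 * (c0 ^ 2 - c0 - 1) := mul_nonneg h1 (by linarith)
  have p1' : b1 * (c0 ^ 2 - c0 - 1) ≤ 1.357 * 0.4454 :=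
    mul_le_mul u1 (by linarith) (by linarith) (by norm_num)
  have p2 : 0 ≤ b2 * (c0 ^ 2 - 2) := mul_nonneg h2 (by linarith)
  have p2' : b2 * (c0 ^ 2 - 2) ≤ 1.6925 * 1.2473 :=
    mul_le_mul u2 (by linarith) (by linarith) (by norm_num)
  have i2 : (-3 : ℝ) < X + 5 * Y + 4 * Z := by rw [← t2]; linarith
  have i2' : X + 5 * Y + 4 * Z < (3 : ℝ) := by rw [← t2]; linarith
  have q0' : b0 * c0 ^ 2 ≤ 1 * 3.2473 := mul_le_mul hlt.le hsq.le (by positivity) (by norm_num)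
  have q1' : b1 * (2 - c0) ≤ 1.357 * 0.1981 :=
    mul_le_mul u1 (by linarith) (by linarith) (by norm_num)
  have q2' : b2 * (3 + c0 - c0 ^ 2) ≤ 1.6925 * 1.5552 :=
    mul_le_mul u2 (by linarith) (by linarith) (by norm_num)
  have i3 : (0 : ℝ) < 5 * X + 4 * Y + 13 * Z := by
    rw [← t3]
    have w0 : 0 < b0 * c0 ^ 2 := by positivity
    have w1 : 0 ≤ b1 * (2 - c0) := mul_nonneg h1 (by linarith)
    have w2 : 0 ≤ b2 * (3 + c0 - c0 ^ 2) := mul_nonneg h2 (by linarith)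
    linarith
  have i3' : 5 * X + 4 * Y + 13 * Z < (7 : ℝ) := by rw [← t3]; linarith
  have j1 : (0 : ℤ) < 3 * x + y + 5 * z := by
    have : ((0 : ℤ) : ℝ) < ((3 * x + y + 5 * z : ℤ) : ℝ) := by push_cast; exact i1
    exact_mod_cast this
  have j1' : 3 * x + y + 5 * z < (5 : ℤ) := by
    have : ((3 * x + y + 5 * z : ℤ) : ℝ) < ((5 : ℤ) : ℝ) := by push_cast; exact i1'
    exact_mod_cast this
  have j2 : (-3 : ℤ) < x + 5 * y + 4 * z := by
    have : ((-3 : ℤ) : ℝ) < ((x + 5 * y + 4 * z : ℤ) : ℝ) := by push_cast; exact i2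
    exact_mod_cast this
  have j2' : x + 5 * y + 4 * z < (3 : ℤ) := by
    have : ((x + 5 * y + 4 * z : ℤ) : ℝ) < ((3 : ℤ) : ℝ) := by push_cast; exact i2'
    exact_mod_cast this
  have j3 : (0 : ℤ) < 5 * x + 4 * y + 13 * z := by
    have : ((0 : ℤ) : ℝ) < ((5 * x + 4 * y + 13 * z : ℤ) : ℝ) := by push_cast; exact i3
    exact_mod_cast this
  have j3' : 5 * x + 4 * y + 13 * z < (7 : ℤ) := by
    have : ((5 * x + 4 * y + 13 * z : ℤ) : ℝ) < ((7 : ℤ) : ℝ) := by push_cast; exact i3'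
    exact_mod_cast this
  have key := int_cases x y z j1 j1' j2 j2' j3 j3'
  rcases key with ⟨rx, ry, rz⟩ | ⟨rx, ry, rz⟩ | ⟨rx, ry, rz⟩
  · subst rx ry rz
    have : b1 = -1 - (c0 ^ 2 - c0 - 1) + (2 - c0) := by
      rw [hb1, e1, hX, hY, hZ]; push_cast; ring
    linarith
  · subst rx ry rz
    have : b0 = 1 := by rw [hb0, hX, hY, hZ]; push_cast; ring
    linarith
  · subst rx ry rz
    have : b0 = 3 - c0 ^ 2 := by rw [hb0, hX, hY, hZ]; push_cast; ring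
    linarith

end Pool.Agent.Lib.MP_0702e0_co
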