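import Pool.Agent.Lib.MP_0702e0_co.Defs
import Pool.Agent.Lib.MP_0702e0_co.Adj

/-!
The lower bound for the contact numbers.
-/

set_option autoImplicit false

namespace Pool.Agent.Lib.MP_0702e0_co

open Matrix UpperHalfPlane

/-! ### The side length -/

theorem tanh_ratio {d : ℝ} (hd : 0 < d) :
    Real.tanh (d / 2) / Real.tanh d = Real.cosh d / (Real.cosh d + 1) := by
  have h1 : Real.sinh d = 2 * Real.sinh (d / 2) * Real.cosh (d / 2) := by
    rw [← Real.sinh_two_mul]; congr 1; ring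
  have h2 : Real.cosh d = 2 * Real.cosh (d / 2) ^ 2 - 1 := by
    have := Real.cosh_two_mul (d / 2)
    rw [show 2 * (d / 2) = d by ring] at this
    rw [this, Real.sinh_sq]; ring
  have h3 : 0 < Real.sinh (d / 2) := Real.sinh_pos_iff.mpr (by linarith)
  have h4 := Real.cosh_pos (d / 2)
  have h5 := Real.cosh_pos d
  rw [Real.tanh_eq_sinh_div_cosh, Real.tanh_eq_sinh_div_cosh, h1]
  have h6 : Real.cosh d + 1 = 2 * Real.cosh (d / 2) ^ 2 := by rw [h2]; ring
  rw [h6]
  field_simp

theorem cos_two : Real.cos (2 * Real.pi / 7) = (c0 ^ 2 - 2) / 2 := by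
  rw [show 2 * Real.pi / 7 = 2 * (Real.pi / 7) by ring, Real.cos_two_mul]
  unfold c0
  ring

theorem side_iff {d : ℝ} (hd : 0 < d) :
    Real.tanh (d / 2) / Real.tanh d = Real.cos (2 * Real.pi / 7) ↔ Real.cosh d = del := by
  have h1 := sq_upper
  have h2 := Real.cosh_pos d
  have h3 : 4 - c0 ^ 2 ≠ 0 := by intro h; linarith
  rw [tanh_ratio hd, cos_two, div_eq_div_iff (by linarith) (by norm_num)]
  unfold del
  constructor
  · intro h
    field_simp
    linarith
  · intro h
    rw [h]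
    field_simp
    ring

theorem del_gt : 1 < del := by
  unfold del
  have h2 : 0 < 2 * (c0 ^ 2 - 3) / (4 - c0 ^ 2) := by
    apply div_pos
    · linarith [sq_lower]
    · linarith [sq_upper]
  linarith

theorem side_unique : ∃! d : ℝ, IsSide7 d := by
  refine ⟨Real.arcosh del, ⟨Real.arcosh_pos del_gt, ?_⟩, ?_⟩
  · exact (side_iff (Real.arcosh_pos del_gt)).mpr (Real.cosh_arcosh del_gt.le)
  · intro d hd
    have := (side_iff hd.1).mp hd.2
    rw [← this, Real.arcosh_cosh hd.1.le]

theorem adjP_iff {d : ℝ} (hd : IsSide7 d) (p q : ℍ) : AdjP p q ↔ dist p q = d := by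
  have h1 := (side_iff hd.1).mp hd.2
  unfold AdjP
  constructor
  · intro h
    rw [← h1] at h
    exact Real.cosh_injOn (dist_nonneg) hd.1.le h
  · intro h
    rw [h, h1]

theorem touching_eq {d : ℝ} (hd : IsSide7 d) (S : Finset ℍ) : touching d S = pairs AdjP S := by
  classical
  unfold touching pairs
  congr 1
  ext s
  simp only [Finset.mem_filter, adjP_iff hd]

theorem le_dist {d : ℝ} (hd : IsSide7 d) {a b : Node} (ha : GoodN a) (hb : GoodN b)
    (h : P a ≠ P b) : d ≤ dist (P a) (P b) := by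
  have h1 := (side_iff hd.1).mp hd.2
  have h2 := cosh_dist_ge ha.2 hb.2 h
  change del ≤ _ at h2
  rw [← h1, Real.cosh_le_cosh, abs_of_pos hd.1] at h2
  refine h2.trans (le_of_eq ?_)
  exact abs_of_nonneg dist_nonneg

theorem le_contact {d : ℝ} {S : Finset ℍ} (h : Packing d S) : touching d S ≤ contact d S.card := by
  classical
  apply le_csSup
  · refine ⟨S.card.choose 2, ?_⟩
    rintro k ⟨T, hT, _, rfl⟩
    rw [← hT, ← Finset.card_powersetCard]
    exact Finset.card_filter_le _ _
  · exact ⟨S, rfl, h, rfl⟩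

/-- The sets used in the construction. -/
theorem packing_arc {d : ℝ} (hd : IsSide7 d) (k r m : ℕ) :
    Packing d (arc (Sk k) (fun i => P (nd k i)) r m) := by
  have key : ∀ p ∈ arc (Sk k) (fun i => P (nd k i)) r m, ∃ a, GoodN a ∧ p = P a := by
    intro p hp
    rw [mem_arc, mem_Sk] at hp
    rcases hp with ⟨j, _, a, ha, rfl⟩ | ⟨i, _, rfl⟩
    · exact ⟨a, L_good _ a ha, rfl⟩
    · exact ⟨_, L_good _ _ (nd_mem k (r + i)), rfl⟩
  intro x hx y hy hxy
  obtain ⟨a, ha, rfl⟩ := key x hx
  obtain ⟨b, hb, rfl⟩ := key y hy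
  exact le_dist hd ha hb hxy

/-! ### Counting -/

theorem al_ge (k : ℕ) : 7 ≤ al k := by
  induction k with
  | zero => rw [al_zero]
  | succ k ih => rw [al_succ]; omega

theorem card_Sk (k : ℕ) : (Sk k).card + 6 = al k := by
  induction k with
  | zero =>
    rw [al_zero]
    simp [Sk, L_zero]
  | succ k ih =>
    rw [Sk_succ, (ring_k k).card 0 _ le_rfl, L_len, al_succ]
    omega

theorem pairs_Sk (k : ℕ) : 3 * al k ≤ pairs AdjP (Sk k) + be k + 21 := by
  induction k with
  | zero => rw [al_zero, be_zero]; omega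
  | succ k ih =>
    have h := (ring_k k).pairs_full
    rw [← Sk_succ, Finset.sum_add_distrib, bt_sum, Finset.sum_const, Finset.card_range, L_len,
      smul_eq_mul, mul_one] at h
    rw [al_succ, be_succ]
    omega

theorem invar (k : ℕ) : (al k : ℤ) ^ 2 - al k * be k - (be k : ℤ) ^ 2 = 49 := by
  induction k with
  | zero => rw [al_zero, be_zero]; norm_num
  | succ k ih =>
    rw [al_succ, be_succ]
    push_cast
    linear_combination ih

theorem exists_km (n : ℕ) (hn : 1 ≤ n) : ∃ k m, n = (Sk k).card + m ∧ m < al k + be k := by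
  induction n, hn using Nat.le_induction with
  | base =>
    refine ⟨0, 0, ?_, ?_⟩
    · have := card_Sk 0
      rw [al_zero] at this
      omega
    · rw [al_zero]; omega
  | succ n hn ih =>
    obtain ⟨k, m, h1, h2⟩ := ih
    by_cases h : m + 1 < al k + be k
    · exact ⟨k, m + 1, by omega, h⟩
    · refine ⟨k + 1, 0, ?_, ?_⟩
      · have e1 := card_Sk k
        have e2 := card_Sk (k + 1)
        rw [al_succ] at e2
        omega
      · have := al_ge (k + 1)
        omega

/-- The numerical inequality for a partial layer. -/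
theorem numeric {a b m t E n : ℝ} (ha : 7 ≤ a) (hb : 0 ≤ b) (hinv : a ^ 2 - a * b - b ^ 2 = 49)
    (hm : 0 < m) (hmN : m < a + b) (hn : n = a - 6 + m) (hE : E = 3 * a - b - 21)
    (ht : m * b ≤ (a + b) * t) :
    7 / 2 * n - Real.sqrt (5 / 4 * n ^ 2 + 15 * n - 4) < E + 2 * m + t := by
  have hN : 0 < a + b := by linarith
  set q := m * b / (a + b) with hq
  have hqt : q ≤ t := by
    rw [hq, div_le_iff₀ hN]; linarith
  have hqN : q * (a + b) = m * b := by
    rw [hq]; field_simp
  set u := 7 / 2 * n - E - 2 * m - q with hu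
  have key : u ^ 2 < 5 / 4 * n ^ 2 + 15 * n - 4 := by
    have h1 : (5 / 4 * n ^ 2 + 15 * n - 4 - u ^ 2) * (a + b) ^ 2 = 49 * m * (a + b - m) := by
      have hu2 : u * (a + b) = (a / 2 + b + 3 * m / 2) * (a + b) - m * b := by
        rw [hu, hn, hE]
        linear_combination (-1) * hqN
      have : (5 / 4 * n ^ 2 + 15 * n - 4 - u ^ 2) * (a + b) ^ 2 =
          (5 / 4 * n ^ 2 + 15 * n - 4) * (a + b) ^ 2 - (u * (a + b)) ^ 2 := by ring
      rw [this, hu2, hn]
      linear_combination ((a + b) ^ 2 + (a + b) * m - m ^ 2) * hinv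
    have h2 : 0 < 49 * m * (a + b - m) := by
      apply mul_pos (by linarith) (by linarith)
    rw [← h1] at h2
    have h3 : 0 < (a + b) ^ 2 := by positivity
    by_contra hneg
    push Not at hneg
    have h4 := mul_nonpos_of_nonpos_of_nonneg
      (by linarith : 5 / 4 * n ^ 2 + 15 * n - 4 - u ^ 2 ≤ 0) h3.le
    linarith
  have h5 : u < Real.sqrt (5 / 4 * n ^ 2 + 15 * n - 4) := Real.lt_sqrt_of_sq_lt key
  rw [hu] at h5
  linarith

/-- The numerical identity for a full layer. -/
theorem numeric0 {a b E n : ℝ} (ha : 7 ≤ a) (hb : 0 ≤ b) (hinv : a ^ 2 - a * b - b ^ 2 = 49)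
    (hn : n = a - 6) (hE : E = 3 * a - b - 21) :
    7 / 2 * n - Real.sqrt (5 / 4 * n ^ 2 + 15 * n - 4) = E := by
  have h : 5 / 4 * n ^ 2 + 15 * n - 4 = (a / 2 + b) ^ 2 := by
    rw [hn]; linear_combination hinv
  rw [h, Real.sqrt_sq (by positivity), hn, hE]
  ring

theorem lower {d : ℝ} (hd : IsSide7 d) (n : ℕ) (hn : 1 ≤ n) :
    ⌊7 / 2 * (n : ℝ) - Real.sqrt (5 / 4 * (n : ℝ) ^ 2 + 15 * n - 4)⌋ ≤ (contact d n : ℤ) := by
  obtain ⟨k, m, h1, h2⟩ := exists_km n hn
  have hc := card_Sk k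
  have hp := pairs_Sk k
  have ha := al_ge k
  have hinv : (al k : ℝ) ^ 2 - al k * be k - (be k : ℝ) ^ 2 = 49 := by exact_mod_cast invar k
  have hn' : (n : ℝ) = al k - 6 + m := by
    have : (n : ℝ) + 6 = al k + m := by
      exact_mod_cast (show n + 6 = al k + m by omega)
    linarith
  have ha' : (7 : ℝ) ≤ al k := by exact_mod_cast ha
  have hb' : (0 : ℝ) ≤ be k := Nat.cast_nonneg _
  rcases Nat.eq_zero_or_pos m with hm | hm
  · subst hm
    have hS : (Sk k).card = n := by omega
    have h3 := packing_arc hd k 0 0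
    have h4 := le_contact h3
    rw [touching_eq hd] at h4
    change pairs AdjP (Sk k) ≤ contact d (Sk k).card at h4
    rw [hS] at h4
    have h5 := numeric0 (n := n) ha' hb' hinv (by rw [hn']; simp) rfl
    rw [h5]
    have h6 : (3 * (al k : ℝ) - be k - 21) = ((3 * (al k : ℤ) - be k - 21 : ℤ) : ℝ) := by push_cast; ring
    rw [h6, Int.floor_intCast]
    omega
  · have hN : 0 < (L (k + 1)).length := by have := len_ge k; omega
    obtain ⟨r, hr⟩ := exists_arc hN (bt k) (fun i => by
      have : nd k (i + (L (k + 1)).length) = nd k i := by simp only [nd, Nat.add_mod_right]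
      unfold bt; rw [this]) m
    rw [bt_sum, L_len] at hr
    obtain ⟨m', rfl⟩ : ∃ m', m = m' + 1 := ⟨m - 1, by omega⟩
    have h3 := packing_arc hd k r (m' + 1)
    have h4 := le_contact h3
    rw [touching_eq hd, (ring_k k).card r (m' + 1) (by rw [L_len]; omega), ← h1] at h4
    have h5 := (ring_k k).pairs_arc r m' (by rw [L_len]; omega)
    rw [Finset.sum_add_distrib, Finset.sum_const, Finset.card_range, smul_eq_mul, mul_one] at h5
    set t := ∑ i ∈ Finset.range (m' + 1), bt k (r + i) with ht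
    have hmN : (((m' + 1 : ℕ) : ℝ)) < al k + be k := by exact_mod_cast h2
    have h6 := numeric (n := n) (t := t) ha' hb' hinv (by exact_mod_cast hm) hmN hn' rfl
      (by exact_mod_cast hr)
    have h7 : 7 / 2 * (n : ℝ) - Real.sqrt (5 / 4 * (n : ℝ) ^ 2 + 15 * n - 4) <
        ((3 * (al k : ℤ) - be k - 21 + 2 * ((m' + 1 : ℕ) : ℤ) + t : ℤ) : ℝ) := by
      push_cast
      push_cast at h6
      linarith
    have h8 := Int.floor_lt.mpr h7
    omega

/-- The lower bound for all `n`. -/
theorem main : (∃! d : ℝ, IsSide7 d) ∧ ∀ d : ℝ, IsSide7 d → ∀ n : ℕ, 1 ≤ n →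
    ⌊7 / 2 * (n : ℝ) - Real.sqrt (5 / 4 * (n : ℝ) ^ 2 + 15 * n - 4)⌋ ≤ (contact d n : ℤ) :=
  ⟨side_unique, fun _ hd n hn => lower hd n hn⟩

end Pool.Agent.Lib.MP_0702e0_co
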