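import Pool.Agent.Lib.MP_0702e0_co.Field

/-!
The quadratic form of the Coxeter group `[7,3]` over `ℤ[c]`, its rotation `R` of order seven about the
vertex `v` and the half turn `J` about the midpoint of an edge at `v`.
-/

set_option autoImplicit false

namespace Pool.Agent.Lib.MP_0702e0_co

open Matrix

abbrev V : Type := Fin 3 → A
abbrev M : Type := Matrix (Fin 3) (Fin 3) A

/-- Twice the bilinear form. -/
noncomputable def Bf (x y : V) : A :=
  2 * x 0 * y 0 + 2 * x 1 * y 1 + 2 * x 2 * y 2 - c * (x 0 * y 1 + x 1 * y 0) - (x 1 * y 2 + x 2 * y 1)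

/-- The quadratic form. -/
noncomputable def Qf (x : V) : A :=
  x 0 * x 0 + x 1 * x 1 + x 2 * x 2 - c * x 0 * x 1 - x 1 * x 2

theorem Bf_self (x : V) : Bf x x = 2 * Qf x := by unfold Bf Qf; ring

theorem Bf_comm (x y : V) : Bf x y = Bf y x := by unfold Bf; ring

theorem Bf_add_right (x y z : V) : Bf x (y + z) = Bf x y + Bf x z := by
  simp only [Bf, Pi.add_apply]; ring

/-- Scalar multiplication. -/
def sc (a : A) (y : V) : V := fun i => a * y i

theorem Bf_sc (a : A) (x y : V) : Bf x (sc a y) = a * Bf x y := by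
  simp only [Bf, sc]; ring

theorem Bf_neg_right (x y : V) : Bf x (-y) = -Bf x y := by
  simp only [Bf, Pi.neg_apply]; ring

noncomputable def v : V := ![c, 2, 4 - c ^ 2]
noncomputable def e3 : V := ![0, 0, 1]
noncomputable def mu : A := 6 - 2 * c ^ 2

noncomputable def R : M := !![-1, c, 0; -c, c ^ 2 - 1, 1; 0, 0, 1]
noncomputable def J : M := !![-1, c, 0; 0, 1, 0; 0, 1, -1]

theorem mulVec3 (g : M) (x : V) (i : Fin 3) : (g *ᵥ x) i = g i 0 * x 0 + g i 1 * x 1 + g i 2 * x 2 := by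
  simp [Matrix.mulVec, dotProduct, Fin.sum_univ_three]

theorem R_v : R *ᵥ v = v := by
  ext i : 1
  rw [mulVec3]
  fin_cases i <;> simp [R, v] <;> ring

theorem J_v : J *ᵥ v = v + sc mu (-e3) := by
  ext i : 1
  rw [mulVec3]
  fin_cases i <;> simp [J, v, mu, e3, sc] <;> ring

theorem Bf_R (x y : V) : Bf (R *ᵥ x) (R *ᵥ y) = Bf x y := by
  simp only [Bf, mulVec3]
  simp [R]
  ring

theorem Bf_J (x y : V) : Bf (J *ᵥ x) (J *ᵥ y) = Bf x y := by
  simp only [Bf, mulVec3]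
  simp [J]
  ring

theorem J_sq : J * J = 1 := by
  ext i j : 2
  fin_cases i <;> fin_cases j <;> simp [J, Matrix.mul_apply, Fin.sum_univ_three]

noncomputable def R2 : M := !![1 - c ^ 2, c ^ 2 - 1, c; 1 - c ^ 2, c, c ^ 2; 0, 0, 1]
noncomputable def R3 : M := !![-c, 1, c ^ 2 + c - 1; -1, 0, c ^ 2 + c; 0, 0, 1]
noncomputable def R4 : M := !![0, -1, c ^ 2 + c; 1, -c, c ^ 2 + c; 0, 0, 1]

theorem c4 : c ^ 4 = 3 * c ^ 2 + c - 1 := by
  linear_combination (c + 1) * c_cubic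

theorem c5 : c ^ 5 = 4 * c ^ 2 + 5 * c - 3 := by
  linear_combination (c ^ 2 + c + 3) * c_cubic

theorem c3k (k : Fin 3) : c k ^ 3 = c k ^ 2 + 2 * c k - 1 := congrFun c_cubic k
theorem c4k (k : Fin 3) : c k ^ 4 = 3 * c k ^ 2 + c k - 1 := congrFun c4 k
theorem c5k (k : Fin 3) : c k ^ 5 = 4 * c k ^ 2 + 5 * c k - 3 := congrFun c5 k

theorem R_sq : R * R = R2 := by
  ext i j k
  fin_cases i <;> fin_cases j <;> simp [R, R2, Matrix.mul_apply, Fin.sum_univ_three] <;>
    ring_nf <;> (try simp only [c3k, c4k, c5k]) <;> (try ring)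

theorem R_cube : R2 * R = R3 := by
  ext i j k
  fin_cases i <;> fin_cases j <;> simp [R, R2, R3, Matrix.mul_apply, Fin.sum_univ_three] <;>
    ring_nf <;> (try simp only [c3k, c4k, c5k]) <;> (try ring)

theorem R_four : R3 * R = R4 := by
  ext i j k
  fin_cases i <;> fin_cases j <;> simp [R, R3, R4, Matrix.mul_apply, Fin.sum_univ_three] <;>
    ring_nf

theorem R_seven' : R3 * R4 = 1 := by
  ext i j k
  fin_cases i <;> fin_cases j <;> simp [R3, R4, Matrix.mul_apply, Fin.sum_univ_three] <;>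
    ring_nf <;> (try simp only [c3k]) <;> (try ring)

theorem R_pow_seven : R ^ 7 = 1 := by
  have h : R ^ 7 = ((R * R) * R) * (((R * R) * R) * R) := by noncomm_ring
  rw [h, R_sq, R_cube, R_four, R_seven']

theorem RJ_cube : R * J * (R * J) * (R * J) = 1 := by
  ext i j k
  fin_cases i <;> fin_cases j <;> simp [R, J, Matrix.mul_apply, Fin.sum_univ_three] <;>
    ring_nf <;> simp

/-- The key relation. -/
theorem JRJ : J * R * J = R ^ 6 * J * R ^ 6 := by
  have h1 : R ^ 6 * (R * J * (R * J) * (R * J)) * (J * R ^ 6) = R ^ 7 * (J * R * J) * R * (J * J) * R ^ 6 := by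
    noncomm_ring
  rw [RJ_cube, J_sq, R_pow_seven] at h1
  have h2 : (1 : M) * (J * R * J) * R * 1 * R ^ 6 = J * R * J * R ^ 7 := by noncomm_ring
  rw [h2, R_pow_seven, mul_one, mul_one] at h1
  rw [← h1]; noncomm_ring

noncomputable def NA : M := R * J * R
noncomputable def NB : M := R ^ 2 * J * R

/-- The six incidence relations between consecutive frames. -/
theorem next1 : R ^ 4 * J * NA = R ^ 3 * J := by
  have h : R ^ 4 * J * NA = R ^ 4 * (J * R * J) * R := by unfold NA; noncomm_ring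
  rw [h, JRJ]
  have h2 : R ^ 4 * (R ^ 6 * J * R ^ 6) * R = R ^ 3 * R ^ 7 * J * R ^ 7 := by noncomm_ring
  rw [h2, R_pow_seven]; simp

theorem next2 : R ^ 3 * J * NA = R ^ 2 * J := by
  have h : R ^ 3 * J * NA = R ^ 3 * (J * R * J) * R := by unfold NA; noncomm_ring
  rw [h, JRJ]
  have h2 : R ^ 3 * (R ^ 6 * J * R ^ 6) * R = R ^ 2 * R ^ 7 * J * R ^ 7 := by noncomm_ring
  rw [h2, R_pow_seven]; simp

theorem JR2J : J * R ^ 2 * J = R ^ 6 * J * R ^ 5 * J * R ^ 6 := by
  have h : J * R ^ 2 * J = (J * R * J) * (J * R * J) := by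
    have : J * R * J * (J * R * J) = J * R * (J * J) * R * J := by noncomm_ring
    rw [this, J_sq]; noncomm_ring
  rw [h, JRJ]
  have h2 : R ^ 6 * J * R ^ 6 * (R ^ 6 * J * R ^ 6) = R ^ 6 * J * R ^ 5 * R ^ 7 * J * R ^ 6 := by
    noncomm_ring
  rw [h2, R_pow_seven]; simp

theorem next3 : R ^ 2 * J * NB = NA * (R ^ 4 * J) := by
  have h : R ^ 2 * J * NB = R ^ 2 * (J * R ^ 2 * J) * R := by unfold NB; noncomm_ring
  rw [h, JR2J]
  have h2 : R ^ 2 * (R ^ 6 * J * R ^ 5 * J * R ^ 6) * R = R * R ^ 7 * J * R ^ 5 * J * R ^ 7 := by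
    noncomm_ring
  rw [h2, R_pow_seven]; unfold NA; noncomm_ring

theorem next4 : R ^ 3 * J * NB = NB * (R ^ 4 * J) := by
  have h : R ^ 3 * J * NB = R ^ 3 * (J * R ^ 2 * J) * R := by unfold NB; noncomm_ring
  rw [h, JR2J]
  have h2 : R ^ 3 * (R ^ 6 * J * R ^ 5 * J * R ^ 6) * R = R ^ 2 * R ^ 7 * J * R ^ 5 * J * R ^ 7 := by
    noncomm_ring
  rw [h2, R_pow_seven]; unfold NB; noncomm_ring

theorem next_root (i : ℕ) : R ^ (i + 1) * J * NA = R ^ i * J := by
  have h : R ^ (i + 1) * J * NA = R ^ i * R * (J * R * J) * R := by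
    unfold NA; rw [pow_succ]; noncomm_ring
  rw [h, JRJ]
  have h2 : R ^ i * R * (R ^ 6 * J * R ^ 6) * R = R ^ i * R ^ 7 * J * R ^ 7 := by noncomm_ring
  rw [h2, R_pow_seven]; simp

end Pool.Agent.Lib.MP_0702e0_co
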