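import Pool.Agent.Lib.MP_0702e0_co.Arith

/-!
# Realisation in the upper half plane (MP_0702e0_co)
-/

namespace Pool.Agent.Lib.MP_0702e0_co

open UpperHalfPlane

lemma aux {x x' g y y' k E : ℝ} (hx : 0 < x) (hy : 0 < y) (hE : 0 < E)
    (h1 : x * x' = E ^ 2 + g ^ 2) (h2 : y * y' = E ^ 2 + k ^ 2) :
    ((-g / x - -k / y) ^ 2 + (E / x) ^ 2 + (E / y) ^ 2) / (2 * (E / x) * (E / y)) =
      ((x * y' + y * x') / 2 - g * k) / E ^ 2 := by
  have e1 : x' = (E ^ 2 + g ^ 2) / x := by field_simp; linarith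
  have e2 : y' = (E ^ 2 + k ^ 2) / y := by field_simp; linarith
  rw [e1, e2]
  field_simp
  ring

noncomputable def sA : ℝ := Real.sqrt ((th + 2) / 3)
noncomputable def sB : ℝ := Real.sqrt (th - 1)
noncomputable def sC : ℝ := Real.sqrt ((th - 1) / 3)
noncomputable def sE : ℝ := Real.sqrt (2 - th)

lemma sA_sq : sA ^ 2 = (th + 2) / 3 := Real.sq_sqrt (by linarith [th_gt_one])
lemma sB_sq : sB ^ 2 = th - 1 := Real.sq_sqrt (by linarith [th_gt_one])
lemma sC_sq : sC ^ 2 = (th - 1) / 3 := Real.sq_sqrt (by linarith [th_gt_one])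
lemma sE_sq : sE ^ 2 = 2 - th := Real.sq_sqrt (by linarith [th_lt_two])
lemma sE_pos : 0 < sE := Real.sqrt_pos.mpr (by linarith [th_lt_two])
lemma sA_pos : 0 < sA := Real.sqrt_pos.mpr (by linarith [th_gt_one])

/-- sum of the coordinates -/
def su (p : Fin 3 → ℝ) : ℝ := p 0 + p 1 + p 2

noncomputable def hx (p : Fin 3 → ℝ) : ℝ := su p * sA + (p 0 - p 1) * sB
noncomputable def hy (p : Fin 3 → ℝ) : ℝ := su p * sA - (p 0 - p 1) * sB
noncomputable def hg (p : Fin 3 → ℝ) : ℝ := (p 0 + p 1 - 2 * p 2) * sC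

lemma be_eq (p q : Fin 3 → ℝ) : be th p q = (hx p * hy q + hx q * hy p) / 2 - hg p * hg q := by
  have e : (hx p * hy q + hx q * hy p) / 2 - hg p * hg q =
      su p * su q * sA ^ 2 - (p 0 - p 1) * (q 0 - q 1) * sB ^ 2 -
      (p 0 + p 1 - 2 * p 2) * (q 0 + q 1 - 2 * q 2) * sC ^ 2 := by
    unfold hx hy hg; ring
  rw [e, sA_sq, sB_sq, sC_sq]
  unfold be su; ring

lemma hx_hy {p : Fin 3 → ℝ} (h : be th p p = 2 - th) : hx p * hy p = sE ^ 2 + hg p ^ 2 := by
  rw [sE_sq]
  have := be_eq p p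
  rw [h] at this
  linear_combination -this

/-- a point of the positive sheet -/
structure Pos (p : Fin 3 → ℝ) : Prop where
  self : be th p p = 2 - th
  pos : 0 < su p

lemma Pos.hx_pos {p : Fin 3 → ℝ} (h : Pos p) : 0 < hx p := by
  have h1 := hx_hy h.self
  have h2 : hx p + hy p = 2 * (su p * sA) := by unfold hx hy; ring
  have h3 : 0 < su p * sA := mul_pos h.pos sA_pos
  have h4 : 0 < sE ^ 2 := by have := sE_pos; positivity
  by_contra hcon
  push Not at hcon
  have h5 : 0 < hy p := by linarith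
  have h6 : hx p * hy p ≤ 0 := mul_nonpos_of_nonpos_of_nonneg hcon h5.le
  have h7 := sq_nonneg (hg p)
  linarith

/-- the point of the hyperbolic plane -/
noncomputable def Z (p : Fin 3 → ℝ) : ℍ :=
  if h : 0 < hx p then ⟨⟨-hg p / hx p, sE / hx p⟩, div_pos sE_pos h⟩ else UpperHalfPlane.I

lemma Z_re {p : Fin 3 → ℝ} (h : 0 < hx p) : (Z p).re = -hg p / hx p := by
  unfold Z; rw [dif_pos h]; rfl

lemma Z_im {p : Fin 3 → ℝ} (h : 0 < hx p) : (Z p).im = sE / hx p := by
  unfold Z; rw [dif_pos h]; rfl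

lemma cosh_dist_Z {p q : Fin 3 → ℝ} (hp : Pos p) (hq : Pos q) :
    Real.cosh (dist (Z p) (Z q)) = be th p q / (2 - th) := by
  rw [cosh_dist', Z_re hp.hx_pos, Z_re hq.hx_pos, Z_im hp.hx_pos, Z_im hq.hx_pos,
    aux hp.hx_pos hq.hx_pos sE_pos (hx_hy hp.self) (hx_hy hq.self), ← be_eq, sE_sq]

lemma be_pos {p q : Fin 3 → ℝ} (hp : Pos p) (hq : Pos q) : 0 < be th p q := by
  have h := cosh_dist_Z hp hq
  have h1 := Real.cosh_pos (dist (Z p) (Z q))
  rw [h] at h1
  have h2 : 0 < 2 - th := by linarith [th_lt_two]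
  by_contra hcon
  push Not at hcon
  have := div_nonpos_of_nonpos_of_nonneg hcon h2.le
  linarith

lemma pos_of_be {p q : Fin 3 → ℝ} (hp : Pos p) (hq : be th q q = 2 - th) (h : 0 < be th p q) :
    Pos q := by
  refine ⟨hq, ?_⟩
  by_contra hcon
  push Not at hcon
  rcases hcon.lt_or_eq with h1 | h1
  · have h2 : Pos (-q) := ⟨by
      rw [← hq]; unfold be; simp only [Pi.neg_apply]; ring, by
      unfold su at h1 ⊢; simp only [Pi.neg_apply]; linarith⟩
    have h3 := be_pos hp h2
    have h4 : be th p (-q) = -be th p q := by unfold be; simp only [Pi.neg_apply]; ring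
    linarith
  · have h2 := be_eq q q
    rw [hq] at h2
    have h3 : hx q = (q 0 - q 1) * sB := by unfold hx; rw [h1]; ring
    have h4 : hy q = -((q 0 - q 1) * sB) := by unfold hy; rw [h1]; ring
    rw [h3, h4] at h2
    have h5 := th_lt_two
    nlinarith [sq_nonneg ((q 0 - q 1) * sB), sq_nonneg (hg q)]

lemma pos_vv (n : ℕ) : Pos (vv th n) := by
  induction n with
  | zero => exact ⟨be_self 0, by rw [vv_zero]; simp [su]⟩
  | succ n ih =>
    apply pos_of_be ih (be_self _)
    rcases Nat.eq_zero_or_pos n with h | h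
    · subst h
      rw [be_comm, base_rel.2.2.1]; linarith [th_gt_one]
    · rw [(tri_vv th_cubic n h).yz]; linarith [th_gt_one]

/-- the vertices of the spiral in the upper half plane -/
noncomputable def zz (n : ℕ) : ℍ := Z (vv th n)

lemma cosh_zz (m n : ℕ) :
    Real.cosh (dist (zz m) (zz n)) = be th (vv th m) (vv th n) / (2 - th) :=
  cosh_dist_Z (pos_vv m) (pos_vv n)

lemma sB_pos : 0 < sB := Real.sqrt_pos.mpr (by linarith [th_gt_one])
lemma sC_pos : 0 < sC := Real.sqrt_pos.mpr (by linarith [th_gt_one])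

lemma Z_inj {p q : Fin 3 → ℝ} (hp : Pos p) (hq : Pos q) (h : Z p = Z q) : p = q := by
  have xp := hp.hx_pos
  have xq := hq.hx_pos
  have h1 : (Z p).im = (Z q).im := by rw [h]
  have h2 : (Z p).re = (Z q).re := by rw [h]
  rw [Z_im xp, Z_im xq] at h1
  rw [Z_re xp, Z_re xq] at h2
  have e1 : hx p = hx q := by
    rw [div_eq_div_iff xp.ne' xq.ne'] at h1
    exact (mul_left_cancel₀ sE_pos.ne' h1).symm
  have e2 : hg p = hg q := by
    rw [e1, div_left_inj' xq.ne'] at h2
    linarith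
  have e3 : hy p = hy q := by
    have a1 := hx_hy hp.self
    have a2 := hx_hy hq.self
    rw [e1, e2, ← a2] at a1
    exact mul_left_cancel₀ xq.ne' a1
  have f1 : su p = su q := by
    have : 2 * sA * su p = 2 * sA * su q := by
      have u1 : hx p + hy p = 2 * sA * su p := by unfold hx hy; ring
      have u2 : hx q + hy q = 2 * sA * su q := by unfold hx hy; ring
      rw [← u1, ← u2, e1, e3]
    exact mul_left_cancel₀ (by have := sA_pos; positivity) this
  have f2 : p 0 - p 1 = q 0 - q 1 := by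
    have : 2 * sB * (p 0 - p 1) = 2 * sB * (q 0 - q 1) := by
      have u1 : hx p - hy p = 2 * sB * (p 0 - p 1) := by unfold hx hy; ring
      have u2 : hx q - hy q = 2 * sB * (q 0 - q 1) := by unfold hx hy; ring
      rw [← u1, ← u2, e1, e3]
    exact mul_left_cancel₀ (by have := sB_pos; positivity) this
  have f3 : p 0 + p 1 - 2 * p 2 = q 0 + q 1 - 2 * q 2 := by
    unfold hg at e2
    exact mul_right_cancel₀ sC_pos.ne' e2
  unfold su at f1
  funext j
  fin_cases j
  · show p 0 = q 0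
    linarith
  · show p 1 = q 1
    linarith
  · show p 2 = q 2
    linarith

lemma zz_injective : Function.Injective zz := by
  have hf : ∀ m n, 0 < be th (vv th n) (vv th m) := fun m n => be_pos (pos_vv n) (pos_vv m)
  intro a b h
  have h1 := Z_inj (pos_vv a) (pos_vv b) h
  by_contra hne
  rcases Nat.lt_or_gt_of_ne hne with h2 | h2
  · exact vv_injective hf h2 h1
  · exact vv_injective hf h2 h1.symm

/-- the side length of the tiling -/
lemma cosh_of_tanh {d : ℝ} (hd : 0 < d)
    (h : Real.cos (2 * Real.pi / 7) = Real.tanh (d / 2) / Real.tanh d) :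
    Real.cosh d = th / (2 - th) := by
  have h1 : Real.cosh d = 2 * Real.cosh (d / 2) ^ 2 - 1 := by
    have := Real.cosh_two_mul (d / 2)
    rw [show 2 * (d / 2) = d by ring] at this
    have h2 := Real.cosh_sq (d / 2)
    linarith
  have h2 : Real.sinh d = 2 * Real.sinh (d / 2) * Real.cosh (d / 2) := by
    have := Real.sinh_two_mul (d / 2)
    rwa [show 2 * (d / 2) = d by ring] at this
  have h3 : 0 < Real.cosh (d / 2) := Real.cosh_pos _
  have h4 : 0 < Real.sinh (d / 2) := Real.sinh_pos_iff.mpr (by linarith)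
  have h5 : 0 < Real.cosh d := Real.cosh_pos _
  rw [Real.tanh_eq_sinh_div_cosh, Real.tanh_eq_sinh_div_cosh, h2] at h
  have h6 : Real.sinh (d / 2) / Real.cosh (d / 2) /
      (2 * Real.sinh (d / 2) * Real.cosh (d / 2) / Real.cosh d) =
      Real.cosh d / (2 * Real.cosh (d / 2) ^ 2) := by
    field_simp
  rw [h6] at h
  have h7 : th = 2 * (Real.cosh d / (2 * Real.cosh (d / 2) ^ 2)) := by
    unfold th; rw [h]
  have h8 : 2 * Real.cosh (d / 2) ^ 2 = Real.cosh d + 1 := by linarith
  rw [h8] at h7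
  have h9 : 0 < Real.cosh d + 1 := by linarith
  have h10 : th * (Real.cosh d + 1) = 2 * Real.cosh d := by
    rw [h7]; field_simp
  have h11 : 0 < 2 - th := by linarith [th_lt_two]
  rw [eq_div_iff h11.ne']
  linarith

lemma tanh_of_cosh {d : ℝ} (hd : 0 < d) (h : Real.cosh d = th / (2 - th)) :
    Real.cos (2 * Real.pi / 7) = Real.tanh (d / 2) / Real.tanh d := by
  have h1 : Real.cosh d = 2 * Real.cosh (d / 2) ^ 2 - 1 := by
    have := Real.cosh_two_mul (d / 2)
    rw [show 2 * (d / 2) = d by ring] at this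
    have h2 := Real.cosh_sq (d / 2)
    linarith
  have h2 : Real.sinh d = 2 * Real.sinh (d / 2) * Real.cosh (d / 2) := by
    have := Real.sinh_two_mul (d / 2)
    rwa [show 2 * (d / 2) = d by ring] at this
  have h3 : 0 < Real.cosh (d / 2) := Real.cosh_pos _
  have h4 : 0 < Real.sinh (d / 2) := Real.sinh_pos_iff.mpr (by linarith)
  have h5 : 0 < Real.cosh d := Real.cosh_pos _
  have h6 : Real.sinh (d / 2) / Real.cosh (d / 2) /
      (2 * Real.sinh (d / 2) * Real.cosh (d / 2) / Real.cosh d) =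
      Real.cosh d / (2 * Real.cosh (d / 2) ^ 2) := by
    field_simp
  have h8 : 2 * Real.cosh (d / 2) ^ 2 = Real.cosh d + 1 := by linarith
  rw [Real.tanh_eq_sinh_div_cosh, Real.tanh_eq_sinh_div_cosh, h2, h6, h8]
  have h11 : 0 < 2 - th := by linarith [th_lt_two]
  have h12 : Real.cos (2 * Real.pi / 7) = th / 2 := by unfold th; ring
  rw [h12, eq_div_iff (by linarith)]
  rw [eq_div_iff h11.ne'] at h
  linarith

/-- distances between vertices of the spiral -/
lemma dist_zz_ge {d : ℝ} (hd : 0 < d) (h : Real.cosh d = th / (2 - th)) {m n : ℕ}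
    (hmn : m ≠ n) : d ≤ dist (zz m) (zz n) := by
  have h11 : 0 < 2 - th := by linarith [th_lt_two]
  have h1 := cosh_zz m n
  have h2 : 1 < Real.cosh (dist (zz m) (zz n)) := by
    rw [Real.one_lt_cosh, Ne, dist_eq_zero]
    exact fun h => hmn (zz_injective h)
  rw [h1, one_lt_div h11] at h2
  have h3 := min_dist m n h2
  have h4 : Real.cosh d ≤ Real.cosh (dist (zz m) (zz n)) := by
    rw [h, h1]
    exact div_le_div_of_nonneg_right h3 h11.le
  rw [Real.cosh_le_cosh, abs_of_pos hd, abs_of_nonneg dist_nonneg] at h4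
  exact h4

lemma dist_zz_eq {d : ℝ} (hd : 0 < d) (h : Real.cosh d = th / (2 - th)) {m n : ℕ}
    (hmn : be th (vv th m) (vv th n) = th) : dist (zz m) (zz n) = d := by
  have h1 := cosh_zz m n
  rw [hmn, ← h] at h1
  exact Real.cosh_strictMonoOn.injOn dist_nonneg hd.le h1

end Pool.Agent.Lib.MP_0702e0_co
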