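import Pool.Agent.Lib.MP_0702e0_co.PingPong

/-!
# Top level of the ping-pong, and injectivity (MP_0702e0_co)
-/

namespace Pool.Agent.Lib.MP_0702e0_co

lemma fan {y w1 w2 w3 w4 w5 w6 w7 : ℝ} (hy : 0 < y) (h1 : 0 < w1) (h2 : 0 < w2) (h3 : 0 < w3)
    (h7 : 0 < w7) (r1 : w1 + w3 = th * (y + w2)) (r2 : w2 + w4 = th * (y + w3))
    (r3 : w3 + w5 = th * (y + w4)) (r4 : w2 + w7 = th * (y + w1)) (r5 : w1 + w6 = th * (y + w7))
    (r6 : w7 + w5 = th * (y + w6)) (k12 : w1 + w2 - (1 + th) * y < 0)
    (k23 : 0 < w2 + w3 - (1 + th) * y) :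
    0 < w3 + w4 - (1 + th) * y ∧ 0 < w4 + w5 - (1 + th) * y ∧ 0 < w5 + w6 - (1 + th) * y := by
  refine ⟨F1 hy r1 r2 k12 k23, F2 hy h2 h3 r1 r2 r3 k12, ?_⟩
  have := F2 (a := w2) (b := w1) (c := w7) (d := w6) (e := w5) hy h1 h7 r4 r5 r6 (by linarith)
  linarith

section
variable {f : ℕ → ℝ} (hs : IsSp th f) (hf : ∀ n, 0 < f n)
include hs hf

/-- the sign pattern of the regions at the first level, around the vertex `0` -/
lemma top0 : (DD f 2 → f 2 + f 3 - (1 + th) * f 0 < 0 ∧ 0 < f 3 + f 4 - (1 + th) * f 0 ∧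
      0 < f 4 + f 5 - (1 + th) * f 0 ∧ 0 < f 5 + f 6 - (1 + th) * f 0 ∧
      0 < f 6 + f 7 - (1 + th) * f 0) ∧
    (DD f 3 → f 3 + f 4 - (1 + th) * f 0 < 0 ∧ 0 < f 4 + f 5 - (1 + th) * f 0 ∧
      0 < f 5 + f 6 - (1 + th) * f 0 ∧ 0 < f 6 + f 7 - (1 + th) * f 0 ∧
      0 < f 7 + f 1 - (1 + th) * f 0) ∧
    (DD f 4 → f 4 + f 5 - (1 + th) * f 0 < 0 ∧ 0 < f 5 + f 6 - (1 + th) * f 0 ∧
      0 < f 6 + f 7 - (1 + th) * f 0 ∧ 0 < f 7 + f 1 - (1 + th) * f 0) ∧
    (DD f 5 → f 5 + f 6 - (1 + th) * f 0 < 0 ∧ 0 < f 6 + f 7 - (1 + th) * f 0 ∧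
      0 < f 7 + f 1 - (1 + th) * f 0) ∧
    (DD f 6 → f 6 + f 7 - (1 + th) * f 0 < 0 ∧ 0 < f 7 + f 1 - (1 + th) * f 0) := by
  have r1 := hs.early (n := 1) (by omega) (by omega)
  have r2 := hs.early (n := 2) (by omega) (by omega)
  have r3 := hs.early (n := 3) (by omega) (by omega)
  have r4 := hs.early (n := 4) (by omega) (by omega)
  have r5 := hs.early (n := 5) (by omega) (by omega)
  have r6 := (hs.zero th_cubic).1
  have r7 := (hs.zero th_cubic).2
  norm_num at r1 r2 r3 r4 r5
  have c1 := cc_small 1 (by omega)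
  have c2 := cc_small 2 (by omega)
  have c3 := cc_small 3 (by omega)
  have c4 := cc_small 4 (by omega)
  have c5 := cc_small 5 (by omega)
  have c6 := cc_small 6 (by omega)
  have p0 := hf 0
  have p1 := hf 1
  have p2 := hf 2
  have p3 := hf 3
  have p4 := hf 4
  have p5 := hf 5
  have p6 := hf 6
  have p7 := hf 7
  refine ⟨?_, ?_, ?_, ?_, ?_⟩
  · rintro ⟨-, h2, h3⟩
    unfold kap at h2
    unfold NR at h3
    rw [c2] at h2 h3
    norm_num at h2 h3
    have h3' : 0 < f 3 + f 4 - (1 + th) * f 0 := by linear_combination h3 - r2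
    obtain ⟨a1, a2, a3⟩ := fan (w1 := f 2) (w2 := f 3) (w3 := f 4) (w4 := f 5) (w5 := f 6)
      (w6 := f 7) (w7 := f 1) p0 p2 p3 p4 p1 (by linear_combination r2) (by linear_combination r3)
      (by linear_combination r4) (by linear_combination r1) (by linear_combination r7)
      (by linear_combination r6) (by linear_combination h2) h3'
    exact ⟨by linear_combination h2, h3', a1, a2, a3⟩
  · rintro ⟨-, h2, h3⟩
    unfold kap at h2
    unfold NR at h3
    rw [c3] at h2 h3
    norm_num at h2 h3
    have h3' : 0 < f 4 + f 5 - (1 + th) * f 0 := by linear_combination h3 - r3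
    obtain ⟨a1, a2, a3⟩ := fan (w1 := f 3) (w2 := f 4) (w3 := f 5) (w4 := f 6) (w5 := f 7)
      (w6 := f 1) (w7 := f 2) p0 p3 p4 p5 p2 (by linear_combination r3) (by linear_combination r4)
      (by linear_combination r5) (by linear_combination r2) (by linear_combination r1)
      (by linear_combination r7) (by linear_combination h2) h3'
    exact ⟨by linear_combination h2, h3', a1, a2, a3⟩
  · rintro ⟨-, h2, h3⟩
    unfold kap at h2
    unfold NR at h3
    rw [c4] at h2 h3
    norm_num at h2 h3
    have h3' : 0 < f 5 + f 6 - (1 + th) * f 0 := by linear_combination h3 - r4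
    obtain ⟨a1, a2, a3⟩ := fan (w1 := f 4) (w2 := f 5) (w3 := f 6) (w4 := f 7) (w5 := f 1)
      (w6 := f 2) (w7 := f 3) p0 p4 p5 p6 p3 (by linear_combination r4) (by linear_combination r5)
      (by linear_combination r6) (by linear_combination r3) (by linear_combination r2)
      (by linear_combination r1) (by linear_combination h2) h3'
    exact ⟨by linear_combination h2, h3', a1, a2⟩
  · rintro ⟨-, h2, h3⟩
    unfold kap at h2
    unfold NR at h3
    rw [c5] at h2 h3
    norm_num at h2 h3
    have h3' : 0 < f 6 + f 7 - (1 + th) * f 0 := by linear_combination h3 - r5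
    obtain ⟨a1, a2, a3⟩ := fan (w1 := f 5) (w2 := f 6) (w3 := f 7) (w4 := f 1) (w5 := f 2)
      (w6 := f 3) (w7 := f 4) p0 p5 p6 p7 p4 (by linear_combination r5) (by linear_combination r6)
      (by linear_combination r7) (by linear_combination r4) (by linear_combination r3)
      (by linear_combination r2) (by linear_combination h2) h3'
    exact ⟨by linear_combination h2, h3', a1⟩
  · rintro ⟨-, h2, h3⟩
    unfold kap at h2
    unfold NR at h3
    rw [c6] at h2 h3
    norm_num at h2 h3
    have h3' : 0 < f 7 + f 1 - (1 + th) * f 0 := by linear_combination h3 - r6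
    exact ⟨by linear_combination h2, h3'⟩

/-- the sign pattern of the regions at the first level, around the vertex `1` -/
lemma top1 : (DD f 7 → f 7 + f 8 - (1 + th) * f 1 < 0 ∧ 0 < f 8 + f 9 - (1 + th) * f 1 ∧
      0 < f 9 + f 10 - (1 + th) * f 1 ∧ 0 < f 10 + f 11 - (1 + th) * f 1 ∧
      0 < f 11 + f 2 - (1 + th) * f 1 ∧ 0 < f 2 + f 0 - (1 + th) * f 1) ∧
    (DD f 8 → f 8 + f 9 - (1 + th) * f 1 < 0 ∧
      0 < f 9 + f 10 - (1 + th) * f 1 ∧ 0 < f 10 + f 11 - (1 + th) * f 1 ∧
      0 < f 11 + f 2 - (1 + th) * f 1 ∧ 0 < f 2 + f 0 - (1 + th) * f 1) ∧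
    (DD f 9 → f 9 + f 10 - (1 + th) * f 1 < 0 ∧ 0 < f 10 + f 11 - (1 + th) * f 1 ∧
      0 < f 11 + f 2 - (1 + th) * f 1 ∧ 0 < f 2 + f 0 - (1 + th) * f 1) ∧
    (DD f 10 → f 10 + f 11 - (1 + th) * f 1 < 0 ∧
      0 < f 11 + f 2 - (1 + th) * f 1 ∧ 0 < f 2 + f 0 - (1 + th) * f 1) := by
  have q7 := (hs.zero th_cubic).2
  have q6 := (hs.zero th_cubic).1
  have q8 := hs.at_move 0
  have q9 := hs.at_stay (m := 0) (i := 0) (by rw [TT_zero]; norm_num [TT_one])
  have q10 := hs.at_stay (m := 0) (i := 1) (by rw [TT_zero]; norm_num [TT_one])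
  have q11 := hs.at_stay (m := 0) (i := 2) (by rw [TT_zero]; norm_num [TT_one])
  rw [TT_zero] at q8 q9 q10 q11
  norm_num at q8 q9 q10 q11
  have c := hs.close th_cubic 1
  rw [TT_one, cc_small 1 (by omega)] at c
  obtain ⟨q12, q13⟩ := c
  have q13 := q13 le_rfl
  norm_num at q12 q13
  have c6 : cc 6 = 0 := cc_small 6 (by omega)
  have c7 : cc 7 = 1 := by have := cc_TT 0; rw [TT_zero] at this; exact this
  have c8 : cc 8 = 1 := by
    have := cc_add_TT (m := 0) (i := 1) (by rw [TT_zero]; norm_num [TT_one])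
    rw [TT_zero] at this; exact this
  have c9 : cc 9 = 1 := by
    have := cc_add_TT (m := 0) (i := 2) (by rw [TT_zero]; norm_num [TT_one])
    rw [TT_zero] at this; exact this
  have c10 : cc 10 = 1 := by
    have := cc_add_TT (m := 0) (i := 3) (by rw [TT_zero]; norm_num [TT_one])
    rw [TT_zero] at this; exact this
  have p0 := hf 0
  have p1 := hf 1
  have p2 := hf 2
  have p7 := hf 7
  have p8 := hf 8
  have p9 := hf 9
  have p10 := hf 10
  have p11 := hf 11
  refine ⟨?_, ?_, ?_, ?_⟩
  · rintro ⟨h1, h2, h3⟩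
    unfold kap at h2
    unfold NR at h1 h3
    norm_num at h1
    rw [c7] at h2 h3
    rw [c6] at h1
    norm_num at h2 h3
    have h3' : 0 < f 8 + f 9 - (1 + th) * f 1 := by linear_combination h3 - q9
    obtain ⟨a1, a2, a3⟩ := fan (w1 := f 7) (w2 := f 8) (w3 := f 9) (w4 := f 10) (w5 := f 11)
      (w6 := f 2) (w7 := f 0) p1 p7 p8 p9 p0 (by linear_combination q9) (by linear_combination q10)
      (by linear_combination q11) (by linear_combination q8) (by linear_combination q7)
      (by linear_combination q13) (by linear_combination h2) h3'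
    exact ⟨by linear_combination h2, h3', a1, a2, a3, by linear_combination h1 + q6 - q7⟩
  · rintro ⟨-, h2, h3⟩
    unfold kap at h2
    unfold NR at h3
    rw [c8] at h2 h3
    norm_num at h2 h3
    have h3' : 0 < f 9 + f 10 - (1 + th) * f 1 := by linear_combination h3 - q10
    obtain ⟨a1, a2, a3⟩ := fan (w1 := f 8) (w2 := f 9) (w3 := f 10) (w4 := f 11) (w5 := f 2)
      (w6 := f 0) (w7 := f 7) p1 p8 p9 p10 p7 (by linear_combination q10)
      (by linear_combination q11)
      (by linear_combination q12) (by linear_combination q9) (by linear_combination q8)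
      (by linear_combination q7) (by linear_combination h2) h3'
    exact ⟨by linear_combination h2, h3', a1, a2, a3⟩
  · rintro ⟨-, h2, h3⟩
    unfold kap at h2
    unfold NR at h3
    rw [c9] at h2 h3
    norm_num at h2 h3
    have h3' : 0 < f 10 + f 11 - (1 + th) * f 1 := by linear_combination h3 - q11
    obtain ⟨a1, a2, a3⟩ := fan (w1 := f 9) (w2 := f 10) (w3 := f 11) (w4 := f 2) (w5 := f 0)
      (w6 := f 7) (w7 := f 8) p1 p9 p10 p11 p8 (by linear_combination q11)
      (by linear_combination q12)
      (by linear_combination q13) (by linear_combination q10) (by linear_combination q9)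
      (by linear_combination q8) (by linear_combination h2) h3'
    exact ⟨by linear_combination h2, h3', a1, a2⟩
  · rintro ⟨-, h2, h3⟩
    unfold kap at h2
    unfold NR at h3
    rw [c10] at h2 h3
    norm_num at h2 h3
    have h3' : 0 < f 11 + f 2 - (1 + th) * f 1 := by linear_combination h3 - q12
    obtain ⟨a1, a2, a3⟩ := fan (w1 := f 10) (w2 := f 11) (w3 := f 2) (w4 := f 0) (w5 := f 7)
      (w6 := f 8) (w7 := f 9) p1 p10 p11 p2 p9 (by linear_combination q12)
      (by linear_combination q13)
      (by linear_combination q7) (by linear_combination q11) (by linear_combination q10)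
      (by linear_combination q9) (by linear_combination h2) h3'
    exact ⟨by linear_combination h2, h3', a1⟩

/-- two different regions of the first level are disjoint -/
lemma top {a b : ℕ} (ha : 2 ≤ a) (hab : a < b) (hb : b ≤ 10) (h : DD f a) (h' : DD f b) :
    False := by
  obtain ⟨t2, t3, t4, t5, t6⟩ := top0 hs hf
  obtain ⟨t7, t8, t9, t10⟩ := top1 hs hf
  have q7 := (hs.zero th_cubic).2
  have r1 := hs.early (n := 1) (by omega) (by omega)
  have c := hs.close th_cubic 1
  rw [TT_one, cc_small 1 (by omega)] at c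
  have q13 := c.2 le_rfl
  norm_num at r1 q13
  -- `κ(E6) = - κ(G7)` and `κ(E5) = κ(G2)`
  have e1 : f 2 + f 0 - (1 + th) * f 1 = -(f 7 + f 1 - (1 + th) * f 0) := by
    linear_combination q7
  have e2 : f 11 + f 2 - (1 + th) * f 1 = f 2 + f 3 - (1 + th) * f 0 := by
    linear_combination q13 - r1
  interval_cases b <;> interval_cases a <;>
    first
    | (have h1 := t2 h; have h2 := t3 h'; linarith [h1.2.1, h2.1])
    | (have h1 := t2 h; have h2 := t4 h'; linarith [h1.2.2.1, h2.1])
    | (have h1 := t3 h; have h2 := t4 h'; linarith [h1.2.1, h2.1])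
    | (have h1 := t2 h; have h2 := t5 h'; linarith [h1.2.2.2.1, h2.1])
    | (have h1 := t3 h; have h2 := t5 h'; linarith [h1.2.2.1, h2.1])
    | (have h1 := t4 h; have h2 := t5 h'; linarith [h1.2.1, h2.1])
    | (have h1 := t2 h; have h2 := t6 h'; linarith [h1.2.2.2.2, h2.1])
    | (have h1 := t3 h; have h2 := t6 h'; linarith [h1.2.2.2.1, h2.1])
    | (have h1 := t4 h; have h2 := t6 h'; linarith [h1.2.2.1, h2.1])
    | (have h1 := t5 h; have h2 := t6 h'; linarith [h1.2.1, h2.1])
    | (have h1 := t2 h; have h2 := t7 h'; linarith [h1.1, h2.2.2.2.2.1])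
    | (have h1 := t3 h; have h2 := t7 h'; linarith [h1.2.2.2.2, h2.2.2.2.2.2])
    | (have h1 := t4 h; have h2 := t7 h'; linarith [h1.2.2.2, h2.2.2.2.2.2])
    | (have h1 := t5 h; have h2 := t7 h'; linarith [h1.2.2, h2.2.2.2.2.2])
    | (have h1 := t6 h; have h2 := t7 h'; linarith [h1.2, h2.2.2.2.2.2])
    | (have h1 := t2 h; have h2 := t8 h'; linarith [h1.1, h2.2.2.2.1])
    | (have h1 := t3 h; have h2 := t8 h'; linarith [h1.2.2.2.2, h2.2.2.2.2])
    | (have h1 := t4 h; have h2 := t8 h'; linarith [h1.2.2.2, h2.2.2.2.2])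
    | (have h1 := t5 h; have h2 := t8 h'; linarith [h1.2.2, h2.2.2.2.2])
    | (have h1 := t6 h; have h2 := t8 h'; linarith [h1.2, h2.2.2.2.2])
    | (have h1 := t7 h; have h2 := t8 h'; linarith [h1.2.1, h2.1])
    | (have h1 := t2 h; have h2 := t9 h'; linarith [h1.1, h2.2.2.1])
    | (have h1 := t3 h; have h2 := t9 h'; linarith [h1.2.2.2.2, h2.2.2.2])
    | (have h1 := t4 h; have h2 := t9 h'; linarith [h1.2.2.2, h2.2.2.2])
    | (have h1 := t5 h; have h2 := t9 h'; linarith [h1.2.2, h2.2.2.2])
    | (have h1 := t6 h; have h2 := t9 h'; linarith [h1.2, h2.2.2.2])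
    | (have h1 := t7 h; have h2 := t9 h'; linarith [h1.2.2.1, h2.1])
    | (have h1 := t8 h; have h2 := t9 h'; linarith [h1.2.1, h2.1])
    | (have h1 := t2 h; have h2 := t10 h'; linarith [h1.1, h2.2.1])
    | (have h1 := t3 h; have h2 := t10 h'; linarith [h1.2.2.2.2, h2.2.2])
    | (have h1 := t4 h; have h2 := t10 h'; linarith [h1.2.2.2, h2.2.2])
    | (have h1 := t5 h; have h2 := t10 h'; linarith [h1.2.2, h2.2.2])
    | (have h1 := t6 h; have h2 := t10 h'; linarith [h1.2, h2.2.2])
    | (have h1 := t7 h; have h2 := t10 h'; linarith [h1.2.2.2.1, h2.1])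
    | (have h1 := t8 h; have h2 := t10 h'; linarith [h1.2.2.1, h2.1])
    | (have h1 := t9 h; have h2 := t10 h'; linarith [h1.2.1, h2.1])

/-- the regions of the descendants are nested -/
lemma chain : ∀ b : ℕ, ∀ a : ℕ, 2 ≤ a → a < b → DD f a → DD f b →
    ∃ c, c ≤ b ∧ cc c = a ∧ DD f c := by
  intro b
  induction b using Nat.strong_induction_on with
  | _ b ih =>
    intro a ha hab h h'
    rcases Nat.lt_or_ge 10 b with hb | hb
    · have hm : 2 ≤ cc b := by
        rw [le_cc_iff (by omega)]
        have : TT (2 - 1) = 11 := TT_one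
        omega
      have hlt := cc_lt b (by omega)
      have hmD : DD f (cc b) := by
        have := nest hs hf (k := cc b - 1) (n := b) (by omega) (by omega) h'
        rwa [Nat.sub_add_cancel (by omega)] at this
      rcases lt_trichotomy (cc b) a with h1 | h1 | h1
      · obtain ⟨c, hc1, hc2, hc3⟩ := ih a hab (cc b) hm h1 hmD h
        have e : cc a = cc b := by
          apply le_antisymm (cc_mono hab.le)
          rw [← hc2]; exact cc_mono hc1
        exact (siblings hs hf (k := cc b - 1) (by omega) (by omega) (by omega) hab h h').elim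
      · exact ⟨b, le_rfl, h1, h'⟩
      · obtain ⟨c, hc1, hc2, hc3⟩ := ih (cc b) hlt a ha h1 h hmD
        exact ⟨c, by omega, hc2, hc3⟩
    · exact (top hs hf ha hab hb h h').elim

end

/-! ### The functional given by a vertex -/

lemma vv_zero (θ : ℝ) : vv θ 0 = ![1, 0, 0] := by
  funext j; fin_cases j <;> simp [vv, sp]

lemma vv_one (θ : ℝ) : vv θ 1 = ![0, 1, 0] := by
  funext j; fin_cases j <;> simp [vv, sp]

lemma vv_two (θ : ℝ) : vv θ 2 = ![0, 0, 1] := by
  funext j; fin_cases j <;> simp [vv, sp]

lemma be_self (n : ℕ) : be th (vv th n) (vv th n) = 2 - th := by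
  rcases Nat.eq_zero_or_pos n with h | h
  · subst h
    rw [vv_zero]; simp [be]; ring
  · exact (tri_vv th_cubic n h).yy

lemma T4 {n : ℕ} (hn : 1 ≤ n) : ¬ DD (fun m => be th (vv th m) (vv th (cc n))) n := by
  rintro ⟨-, h, -⟩
  have t := tri_vv th_cubic n hn
  have h1 := t.xx
  have h2 := t.xy
  have h3 := t.xz
  unfold kap at h
  rw [be_comm] at h2 h3
  simp only [h1, h2, h3] at h
  have := nu_pos
  nlinarith

lemma T5 {n : ℕ} (hn : 2 ≤ n) : DD (fun m => be th (vv th m) (vv th n)) n := by
  have t := tri_vv th_cubic n (by omega)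
  have t' := tri_vv th_cubic (n - 1) (by omega)
  rw [Nat.sub_add_cancel (by omega)] at t'
  have h1 := t.xy
  have h2 := t.yy
  have h3 := t.yz
  rw [be_comm] at h3
  have h4 := t'.yz
  have h5 := t'.xz
  have := nu_pos
  refine ⟨?_, ?_, ?_⟩
  · unfold NR
    rw [Nat.sub_add_cancel (by omega)]
    simp only [h2, h4, h5]
    nlinarith
  · unfold kap
    simp only [h1, h2, h3]
    nlinarith
  · unfold NR
    simp only [h1, h2, h3]
    nlinarith

lemma base_rel : be th (vv th 7) (vv th 0) = th ∧ be th (vv th 7) (vv th 1) = th ∧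
    be th (vv th 1) (vv th 0) = th ∧ be th (vv th 2) (vv th 0) = th ∧
    be th (vv th 2) (vv th 1) = th := by
  have c6 : cc 6 = 0 := cc_small 6 (by omega)
  have c7 : cc 7 = 1 := by have := cc_TT 0; rw [TT_zero] at this; exact this
  have t := tri_vv th_cubic 6 (by omega)
  have h1 := t.xz
  rw [c6, be_comm] at h1
  have h2 := closing th_cubic (n := 6) (by omega) (by rw [c7, c6])
  rw [c6, be_comm] at h2
  refine ⟨h1, h2, ?_, ?_, ?_⟩
  · rw [vv_zero, vv_one]; simp [be]
  · rw [vv_zero, vv_two]; simp [be]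
  · rw [vv_two, vv_one]; simp [be]

/-- the vertex `0` or `1` lies in no region -/
lemma low {j : ℕ} (hj : j ≤ 1) (hf : ∀ n, 0 < be th (vv th n) (vv th j)) :
    ∀ b : ℕ, 2 ≤ b → ¬ DD (fun m => be th (vv th m) (vv th j)) b := by
  have hs := isSp_be th (vv th j)
  intro b
  induction b using Nat.strong_induction_on with
  | _ b ih =>
    intro hb h
    obtain ⟨b70, b71, b10, b20, b21⟩ := base_rel
    have hnu := nu_pos
    have q7 := (hs.zero th_cubic).2
    by_cases hm : 2 ≤ cc b
    · have hlt := cc_lt b (by omega)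
      have hmD : DD (fun m => be th (vv th m) (vv th j)) (cc b) := by
        have := nest hs hf (k := cc b - 1) (n := b) (by omega) (by omega) h
        rwa [Nat.sub_add_cancel (by omega)] at this
      exact ih (cc b) hlt hm hmD
    · have hle : b ≤ 10 := by
        by_contra hcon
        apply hm
        rw [le_cc_iff (by omega)]
        have : TT (2 - 1) = 11 := TT_one
        omega
      have e0 := be_self 0
      have e1 := be_self 1
      have b01 : be th (vv th 0) (vv th 1) = th := by rw [be_comm]; exact b10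
      by_cases hcj : cc b = j
      · have := T4 (n := b) (by omega)
        rw [hcj] at this
        exact this h
      · obtain ⟨t2, t3, t4, t5, t6⟩ := top0 hs hf
        obtain ⟨t7, t8, t9, t10⟩ := top1 hs hf
        rcases (show j = 0 ∨ j = 1 by omega) with rfl | rfl
        · -- the parent is `1`
          have hb7 : 7 ≤ b := by
            by_contra hcon
            exact hcj (cc_small b (by omega))
          have key : 0 < be th (vv th 2) (vv th 0) + be th (vv th 0) (vv th 0) -
              (1 + th) * be th (vv th 1) (vv th 0) := by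
            interval_cases b
            · exact (t7 h).2.2.2.2.2
            · exact (t8 h).2.2.2.2
            · exact (t9 h).2.2.2
            · exact (t10 h).2.2
          rw [b20, e0, b10] at key
          nlinarith
        · -- the parent is `0`
          have hb6 : b ≤ 6 := by
            by_contra hcon
            apply hcj
            apply le_antisymm (by omega)
            rw [le_cc_iff (by omega)]
            have : TT (1 - 1) = 7 := TT_zero
            omega
          rcases (show b = 2 ∨ 3 ≤ b by omega) with rfl | hb3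
          · have := h.1
            unfold NR at this
            have c1 := cc_small 1 (by omega)
            norm_num at this
            rw [c1, b21, e1, b01] at this
            nlinarith
          · have key : 0 < be th (vv th 7) (vv th 1) + be th (vv th 1) (vv th 1) -
              (1 + th) * be th (vv th 0) (vv th 1) := by
              interval_cases b
              · exact (t3 h).2.2.2.2
              · exact (t4 h).2.2.2
              · exact (t5 h).2.2
              · exact (t6 h).2
            rw [b71, e1, b01] at key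
            nlinarith

/-- the vertices of the spiral are distinct -/
theorem vv_injective (hf : ∀ m n, 0 < be th (vv th n) (vv th m)) {a b : ℕ} (hab : a < b) :
    vv th a ≠ vv th b := by
  intro h
  rcases (show a ≤ 1 ∨ 2 ≤ a by omega) with ha | ha
  · rcases (show b ≤ 1 ∨ 2 ≤ b by omega) with hb | hb
    · obtain rfl : a = 0 := by omega
      obtain rfl : b = 1 := by omega
      rw [vv_zero, vv_one] at h
      have := congrFun h 0
      simp at this
    · have h1 := low ha (hf a) b hb
      rw [h] at h1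
      exact h1 (T5 hb)
  · have h1 := T5 ha
    have h2 := T5 (show 2 ≤ b by omega)
    rw [← h] at h2
    obtain ⟨c, -, hc2, hc3⟩ := chain (isSp_be th (vv th a)) (hf a) b a ha hab h1 h2
    have h3 : 1 ≤ c := by
      rcases Nat.eq_zero_or_pos c with h0 | h0
      · subst h0
        rw [cc_zero] at hc2
        omega
      · exact h0
    have := T4 h3
    rw [hc2] at this
    exact this hc3

end Pool.Agent.Lib.MP_0702e0_co
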