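import Pool.Agent.Lib.MP_0702e0_co.PingPong

/-!
The layers of the tiling around a root vertex.
-/

set_option autoImplicit false

namespace Pool.Agent.Lib.MP_0702e0_co

open Matrix UpperHalfPlane

/-- The descendants of a node after `n` generations. -/
noncomputable def D : ℕ → Node → List Node
  | 0, nd => [nd]
  | n + 1, nd => (ch nd).flatMap (D n)

theorem D_succ' (n : ℕ) (nd : Node) : D (n + 1) nd = (D n nd).flatMap ch := by
  induction n generalizing nd with
  | zero =>
    simp only [D, List.flatMap_cons, List.flatMap_nil, List.append_nil]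
    exact List.flatMap_singleton' (ch nd)
  | succ n ih =>
    rw [D, D, List.flatMap_assoc]
    exact congrArg (fun f => (ch nd).flatMap f) (funext fun y => ih y)

/-- The point of a node. -/
noncomputable def P (nd : Node) : ℍ := pt (vt nd)

theorem GoodN.isVert {nd : Node} (h : GoodN nd) : IsVert (vt nd) := h.2.isVert

theorem D_good (n : ℕ) : ∀ nd, GoodN nd → ∀ y ∈ D n nd, GoodN y ∧ Reg nd (vt y) := by
  induction n with
  | zero =>
    intro nd h y hy
    simp only [D, List.mem_singleton] at hy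
    subst hy
    exact ⟨h, reg_self h⟩
  | succ n ih =>
    intro nd h y hy
    simp only [D, List.mem_flatMap] at hy
    obtain ⟨z, hz, hy⟩ := hy
    obtain ⟨h1, h2⟩ := ih z (goodN_ch h z hz) y hy
    exact ⟨h1, reg_ch h hz h1.isVert h2⟩

theorem P_inj {a b : Node} (ha : GoodN a) (hb : GoodN b) (h : P a = P b) : vt a = vt b :=
  pt_inj ha.isVert hb.isVert h

theorem D_sib {nd y z : Node} (h : GoodN nd) (n m : ℕ) (hy : y ∈ ch nd) (hz : z ∈ ch nd)
    (hyz : ∀ x, IsVert x → Reg y x → Reg z x → False) {a b : Node} (ha : a ∈ D n y)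
    (hb : b ∈ D m z) : P a ≠ P b := by
  intro hab
  obtain ⟨a1, a2⟩ := D_good n y (goodN_ch h y hy) a ha
  obtain ⟨b1, b2⟩ := D_good m z (goodN_ch h z hz) b hb
  have e := P_inj a1 b1 hab
  rw [e] at a2
  exact hyz _ b1.isVert a2 b2

theorem D_nodup (n : ℕ) : ∀ nd, GoodN nd → ((D n nd).map P).Nodup := by
  induction n with
  | zero => intro nd _; simp [D]
  | succ n ih =>
    intro nd h
    rw [D, List.map_flatMap, List.nodup_flatMap]
    refine ⟨fun y hy => ih y (goodN_ch h y hy), ?_⟩
    refine (reg_disj h).imp_of_mem ?_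
    intro y z hy hz hyz
    rw [Function.onFun, List.disjoint_left]
    intro p hp hp'
    rw [List.mem_map] at hp hp'
    obtain ⟨a, ha, rfl⟩ := hp
    obtain ⟨b, hb, hab⟩ := hp'
    exact D_sib h n n hy hz hyz ha hb hab.symm

theorem D_cross (n : ℕ) : ∀ m nd, GoodN nd → n ≠ m → ∀ a ∈ D n nd, ∀ b ∈ D m nd, P a ≠ P b := by
  induction n with
  | zero =>
    intro m nd h hm a ha b hb hab
    obtain ⟨m, rfl⟩ : ∃ k, m = k + 1 := ⟨m - 1, by omega⟩
    simp only [D, List.mem_singleton, List.mem_flatMap] at ha hb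
    subst ha
    obtain ⟨y, hy, hb⟩ := hb
    obtain ⟨b1, b2⟩ := D_good m y (goodN_ch h y hy) b hb
    have e := P_inj h b1 hab
    rw [← e] at b2
    exact not_reg_parent h hy b2
  | succ n ih =>
    intro m nd h hm a ha b hb hab
    cases m with
    | zero =>
      simp only [D, List.mem_singleton, List.mem_flatMap] at ha hb
      subst hb
      obtain ⟨y, hy, ha⟩ := ha
      obtain ⟨b1, b2⟩ := D_good n y (goodN_ch h y hy) a ha
      have e := P_inj b1 h hab
      rw [e] at b2
      exact not_reg_parent h hy b2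
    | succ m =>
      simp only [D, List.mem_flatMap] at ha hb
      obtain ⟨y, hy, ha⟩ := ha
      obtain ⟨z, hz, hb⟩ := hb
      by_cases hyz : y = z
      · subst hyz
        exact ih m y (goodN_ch h y hy) (by omega) a ha b hb hab
      · have hs : ∀ ⦃a⦄, a ∈ ch nd → ∀ ⦃b⦄, b ∈ ch nd → a ≠ b →
            (∀ x, IsVert x → Reg a x → Reg b x → False) := by
          have : Std.Symm (fun y z : Node => ∀ x, IsVert x → Reg y x → Reg z x → False) :=
            ⟨fun a b hab x hx h1 h2 => hab x hx h2 h1⟩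
          exact (reg_disj h).forall
        exact D_sib h n m hy hz (hs hy hz hyz) ha hb hab

/-! ### Cyclic order of a layer -/

/-- The step along the layer. -/
noncomputable def NT : Ty → M
  | Ty.O => 1
  | Ty.A => NA
  | Ty.B => NB

/-- `b` is the next node after `a` in the cyclic order of the layer. -/
def Nx (a b : Node) : Prop := a.1 ≠ Ty.O ∧ b.1 ≠ Ty.O ∧ b.2 = a.2 * NT a.1

theorem mv_next (i : ℕ) : mv (i + 1) * NA = mv i := next_root i

theorem ch_chain (nd : Node) : (ch nd).IsChain Nx := by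
  obtain ⟨t, g⟩ := nd
  cases t
  · simp only [ch, List.isChain_cons_cons, List.isChain_singleton, and_true]
    refine ⟨?_, ?_, ?_, ?_, ?_, ?_⟩ <;>
      exact ⟨by simp, by simp, by simp only [NT, mul_assoc]; rw [mv_next]⟩
  · simp only [ch, List.isChain_cons_cons, List.isChain_singleton, and_true]
    refine ⟨?_, ?_⟩ <;>
      exact ⟨by simp, by simp, by simp only [NT, mul_assoc]; rw [mv_next]⟩
  · simp only [ch, List.isChain_cons_cons, List.isChain_singleton, and_true]
    exact ⟨by simp, by simp, by simp only [NT, mul_assoc]; rw [mv_next]⟩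

theorem mv2_NB : mv 2 * NB = NA * mv 4 := next3
theorem mv3_NB : mv 3 * NB = NB * mv 4 := next4

theorem ch_cross {a b : Node} (h : Nx a b) : ∀ x ∈ (ch a).getLast?, ∀ y ∈ (ch b).head?, Nx x y := by
  obtain ⟨h1, h2, h3⟩ := h
  obtain ⟨t, g⟩ := a
  obtain ⟨t', g'⟩ := b
  simp only at h1 h2 h3
  subst h3
  intro x hx y hy
  have hy' : y = (Ty.A, g * NT t * mv 4) := by
    cases t'
    · exact absurd rfl h2
    · simp only [ch, List.head?_cons, Option.mem_def, Option.some.injEq] at hy
      exact hy.symm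
    · simp only [ch, List.head?_cons, Option.mem_def, Option.some.injEq] at hy
      exact hy.symm
  subst hy'
  cases t
  · exact absurd rfl h1
  · simp only [ch, List.getLast?_cons_cons, List.getLast?_singleton, Option.mem_def,
      Option.some.injEq] at hx
    subst hx
    refine ⟨by simp, by simp, ?_⟩
    simp only [NT, mul_assoc]
    rw [mv2_NB]
  · simp only [ch, List.getLast?_cons_cons, List.getLast?_singleton, Option.mem_def,
      Option.some.injEq] at hx
    subst hx
    refine ⟨by simp, by simp, ?_⟩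
    simp only [NT, mul_assoc]
    rw [mv3_NB]

theorem ch_ne_nil (nd : Node) : ch nd ≠ [] := by
  obtain ⟨t, g⟩ := nd
  cases t <;> simp [ch]

theorem chain_flatMap : ∀ l : List Node, l.IsChain Nx → (l.flatMap ch).IsChain Nx
  | [], _ => by simp
  | [a], _ => by simpa using ch_chain a
  | a :: b :: l, h => by
    rw [List.isChain_cons_cons] at h
    have ih := chain_flatMap (b :: l) h.2
    rw [List.flatMap_cons, List.isChain_append]
    refine ⟨ch_chain a, ih, ?_⟩
    intro x hx y hy
    refine ch_cross h.1 x hx y ?_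
    rw [List.flatMap_cons] at hy
    obtain ⟨z, r, hz⟩ := List.exists_cons_of_ne_nil (ch_ne_nil b)
    rw [hz] at hy ⊢
    simpa using hy

/-- Cyclic chains. -/
def CC (l : List Node) : Prop := ∃ hd tl, l = hd :: tl ∧ (l ++ [hd]).IsChain Nx

theorem CC_flatMap {l : List Node} (h : CC l) : CC (l.flatMap ch) := by
  obtain ⟨hd, tl, rfl, hc⟩ := h
  obtain ⟨z, r, hz⟩ := List.exists_cons_of_ne_nil (ch_ne_nil hd)
  refine ⟨z, r ++ tl.flatMap ch, ?_, ?_⟩
  · rw [List.flatMap_cons, hz]; rfl
  · have h1 := chain_flatMap _ hc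
    rw [List.flatMap_append] at h1
    have e : (hd :: tl).flatMap ch ++ [hd].flatMap ch = ((hd :: tl).flatMap ch ++ [z]) ++ r := by
      simp [hz]
    rw [e] at h1
    exact h1.left_of_append

noncomputable def L (k : ℕ) : List Node := D k (Ty.O, 1)

theorem L_succ (k : ℕ) : L (k + 1) = (L k).flatMap ch := D_succ' k _

theorem L_zero : L 0 = [(Ty.O, 1)] := rfl

theorem L_one : L 1 = [(Ty.A, mv 6), (Ty.A, mv 5), (Ty.A, mv 4), (Ty.A, mv 3),
      (Ty.A, mv 2), (Ty.A, mv 1), (Ty.A, mv 0)] := by
  rw [L_succ, L_zero]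
  simp [ch]

theorem CC_one : CC (L 1) := by
  refine ⟨_, _, L_one, ?_⟩
  rw [L_one]
  simp only [List.cons_append, List.nil_append, List.isChain_cons_cons, List.isChain_singleton,
    and_true]
  refine ⟨?_, ?_, ?_, ?_, ?_, ?_, ?_⟩
  rotate_right
  · refine ⟨by simp, by simp, ?_⟩
    have h := mv_next 6
    rw [show 6 + 1 = 0 + 7 from rfl, mv_add_seven] at h
    simpa only [NT] using h.symm
  all_goals
    exact ⟨by simp, by simp, by simp only [NT]; rw [mv_next]⟩

theorem CC_L (k : ℕ) : CC (L (k + 1)) := by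
  induction k with
  | zero => exact CC_one
  | succ k ih => rw [L_succ]; exact CC_flatMap ih

theorem L_good (k : ℕ) : ∀ y ∈ L k, GoodN y := fun y hy => (D_good k _ goodN_root y hy).1

theorem L_nodup (k : ℕ) : ((L k).map P).Nodup := D_nodup k _ goodN_root

theorem L_cross {k j : ℕ} (h : k ≠ j) : ∀ a ∈ L k, ∀ b ∈ L j, P a ≠ P b :=
  D_cross k j _ goodN_root h

end Pool.Agent.Lib.MP_0702e0_co
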