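import Pool.Agent.Lib.MP_0702e0_co.Hyp
import Pool.Agent.Lib.MP_0702e0_co.Defs

/-!
# The count (MP_0702e0_co)
-/

namespace Pool.Agent.Lib.MP_0702e0_co

open UpperHalfPlane

/-- earlier neighbours -/
def nb (k : ℕ) : Finset ℕ := if k = 0 then ∅ else {k - 1, cc (k - 1), cc k}

lemma cc_le_sub_two : ∀ n, 2 ≤ n → cc n ≤ n - 2 := by
  intro n hn
  induction n, hn using Nat.le_induction with
  | base => rw [cc_small 2 (by omega)]
  | succ n hn ih => have := (cc_mono_succ n).2; omega

lemma nb_lt {k i : ℕ} (h : i ∈ nb k) : i < k := by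
  unfold nb at h
  split_ifs at h with h0
  · simp at h
  · have h1 := cc_lt k (by omega)
    have h2 := cc_le (k - 1)
    simp only [Finset.mem_insert, Finset.mem_singleton] at h
    omega

lemma nb_adj {k i : ℕ} (h : i ∈ nb k) : be th (vv th i) (vv th k) = th := by
  unfold nb at h
  split_ifs at h with h0
  · simp at h
  · simp only [Finset.mem_insert, Finset.mem_singleton] at h
    rcases Nat.eq_zero_or_pos (k - 1) with h1 | h1
    · obtain rfl : k = 1 := by omega
      rw [cc_small 1 (by omega), cc_small (1 - 1) (by omega)] at h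
      obtain rfl : i = 0 := by omega
      rw [be_comm]; exact base_rel.2.2.1
    · have t := tri_vv th_cubic (k - 1) h1
      have t' := tri_vv th_cubic k (by omega)
      rw [Nat.sub_add_cancel (by omega)] at t
      rcases h with rfl | rfl | rfl
      · exact t.yz
      · exact t.xz
      · exact t'.xy

lemma nb_card {k : ℕ} (hk : 2 ≤ k) : (nb k).card + cc (k - 1) = 2 + cc k := by
  unfold nb
  rw [if_neg (by omega)]
  have h1 := cc_le_sub_two k hk
  have h2 := cc_lt (k - 1) (by omega)
  have h3 := cc_mono_succ (k - 1)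
  rw [Nat.sub_add_cancel (by omega)] at h3
  rcases (show cc k = cc (k - 1) ∨ cc k = cc (k - 1) + 1 by omega) with h | h
  · rw [h, Finset.pair_eq_singleton, Finset.card_pair (by omega)]
  · rw [Finset.card_insert_of_notMem, Finset.card_pair (by omega)]
    · omega
    · simp only [Finset.mem_insert, Finset.mem_singleton]
      omega

lemma nb_sum {N : ℕ} (hN : 2 ≤ N) :
    ∑ k ∈ Finset.range N, (nb k).card + 3 = 2 * N + cc (N - 1) := by
  induction N, hN using Nat.le_induction with
  | base =>
    rw [Finset.sum_range_succ, Finset.sum_range_one]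
    have : nb 1 = {0} := by
      unfold nb
      rw [if_neg (by omega), cc_small 1 (by omega), cc_small (1 - 1) (by omega)]
      rfl
    rw [this, cc_small (2 - 1) (by omega)]
    simp [nb]
  | succ N hN ih =>
    rw [Finset.sum_range_succ]
    have := nb_card hN
    rw [Nat.add_sub_cancel]
    omega

/-- the first `N` vertices of the spiral have many touching pairs -/
theorem touching_spiral {d : ℝ} (hd : 0 < d) (h : Real.cosh d = th / (2 - th)) {N : ℕ}
    (hN : 2 ≤ N) : 2 * N + cc (N - 1) ≤ touching d ((Finset.range N).map ⟨zz, zz_injective⟩) + 3 := by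
  classical
  rw [← nb_sum hN, ← Finset.card_sigma]
  apply Nat.add_le_add_right
  unfold touching
  apply Finset.card_le_card_of_injOn (fun x : Σ _ : ℕ, ℕ => ({zz x.2, zz x.1} : Finset ℍ))
  · rintro ⟨k, i⟩ hx
    simp only [Finset.coe_sigma, Set.mem_sigma_iff, Finset.mem_coe, Finset.mem_range] at hx
    have hlt := nb_lt hx.2
    have hne : zz i ≠ zz k := fun h => by have := zz_injective h; omega
    have hdist : dist (zz i) (zz k) = d := dist_zz_eq hd h (nb_adj hx.2)
    simp only [Finset.coe_filter, Finset.mem_powersetCard, Set.mem_ofPred_eq]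
    refine ⟨⟨?_, Finset.card_pair hne⟩, ?_⟩
    · intro y hy
      simp only [Finset.mem_insert, Finset.mem_singleton] at hy
      simp only [Finset.mem_map, Finset.mem_range, Function.Embedding.coeFn_mk]
      rcases hy with rfl | rfl
      · exact ⟨i, by omega, rfl⟩
      · exact ⟨k, hx.1, rfl⟩
    · intro x hx' y hy hxy
      simp only [Finset.mem_insert, Finset.mem_singleton] at hx' hy
      rcases hx' with rfl | rfl <;> rcases hy with rfl | rfl
      · exact absurd rfl hxy
      · exact hdist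
      · rw [dist_comm]; exact hdist
      · exact absurd rfl hxy
  · rintro ⟨k, i⟩ hx ⟨k', i'⟩ hx' he
    simp only [Finset.coe_sigma, Set.mem_sigma_iff, Finset.mem_coe, Finset.mem_range] at hx hx'
    have hlt := nb_lt hx.2
    have hlt' := nb_lt hx'.2
    simp only at he
    have e1 : zz i ∈ ({zz i', zz k'} : Finset ℍ) := by rw [← he]; simp
    have e2 : zz k ∈ ({zz i', zz k'} : Finset ℍ) := by rw [← he]; simp
    simp only [Finset.mem_insert, Finset.mem_singleton] at e1 e2
    have f1 : i = i' ∨ i = k' := e1.imp (fun h => zz_injective h) (fun h => zz_injective h)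
    have f2 : k = i' ∨ k = k' := e2.imp (fun h => zz_injective h) (fun h => zz_injective h)
    have g1 : k = k' := by omega
    have g2 : i = i' := by omega
    subst g1 g2
    rfl

lemma touching_le (d : ℝ) (P : Finset ℍ) : touching d P ≤ P.card.choose 2 := by
  classical
  unfold touching
  refine (Finset.card_filter_le _ _).trans ?_
  rw [Finset.card_powersetCard]

lemma le_contactNumber {d : ℝ} {P : Finset ℍ} (h : IsPacking d P) :
    touching d P ≤ contactNumber d P.card := by
  unfold contactNumber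
  apply le_csSup
  · refine ⟨P.card.choose 2, ?_⟩
    rintro k ⟨Q, hQ, -, rfl⟩
    rw [← hQ]
    exact touching_le d Q
  · exact ⟨P, rfl, h, rfl⟩

lemma isPacking_spiral {d : ℝ} (hd : 0 < d) (h : Real.cosh d = th / (2 - th)) (N : ℕ) :
    IsPacking d ((Finset.range N).map ⟨zz, zz_injective⟩) := by
  intro x hx y hy hxy
  simp only [Finset.mem_map, Finset.mem_range, Function.Embedding.coeFn_mk] at hx hy
  obtain ⟨m, -, rfl⟩ := hx
  obtain ⟨n, -, rfl⟩ := hy
  exact dist_zz_ge hd h (fun h => hxy (by rw [h]))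

lemma spiral_bound {d : ℝ} (hd : 0 < d) (h : Real.cosh d = th / (2 - th)) {N : ℕ}
    (hN : 2 ≤ N) : 2 * N + cc (N - 1) ≤ contactNumber d N + 3 := by
  have h1 := touching_spiral hd h hN
  have h2 := le_contactNumber (isPacking_spiral hd h N)
  rw [Finset.card_map, Finset.card_range] at h2
  omega

/-! ### the floor formula -/

/-- the quantity under the square root -/
noncomputable def rt (n : ℕ) : ℝ := Real.sqrt (5 / 4 * (n : ℝ) ^ 2 + 15 * n - 4)

lemma rt_nonneg (n : ℕ) : 0 ≤ rt n := Real.sqrt_nonneg _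

lemma rt_sq {n : ℕ} (hn : 1 ≤ n) : rt n ^ 2 = 5 / 4 * (n : ℝ) ^ 2 + 15 * n - 4 := by
  have : (1 : ℝ) ≤ n := by exact_mod_cast hn
  exact Real.sq_sqrt (by nlinarith)

lemma floor_key : ∀ n : ℕ, 2 ≤ n → ∀ k : ℕ, 1 ≤ k → (k : ℝ) ≤ 3 / 2 * n + 3 - rt n →
    k ≤ cc (n - 1) := by
  intro n
  induction n using Nat.strong_induction_on with
  | _ n ih =>
    intro hn k hk hkn
    have hn' : (2 : ℝ) ≤ n := by exact_mod_cast hn
    have hk' : (1 : ℝ) ≤ k := by exact_mod_cast hk
    have r0 := rt_nonneg n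
    have r1 := rt_sq (n := n) (by omega)
    -- the quadratic inequality
    have hQ : (0 : ℝ) ≤ n ^ 2 - 3 * n * k + k ^ 2 - 6 * n - 6 * k + 13 := by
      nlinarith
    have hkn' : (k : ℝ) < n := by
      -- `a(n) < n`
      by_contra hcon
      push Not at hcon
      nlinarith
    have hklt : k < n := by exact_mod_cast hkn'
    rw [le_cc_iff hk]
    rcases (show k = 1 ∨ 2 ≤ k by omega) with rfl | hk2
    · have h8 : 7 < n := by
        by_contra hcon
        push Not at hcon
        have : (n : ℝ) ≤ 7 := by exact_mod_cast hcon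
        push_cast at hQ
        nlinarith
      have : TT (1 - 1) = 7 := TT_zero
      omega
    · have hT : TT (k - 1) = 3 * k + 5 - cc (k - 1) := by
        unfold TT; rw [if_neg (by omega)]; omega
      have hcl := cc_le (k - 1)
      by_contra hcon
      push Not at hcon
      -- the induction hypothesis at `k`
      have hIH : 3 / 2 * (k : ℝ) + 3 - rt k < (cc (k - 1) : ℝ) + 1 := by
        by_contra hcon2
        push Not at hcon2
        have := ih k hklt hk2 (cc (k - 1) + 1) (by omega) (by push_cast; linarith)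
        omega
      have s0 := rt_nonneg k
      have s1 := rt_sq (n := k) (by omega)
      have hn2 : (n : ℝ) + cc (k - 1) ≤ 3 * k + 5 := by
        have : n + cc (k - 1) ≤ 3 * k + 5 := by omega
        exact_mod_cast this
      -- `n < 3k/2 + 3 + rt k`
      have u1 : (n : ℝ) - 3 / 2 * k - 3 < rt k := by linarith
      have u2 : (n : ℝ) - 3 / 2 * k - 3 ≤ -rt k := by
        by_contra hcon3
        push Not at hcon3
        have : ((n : ℝ) - 3 / 2 * k - 3) ^ 2 < rt k ^ 2 := sq_lt_sq' hcon3 u1
        nlinarith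
      -- `n ≤ a(k) < k`
      have hk2' : (2 : ℝ) ≤ k := by exact_mod_cast hk2
      have u3 : (k : ℝ) / 2 + 3 < rt k := by
        by_contra hcon4
        push Not at hcon4
        nlinarith
      linarith

/-- the lower bound -/
theorem lower_bound {d : ℝ} (hd : 0 < d) (h : Real.cosh d = th / (2 - th)) {n : ℕ}
    (hn : 1 ≤ n) :
    ⌊7 / 2 * (n : ℝ) - Real.sqrt (5 / 4 * (n : ℝ) ^ 2 + 15 * n - 4)⌋ ≤ (contactNumber d n : ℤ) := by
  change ⌊7 / 2 * (n : ℝ) - rt n⌋ ≤ _
  rcases (show n = 1 ∨ 2 ≤ n by omega) with rfl | hn2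
  · have h1 := rt_nonneg 1
    have h2 := rt_sq (n := 1) le_rfl
    have h3 : (7 : ℝ) / 2 ≤ rt 1 := by
      push_cast at h2
      nlinarith
    have h4 : ⌊7 / 2 * ((1 : ℕ) : ℝ) - rt 1⌋ ≤ 0 := by
      have : ⌊7 / 2 * ((1 : ℕ) : ℝ) - rt 1⌋ < 1 := by
        rw [Int.floor_lt]; push_cast; linarith
      omega
    exact h4.trans (by positivity)
  · have hb := spiral_bound hd h hn2
    by_contra hcon
    push Not at hcon
    set F := ⌊7 / 2 * (n : ℝ) - rt n⌋ with hF
    have h1 : (F : ℝ) ≤ 7 / 2 * n - rt n := Int.floor_le _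
    -- `k = F - (2 n - 3)`
    obtain ⟨k, hk⟩ : ∃ k : ℕ, (k : ℤ) = F - (2 * n - 3) := by
      refine ⟨(F - (2 * n - 3)).toNat, Int.toNat_of_nonneg ?_⟩
      omega
    have hk' : (k : ℝ) = F - (2 * n - 3) := by exact_mod_cast hk
    have h2 := floor_key n hn2 k (by omega) (by rw [hk']; linarith)
    omega

lemma exists_unique_d :
    ∃! d : ℝ, 0 < d ∧ Real.cos (2 * Real.pi / 7) = Real.tanh (d / 2) / Real.tanh d := by
  have h1 : 0 < 2 - th := by linarith [th_lt_two]
  have h2 : 1 < th / (2 - th) := by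
    rw [one_lt_div h1]; linarith [th_gt_one]
  have h3 : 0 < Real.arcosh (th / (2 - th)) := Real.arcosh_pos h2
  refine ⟨Real.arcosh (th / (2 - th)), ⟨h3, tanh_of_cosh h3 (Real.cosh_arcosh h2.le)⟩, ?_⟩
  rintro d ⟨hd, he⟩
  have h4 := cosh_of_tanh hd he
  have h5 := Real.cosh_arcosh h2.le
  rw [← h5] at h4
  exact Real.cosh_strictMonoOn.injOn hd.le h3.le h4

theorem main :
    (∃! d : ℝ, 0 < d ∧ Real.cos (2 * Real.pi / 7) = Real.tanh (d / 2) / Real.tanh d) ∧
    ∀ d : ℝ, 0 < d → Real.cos (2 * Real.pi / 7) = Real.tanh (d / 2) / Real.tanh d →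
      ∀ n : ℕ, 1 ≤ n →
        ⌊7 / 2 * (n : ℝ) - Real.sqrt (5 / 4 * (n : ℝ) ^ 2 + 15 * n - 4)⌋ ≤
          (contactNumber d n : ℤ) :=
  ⟨exists_unique_d, fun _ hd he _ hn => lower_bound hd (cosh_of_tanh hd he) hn⟩

end Pool.Agent.Lib.MP_0702e0_co
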