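import Mathlib

/-!
# The number `θ = 2 cos (2π/7)` and its conjugates (MP_0702e0_co)
-/

namespace Pool.Agent.Lib.MP_0702e0_co

/-- `θ = 2 cos (2π/7)` -/
noncomputable def th : ℝ := 2 * Real.cos (2 * Real.pi / 7)

lemma th_gt_one : 1 < th := by
  have h : Real.cos (Real.pi / 3) < Real.cos (2 * Real.pi / 7) := by
    apply Real.cos_lt_cos_of_nonneg_of_le_pi
    · positivity
    · have := Real.pi_pos; linarith
    · have := Real.pi_pos; linarith
  rw [Real.cos_pi_div_three] at h
  unfold th; linarith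

lemma th_lt_two : th < 2 := by
  have h : Real.cos (2 * Real.pi / 7) < Real.cos 0 := by
    apply Real.cos_lt_cos_of_nonneg_of_le_pi
    · exact le_refl _
    · have := Real.pi_pos; linarith
    · have := Real.pi_pos; linarith
  rw [Real.cos_zero] at h
  unfold th; linarith

lemma th_cubic : th ^ 3 + th ^ 2 - 2 * th - 1 = 0 := by
  set a := 2 * Real.pi / 7 with ha
  have h4 : Real.cos (2 * (2 * a)) = Real.cos (3 * a) := by
    have : 2 * (2 * a) = 2 * Real.pi - 3 * a := by rw [ha]; ring
    rw [this, Real.cos_two_pi_sub]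
  rw [Real.cos_two_mul, Real.cos_two_mul, Real.cos_three_mul] at h4
  have hne : Real.cos a - 1 ≠ 0 := by
    have := th_lt_two
    unfold th at this
    rw [← ha] at this
    intro h; linarith
  have h5 : (Real.cos a - 1) * (8 * Real.cos a ^ 3 + 4 * Real.cos a ^ 2 - 4 * Real.cos a - 1) = 0 := by
    linear_combination h4
  have h6 := (mul_eq_zero.mp h5).resolve_left hne
  unfold th
  rw [← ha]
  linear_combination h6

lemma th_lo : (1.2469 : ℝ) < th := by
  by_contra h
  push Not at h
  have h1 := th_gt_one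
  have h2 := th_cubic
  nlinarith [mul_nonneg (sub_nonneg.mpr h) (sub_nonneg.mpr h1.le), mul_nonneg (mul_nonneg (sub_nonneg.mpr h) (sub_nonneg.mpr h1.le)) (sub_nonneg.mpr h1.le), sq_nonneg (th - 1)]

lemma th_hi : th < 1.247 := by
  by_contra h
  push Not at h
  have h1 := th_gt_one
  have h2 := th_cubic
  nlinarith [mul_nonneg (sub_nonneg.mpr h) (sub_nonneg.mpr h), mul_nonneg (mul_nonneg (sub_nonneg.mpr h) (sub_nonneg.mpr h)) (sub_nonneg.mpr h), sq_nonneg (th - 1.247)]

/-- the three conjugates of `θ` -/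
noncomputable def thK : Fin 3 → ℝ := ![th, th ^ 2 - 2, 1 - th - th ^ 2]

lemma thK_cubic : thK ^ 3 + thK ^ 2 - 2 * thK - 1 = 0 := by
  have h := th_cubic
  funext i
  fin_cases i
  · simp [thK]; linear_combination h
  · simp [thK]
    linear_combination (th ^ 3 - th ^ 2 - 2 * th + 1) * h
  · simp [thK]
    linear_combination (-th ^ 3 - 2 * th ^ 2 + th + 1) * h

lemma th_sq_lo : (1.5547 : ℝ) < th ^ 2 := by nlinarith [th_lo]

lemma th_sq_hi : th ^ 2 < 1.5551 := by nlinarith [th_hi, th_gt_one]

end Pool.Agent.Lib.MP_0702e0_co
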