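import Pool.Agent.Lib.MP_0702e0_co.Spiral
import Pool.Agent.Lib.MP_0702e0_co.Theta

/-!
# Ping-pong (MP_0702e0_co)
-/

namespace Pool.Agent.Lib.MP_0702e0_co

lemma nu_pos : 0 < th ^ 2 + th - 2 := by nlinarith [th_gt_one]

/-- the right boundary line -/
noncomputable def NR (f : ℕ → ℝ) (n : ℕ) : ℝ := (1 + th) * f (n + 1) - f n - f (cc n)

/-- the bottom line -/
noncomputable def kap (f : ℕ → ℝ) (n : ℕ) : ℝ := f n + f (n + 1) - (1 + th) * f (cc n)

/-- the region of the descendants of the `n`-th vertex -/
def DD (f : ℕ → ℝ) (n : ℕ) : Prop := NR f (n - 1) < 0 ∧ kap f n < 0 ∧ 0 < NR f n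

lemma F1 {y a b c d : ℝ} (hy : 0 < y) (r : a + c = th * (y + b)) (r' : b + d = th * (y + c))
    (h1 : a + b - (1 + th) * y < 0) (h2 : 0 < b + c - (1 + th) * y) :
    0 < c + d - (1 + th) * y := by
  have e : c + d - (1 + th) * y = th * (b + c - (1 + th) * y) - (a + b - (1 + th) * y) +
      (th ^ 2 + th - 2) * y := by linear_combination r + r'
  rw [e]
  have h3 := mul_pos (show 0 < th by linarith [th_gt_one]) h2
  have h4 := mul_pos nu_pos hy
  linarith

lemma F2 {y a b c d e : ℝ} (hy : 0 < y) (hb : 0 < b) (hc : 0 < c) (r1 : a + c = th * (y + b))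
    (r2 : b + d = th * (y + c)) (r3 : c + e = th * (y + d)) (h : a + b - (1 + th) * y < 0) :
    0 < d + e - (1 + th) * y := by
  have e' : d + e - (1 + th) * y = (th ^ 2 - 1) * (b + c + y) - th * (a + b - (1 + th) * y) := by
    linear_combination r3 + (1 + th) * r2 + th * r1
  rw [e']
  have h1 := th_gt_one
  have h2 : 0 < th ^ 2 - 1 := by nlinarith
  have h3 := mul_pos h2 (show 0 < b + c + y by linarith)
  have h4 := mul_pos (show 0 < th by linarith) (neg_pos.mpr h)
  linarith

section
variable {f : ℕ → ℝ} (hs : IsSp th f) (hf : ∀ n, 0 < f n)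
include hs hf

omit hf in
lemma NR_pred (k : ℕ) (hk : 1 ≤ k) : NR f (TT k - 1) = NR f k := by
  have h1 := (hs.close th_cubic k).1
  have h2 := (hs.close th_cubic k).2 hk
  have h7 := TT_ge k
  unfold NR
  rw [cc_TT_pred, show TT k - 1 + 1 = TT k by omega]
  linear_combination h2 - h1

/-- the regions of the children are contained in the region of the parent -/
lemma nest {k n : ℕ} (hk : 1 ≤ k) (hn : cc n = k + 1) (h : DD f n) : DD f (k + 1) := by
  have hinv := cc_inv n
  rw [hn, Nat.add_sub_cancel] at hinv
  obtain ⟨hlt, hge⟩ := hinv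
  have hge := hge (by omega)
  have hy := hf (k + 1)
  have r0 := (hs.close th_cubic k).2 hk
  have r1 := hs.at_move k
  have cl1 := (hs.close th_cubic (k + 1)).1
  have cl2 := (hs.close th_cubic (k + 1)).2 (by omega)
  have hmono := cc_mono_succ k
  have h7 := TT_ge k
  obtain ⟨hD1, hD2, hD3⟩ := h
  rcases (show cc (k + 1) = cc k ∨ cc (k + 1) = cc k + 1 by omega) with hA | hB
  · have hT := TT_typeA hk hA
    have r2 := hs.at_stay (m := k) (i := 0) (by omega)
    have r3 := hs.at_stay (m := k) (i := 1) (by omega)
    have r6 := (hs k hk).1 hA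
    rw [hT, show TT k + 3 - 1 = TT k + 2 by omega] at cl1
    rw [hT, hA] at cl2
    simp only [Nat.add_zero] at r2 r3
    have hkap : kap f (k + 1) = NR f k := by
      unfold kap NR; rw [hA]; linear_combination r6
    have hNRk : NR f k = -(f (cc k) + f k - (1 + th) * f (k + 1)) := by unfold NR; ring
    have hNR1 : NR f (k + 1) = f (TT k + 3) + f (k + 2) - (1 + th) * f (k + 1) := by
      unfold NR; rw [hA]; linear_combination -cl2
    unfold DD
    rw [Nat.add_sub_cancel, hkap, hNR1]
    rcases (show n = TT k ∨ n = TT k + 1 ∨ n = TT k + 2 by omega) with rfl | rfl | rfl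
    · rw [NR_pred hs k hk] at hD1
      refine ⟨hD1, hD1, ?_⟩
      unfold kap at hD2
      rw [hn] at hD2
      exact F2 hy (hf (TT k + 1)) (hf (TT k + 2)) (by linear_combination r2)
        (by linear_combination r3) (by linear_combination cl1) hD2
    · unfold kap at hD2
      rw [hn] at hD2
      have h6 : NR f k < 0 := by
        rw [hNRk]
        have := F2 (a := f (TT k + 2)) (b := f (TT k + 1)) (c := f (TT k)) (d := f k)
          (e := f (cc k)) hy (hf _) (hf _) (by linear_combination r2) (by linear_combination r1)
          (by linear_combination r0) (by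
            have e : TT k + 1 + 1 = TT k + 2 := rfl
            rw [e] at hD2; linarith)
        linarith
      refine ⟨h6, h6, ?_⟩
      unfold NR at hD3
      rw [hn] at hD3
      exact F1 (a := f (TT k + 1)) (b := f (TT k + 2)) hy (by linear_combination r3)
        (by linear_combination cl1) hD2 (by linear_combination hD3 - r3)
    · unfold kap at hD2
      rw [hn] at hD2
      unfold NR at hD3
      rw [hn] at hD3
      have h6 : NR f k < 0 := by
        rw [hNRk]
        have := F2 (a := f (TT k + 2)) (b := f (TT k + 3)) (c := f (k + 2)) (d := f (cc k))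
          (e := f k) hy (hf _) (hf _) (by linear_combination cl1) (by linear_combination cl2)
          (by linear_combination r6) hD2
        linarith
      refine ⟨h6, h6, ?_⟩
      linear_combination hD3 - cl1
  · have hT := TT_typeB hk hB
    have r2 := hs.at_stay (m := k) (i := 0) (by omega)
    have r5 := (hs k hk).2 hB
    have r6 := (hs.close th_cubic (cc k)).1
    have hTm : TT (cc k) = k + 1 := TT_of_move (by omega)
    rw [hTm, Nat.add_sub_cancel] at r6
    rw [hT, show TT k + 2 - 1 = TT k + 1 by omega] at cl1
    rw [hT, hB] at cl2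
    simp only [Nat.add_zero] at r2
    have hkap : kap f (k + 1) = -(f (cc k + 1) + f (cc k) - (1 + th) * f (k + 1)) := by
      unfold kap; rw [hB]; linear_combination r5
    have hNRk : NR f k = -(f (cc k) + f k - (1 + th) * f (k + 1)) := by unfold NR; ring
    have hNR1 : NR f (k + 1) = f (TT k + 2) + f (k + 2) - (1 + th) * f (k + 1) := by
      unfold NR; rw [hB]; linear_combination -cl2
    unfold DD
    rw [Nat.add_sub_cancel, hkap, hNR1]
    unfold kap at hD2
    rw [hn] at hD2
    unfold NR at hD3
    rw [hn] at hD3
    rcases (show n = TT k ∨ n = TT k + 1 by omega) with rfl | rfl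
    · rw [NR_pred hs k hk] at hD1
      refine ⟨hD1, ?_, ?_⟩
      · have := F2 (a := f (TT k + 1)) (b := f (TT k)) (c := f k) (d := f (cc k))
          (e := f (cc k + 1)) hy (hf _) (hf _) (by linear_combination r1) (by linear_combination r0)
          (by linear_combination r6) (by linarith)
        linarith
      · exact F1 (a := f (TT k)) (b := f (TT k + 1)) hy (by linear_combination r2)
          (by linear_combination cl1) hD2 (by linear_combination hD3 - r2)
    · have e : TT k + 1 + 1 = TT k + 2 := rfl
      rw [e] at hD2 hD3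
      refine ⟨?_, ?_, ?_⟩
      · rw [hNRk]
        have := F2 (a := f (TT k + 2)) (b := f (TT k + 1)) (c := f (TT k)) (d := f k)
          (e := f (cc k)) hy (hf _) (hf _) (by linear_combination r2) (by linear_combination r1)
          (by linear_combination r0) (by linarith)
        linarith
      · have := F2 (a := f (TT k + 1)) (b := f (TT k + 2)) (c := f (k + 2)) (d := f (cc k + 1))
          (e := f (cc k)) hy (hf _) (hf _) (by linear_combination cl1) (by linear_combination cl2)
          (by linear_combination r5) hD2
        linarith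
      · linear_combination hD3 - cl1

/-- siblings have disjoint regions -/
lemma siblings {k n n' : ℕ} (hk : 1 ≤ k) (hn : cc n = k + 1) (hn' : cc n' = k + 1) (hlt : n < n')
    (h : DD f n) (h' : DD f n') : False := by
  rcases (show n' = n + 1 ∨ n + 2 ≤ n' by omega) with rfl | h2
  · have h1 := h'.1
    rw [Nat.add_sub_cancel] at h1
    exact absurd h.2.2 (not_lt.mpr h1.le)
  · have hi1 := cc_inv n
    have hi2 := cc_inv n'
    rw [hn, Nat.add_sub_cancel] at hi1
    rw [hn', Nat.add_sub_cancel] at hi2
    have g1 := hi1.2 (by omega)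
    have g2 := hi2.1
    have hmono := cc_mono_succ k
    rcases (show cc (k + 1) = cc k ∨ cc (k + 1) = cc k + 1 by omega) with hA | hB
    · have hT := TT_typeA hk hA
      obtain rfl : n = TT k := by omega
      obtain rfl : n' = TT k + 2 := by omega
      have r2 := hs.at_stay (m := k) (i := 0) (by omega)
      have r3 := hs.at_stay (m := k) (i := 1) (by omega)
      simp only [Nat.add_zero] at r2 r3
      have hD2 := h.2.1
      have hD3 := h.2.2
      have hD2' := h'.2.1
      unfold kap at hD2 hD2'
      unfold NR at hD3
      rw [hn] at hD2 hD3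
      rw [hn'] at hD2'
      have e : TT k + 2 + 1 = TT k + 3 := rfl
      rw [e] at hD2'
      have e1 : TT k + 1 + 2 = TT k + 3 := by omega
      have e2 : TT k + 1 + 1 = TT k + 2 := by omega
      rw [e1, e2] at r3
      have := F1 (a := f (TT k)) (b := f (TT k + 1)) (c := f (TT k + 2)) (d := f (TT k + 3))
        (hf (k + 1)) (by linear_combination r2)
        (by linear_combination r3) hD2 (by linear_combination hD3 - r2)
      linarith
    · have hT := TT_typeB hk hB
      omega

end

end Pool.Agent.Lib.MP_0702e0_co
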