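import Mathlib

/-!
# The pointer function of the spiral (MP_0702e0_co)
-/

namespace Pool.Agent.Lib.MP_0702e0_co

/-- The pointer: `cc n` is the index of the (last) inner neighbour of the `n`-th vertex of the
spiral. -/
def cc : ℕ → ℕ
  | 0 => 0
  | n + 1 =>
    if n + 1 = (if cc n = 0 then 7 else 3 * cc n + 8 - cc (min (cc n) n)) then cc n + 1 else cc n
  termination_by n => n
  decreasing_by all_goals omega

/-- the time at which the pointer leaves `m` -/
def TT (m : ℕ) : ℕ := if m = 0 then 7 else 3 * m + 8 - cc m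

lemma cc_zero : cc 0 = 0 := by rw [cc]

lemma cc_le (n : ℕ) : cc n ≤ n := by
  induction n with
  | zero => rw [cc_zero]
  | succ n ih =>
    rw [cc]
    split_ifs <;> omega

lemma cc_succ (n : ℕ) : cc (n + 1) = if n + 1 = TT (cc n) then cc n + 1 else cc n := by
  rw [cc, min_eq_left (cc_le n)]
  rfl

lemma cc_succ_eq (n : ℕ) (h : n + 1 = TT (cc n)) : cc (n + 1) = cc n + 1 := by
  rw [cc_succ, if_pos h]

lemma cc_succ_ne (n : ℕ) (h : n + 1 ≠ TT (cc n)) : cc (n + 1) = cc n := by
  rw [cc_succ, if_neg h]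

lemma cc_mono_succ (n : ℕ) : cc n ≤ cc (n + 1) ∧ cc (n + 1) ≤ cc n + 1 := by
  rw [cc_succ]; split_ifs <;> omega

lemma cc_mono : Monotone cc := monotone_nat_of_le_succ fun n => (cc_mono_succ n).1

lemma TT_zero : TT 0 = 7 := rfl

lemma cc_small : ∀ n, n ≤ 6 → cc n = 0 := by
  intro n
  induction n with
  | zero => intro _; exact cc_zero
  | succ n ih =>
    intro h
    have h1 := ih (by omega)
    rw [cc_succ_ne n (by rw [h1, TT_zero]; omega), h1]

lemma cc_lt (n : ℕ) (hn : 1 ≤ n) : cc n < n := by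
  induction n with
  | zero => omega
  | succ n ih =>
    rcases Nat.eq_zero_or_pos n with h | h
    · subst h; rw [cc_small 1 (by omega)]; omega
    · have := ih h
      have := (cc_mono_succ n).2
      omega

lemma TT_one : TT 1 = 11 := by
  simp [TT, cc_small 1 (by omega)]

lemma TT_succ (m : ℕ) (hm : 1 ≤ m) : TT (m + 1) + (cc (m + 1) - cc m) = TT m + 3 := by
  have h1 := cc_mono_succ m
  have h2 := cc_le m
  have h3 := cc_le (m + 1)
  unfold TT
  rw [if_neg (by omega), if_neg (by omega)]
  omega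

lemma TT_lt_succ (m : ℕ) : TT m < TT (m + 1) := by
  rcases Nat.eq_zero_or_pos m with h | h
  · subst h; rw [TT_zero, TT_one]; omega
  · have h1 := TT_succ m h
    have h2 := cc_mono_succ m
    omega

lemma TT_strictMono : StrictMono TT := strictMono_nat_of_lt_succ TT_lt_succ

lemma cc_inv (n : ℕ) : n < TT (cc n) ∧ (0 < cc n → TT (cc n - 1) ≤ n) := by
  induction n with
  | zero => rw [cc_zero, TT_zero]; omega
  | succ n ih =>
    by_cases h : n + 1 = TT (cc n)
    · rw [cc_succ_eq n h]
      have := TT_lt_succ (cc n)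
      refine ⟨by omega, fun _ => ?_⟩
      rw [Nat.add_sub_cancel]; omega
    · rw [cc_succ_ne n h]
      exact ⟨by omega, fun h0 => by have := ih.2 h0; omega⟩

lemma cc_eq {n m : ℕ} (h1 : 0 < m → TT (m - 1) ≤ n) (h2 : n < TT m) : cc n = m := by
  obtain ⟨h3, h4⟩ := cc_inv n
  rcases lt_trichotomy (cc n) m with h | h | h
  · exfalso
    have h5 := h1 (by omega)
    have h6 : TT (cc n) ≤ TT (m - 1) := TT_strictMono.monotone (by omega)
    omega
  · exact h
  · exfalso
    have h5 := h4 (by omega)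
    have h6 : TT m ≤ TT (cc n - 1) := TT_strictMono.monotone (by omega)
    omega

/-- just before the pointer leaves `m` -/
lemma cc_TT_pred (m : ℕ) : cc (TT m - 1) = m := by
  have h0 : 7 ≤ TT m := by
    rw [← TT_zero]; exact TT_strictMono.monotone (Nat.zero_le _)
  apply cc_eq
  · intro hm
    have h1 : TT (m - 1) < TT m := TT_strictMono (by omega)
    omega
  · omega

lemma cc_TT (m : ℕ) : cc (TT m) = m + 1 := by
  apply cc_eq
  · intro _; rw [Nat.add_sub_cancel]
  · exact TT_lt_succ m

lemma TT_ge (m : ℕ) : 7 ≤ TT m := by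
  rw [← TT_zero]; exact TT_strictMono.monotone (Nat.zero_le _)

/-- if the pointer moves at time `n + 1`, then this is the time `TT (cc n)` -/
lemma TT_of_move {n : ℕ} (h : cc (n + 1) ≠ cc n) : TT (cc n) = n + 1 := by
  by_contra hne
  exact h (cc_succ_ne n (fun h => hne h.symm))

/-- type A vertices -/
lemma TT_typeA {m : ℕ} (hm : 1 ≤ m) (h : cc (m + 1) = cc m) : TT (m + 1) = TT m + 3 := by
  have := TT_succ m hm
  omega

/-- type B vertices -/
lemma TT_typeB {m : ℕ} (hm : 1 ≤ m) (h : cc (m + 1) = cc m + 1) : TT (m + 1) = TT m + 2 := by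
  have := TT_succ m hm
  omega

lemma cc_add_TT {m i : ℕ} (h : TT m + i < TT (m + 1)) : cc (TT m + i) = m + 1 := by
  apply cc_eq
  · intro _; rw [Nat.add_sub_cancel]; omega
  · exact h

lemma le_cc_iff {n k : ℕ} (hk : 1 ≤ k) : k ≤ cc n ↔ TT (k - 1) ≤ n := by
  obtain ⟨h3, h4⟩ := cc_inv n
  constructor
  · intro h
    have h5 := h4 (by omega)
    have h6 : TT (k - 1) ≤ TT (cc n - 1) := TT_strictMono.monotone (by omega)
    omega
  · intro h
    by_contra hcon
    have h6 : TT (cc n) ≤ TT (k - 1) := TT_strictMono.monotone (by omega)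
    omega

end Pool.Agent.Lib.MP_0702e0_co
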