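import Pool.Agent.Lib.MP_0702e0_co.Pointer

/-!
# The spiral recursion (MP_0702e0_co)
-/

namespace Pool.Agent.Lib.MP_0702e0_co

variable {K : Type*} [CommRing K]

/-- a sequence satisfying the recursion of the spiral -/
def IsSp (θ : K) (s : ℕ → K) : Prop := ∀ n, 1 ≤ n →
  (cc (n + 1) = cc n → s (n + 2) + s n = θ * (s (n + 1) + s (cc n))) ∧
  (cc (n + 1) = cc n + 1 → s (n + 2) + s (cc n) = θ * (s (n + 1) + s (cc n + 1)))

/-- the spiral sequence with given initial values -/
def sp (θ : K) (x : Fin 3 → K) : ℕ → K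
  | 0 => x 0
  | 1 => x 1
  | 2 => x 2
  | n + 3 => θ * (sp θ x (n + 2) + sp θ x (min (cc (n + 2)) (n + 2))) -
      (if cc (n + 2) = cc (n + 1) then sp θ x (n + 1) else sp θ x (min (cc (n + 1)) (n + 2)))
  termination_by n => n
  decreasing_by all_goals omega

lemma isSp_sp (θ : K) (x : Fin 3 → K) : IsSp θ (sp θ x) := by
  intro n hn
  obtain ⟨m, rfl⟩ : ∃ m, n = m + 1 := ⟨n - 1, by omega⟩
  have h1 := cc_le (m + 1)
  have h2 := cc_le (m + 2)
  constructor
  · intro h
    have h' : cc (m + 2) = cc (m + 1) := h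
    change sp θ x (m + 3) + _ = _
    rw [sp, if_pos h', min_eq_left h2, h']
    ring
  · intro h
    have h' : cc (m + 2) = cc (m + 1) + 1 := h
    change sp θ x (m + 3) + _ = _
    rw [sp, if_neg (by omega), min_eq_left h2, min_eq_left (by omega), h']
    ring

lemma per7 {θ : K} (h : θ ^ 3 + θ ^ 2 - 2 * θ - 1 = 0) {y a0 a1 a2 a3 a4 a5 a6 : K}
    (r1 : a0 + a2 = θ * (y + a1)) (r2 : a1 + a3 = θ * (y + a2)) (r3 : a2 + a4 = θ * (y + a3))
    (r4 : a3 + a5 = θ * (y + a4)) (r5 : a4 + a6 = θ * (y + a5)) :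
    a5 + a0 = θ * (y + a6) ∧ a6 + a1 = θ * (y + a0) := by
  constructor
  · linear_combination r1 + θ * r2 + (θ ^ 2 - 1) * r3 - (θ ^ 2 - 1) * r4 - θ * r5 - (a4 - a3) * h
  · linear_combination -θ * r1 - (θ ^ 2 - 1) * r2 + (θ ^ 2 - 1) * r3 + θ * r4 + r5 + (a3 - a2) * h

section
variable {θ : K} {s : ℕ → K} (hs : IsSp θ s)
include hs

lemma IsSp.at_move (m : ℕ) : s (TT m + 1) + s m = θ * (s (TT m) + s (m + 1)) := by
  have h7 := TT_ge m
  have h := (hs (TT m - 1) (by omega)).2
  have e1 : TT m - 1 + 1 = TT m := by omega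
  have e2 : TT m - 1 + 2 = TT m + 1 := by omega
  rw [e1, e2, cc_TT_pred, cc_TT] at h
  exact h rfl

lemma IsSp.at_stay {m i : ℕ} (hi : TT m + (i + 1) < TT (m + 1)) :
    s (TT m + i + 2) + s (TT m + i) = θ * (s (TT m + i + 1) + s (m + 1)) := by
  have h7 := TT_ge m
  have h := (hs (TT m + i) (by omega)).1
  have e1 : cc (TT m + i + 1) = m + 1 := cc_add_TT (m := m) (i := i + 1) hi
  have e2 : cc (TT m + i) = m + 1 := cc_add_TT (by omega)
  rw [e1, e2] at h
  exact h rfl

lemma IsSp.early {n : ℕ} (h1 : 1 ≤ n) (h5 : n ≤ 5) : s (n + 2) + s n = θ * (s (n + 1) + s 0) := by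
  have h := (hs n h1).1
  rw [cc_small (n + 1) (by omega), cc_small n (by omega)] at h
  exact h rfl

variable (hθ : θ ^ 3 + θ ^ 2 - 2 * θ - 1 = 0)
include hθ

lemma IsSp.zero : s 6 + s 1 = θ * (s 0 + s 7) ∧ s 7 + s 2 = θ * (s 0 + s 1) := by
  have r1 := hs.early (n := 1) (by omega) (by omega)
  have r2 := hs.early (n := 2) (by omega) (by omega)
  have r3 := hs.early (n := 3) (by omega) (by omega)
  have r4 := hs.early (n := 4) (by omega) (by omega)
  have r5 := hs.early (n := 5) (by omega) (by omega)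
  norm_num at r1 r2 r3 r4 r5
  exact per7 hθ (y := s 0) (a0 := s 1) (a1 := s 2) (a2 := s 3) (a3 := s 4) (a4 := s 5)
    (a5 := s 6) (a6 := s 7) (by linear_combination r1) (by linear_combination r2)
    (by linear_combination r3) (by linear_combination r4) (by linear_combination r5)

lemma IsSp.close : ∀ k : ℕ, s (TT k - 1) + s (k + 1) = θ * (s k + s (TT k)) ∧
    (1 ≤ k → s (TT k) + s (cc k) = θ * (s k + s (k + 1))) := by
  intro k
  induction k using Nat.strong_induction_on with
  | _ k ih =>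
  match k, ih with
  | 0, _ =>
    refine ⟨?_, fun h => absurd h (by omega)⟩
    rw [TT_zero]
    exact (hs.zero hθ).1
  | 1, _ =>
    have r1 := (hs.zero hθ).2
    have r2 := hs.at_move 0
    have r3 := hs.at_stay (m := 0) (i := 0) (by rw [TT_zero]; norm_num [TT_one])
    have r4 := hs.at_stay (m := 0) (i := 1) (by rw [TT_zero]; norm_num [TT_one])
    have r5 := hs.at_stay (m := 0) (i := 2) (by rw [TT_zero]; norm_num [TT_one])
    rw [TT_zero] at r2 r3 r4 r5
    norm_num at r2 r3 r4 r5
    have := per7 hθ (y := s 1) (a0 := s 2) (a1 := s 0) (a2 := s 7) (a3 := s 8) (a4 := s 9)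
      (a5 := s 10) (a6 := s 11) (by linear_combination r1) (by linear_combination r2)
      (by linear_combination r3) (by linear_combination r4) (by linear_combination r5)
    rw [TT_one, cc_small 1 (by omega)]
    exact ⟨this.1, fun _ => this.2⟩
  | k + 2, ih =>
    have hc := cc_mono_succ (k + 1)
    have hC := (ih (k + 1) (by omega)).2 (by omega)
    have hmv := hs.at_move (k + 1)
    rcases (show cc (k + 2) = cc (k + 1) ∨ cc (k + 2) = cc (k + 1) + 1 by
      have : cc (k + 2) = cc (k + 1 + 1) := rfl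
      omega) with hA | hB
    · have hT := TT_typeA (m := k + 1) (by omega) hA
      have hT' : TT (k + 2) = TT (k + 1) + 3 := hT
      have r1 := (hs (k + 1) (by omega)).1 hA
      have r4 := hs.at_stay (m := k + 1) (i := 0) (by omega)
      have r5 := hs.at_stay (m := k + 1) (i := 1) (by omega)
      have := per7 hθ (y := s (k + 2)) (a0 := s (k + 3)) (a1 := s (cc (k + 1))) (a2 := s (k + 1))
        (a3 := s (TT (k + 1))) (a4 := s (TT (k + 1) + 1)) (a5 := s (TT (k + 1) + 2))
        (a6 := s (TT (k + 1) + 3)) (by linear_combination r1) (by linear_combination hC)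
        (by linear_combination hmv) (by linear_combination r4) (by linear_combination r5)
      rw [hT', hA]
      exact ⟨this.1, fun _ => this.2⟩
    · have hT := TT_typeB (m := k + 1) (by omega) hB
      have hT' : TT (k + 2) = TT (k + 1) + 2 := hT
      have r1 := (hs (k + 1) (by omega)).2 hB
      have r5 := hs.at_stay (m := k + 1) (i := 0) (by omega)
      have hlt := cc_lt (k + 1) (by omega)
      have hcl := (ih (cc (k + 1)) (by omega)).1
      have hTm : TT (cc (k + 1)) = k + 2 := TT_of_move (by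
        have : cc (k + 1 + 1) = cc (k + 2) := rfl
        omega)
      rw [hTm] at hcl
      have e1 : k + 2 - 1 = k + 1 := by omega
      rw [e1] at hcl
      have := per7 hθ (y := s (k + 2)) (a0 := s (k + 3)) (a1 := s (cc (k + 1) + 1))
        (a2 := s (cc (k + 1))) (a3 := s (k + 1)) (a4 := s (TT (k + 1)))
        (a5 := s (TT (k + 1) + 1)) (a6 := s (TT (k + 1) + 2)) (by linear_combination r1)
        (by linear_combination hcl) (by linear_combination hC)
        (by linear_combination hmv) (by linear_combination r5)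
      rw [hT', hB]
      exact ⟨this.1, fun _ => this.2⟩

end

/-! ### vectors -/

/-- the `n`-th vertex of the spiral, in the coordinates given by the first three vertices -/
def vv (θ : K) (n : ℕ) : Fin 3 → K := fun j => sp θ (fun i => if i = j then 1 else 0) n

/-- the bilinear form -/
def be (θ : K) (p q : Fin 3 → K) : K :=
  2 * (1 - θ) * (p 0 * q 0 + p 1 * q 1 + p 2 * q 2) + θ * (p 0 + p 1 + p 2) * (q 0 + q 1 + q 2)

lemma be_comm (θ : K) (p q : Fin 3 → K) : be θ p q = be θ q p := by
  unfold be; ring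

lemma isSp_be (θ : K) (q : Fin 3 → K) : IsSp θ (fun n => be θ (vv θ n) q) := by
  intro n hn
  have h := fun j : Fin 3 => isSp_sp θ (fun i => if i = j then 1 else 0) n hn
  constructor
  · intro hc
    have h0 := (h 0).1 hc
    have h1 := (h 1).1 hc
    have h2 := (h 2).1 hc
    simp only [be, vv]
    linear_combination (2 * (1 - θ) * q 0 + θ * (q 0 + q 1 + q 2)) * h0 +
      (2 * (1 - θ) * q 1 + θ * (q 0 + q 1 + q 2)) * h1 +
      (2 * (1 - θ) * q 2 + θ * (q 0 + q 1 + q 2)) * h2
  · intro hc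
    have h0 := (h 0).2 hc
    have h1 := (h 1).2 hc
    have h2 := (h 2).2 hc
    simp only [be, vv]
    linear_combination (2 * (1 - θ) * q 0 + θ * (q 0 + q 1 + q 2)) * h0 +
      (2 * (1 - θ) * q 1 + θ * (q 0 + q 1 + q 2)) * h1 +
      (2 * (1 - θ) * q 2 + θ * (q 0 + q 1 + q 2)) * h2

/-- a triangle of the tiling -/
structure Tri (θ : K) (x y z : Fin 3 → K) : Prop where
  xx : be θ x x = 2 - θ
  yy : be θ y y = 2 - θ
  zz : be θ z z = 2 - θ
  xy : be θ x y = θ
  xz : be θ x z = θ
  yz : be θ y z = θ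

lemma Tri.rot {θ : K} {x y z : Fin 3 → K} (h : Tri θ x y z) : Tri θ y z x :=
  ⟨h.yy, h.zz, h.xx, h.yz, by rw [be_comm]; exact h.xy, by rw [be_comm]; exact h.xz⟩

lemma Tri.swap {θ : K} {x y z : Fin 3 → K} (h : Tri θ x y z) : Tri θ y x z :=
  ⟨h.yy, h.xx, h.zz, by rw [be_comm]; exact h.xy, h.yz, h.xz⟩

lemma Tri.next {θ : K} {x y z w : Fin 3 → K} (h : Tri θ x y z)
    (hw : ∀ q, be θ w q + be θ x q = θ * (be θ y q + be θ z q)) : Tri θ y z w := by
  have hx := hw x
  have hy := hw y
  have hz := hw z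
  have hww := hw w
  rw [be_comm θ w x, h.xx, be_comm θ y x, be_comm θ z x, h.xy, h.xz] at hx
  rw [h.xy, h.yy, be_comm θ z y, h.yz] at hy
  rw [h.xz, h.yz, h.zz] at hz
  have hyw : be θ y w = θ := by rw [be_comm]; linear_combination hy
  have hzw : be θ z w = θ := by rw [be_comm]; linear_combination hz
  refine ⟨h.yy, h.zz, ?_, h.yz, hyw, hzw⟩
  rw [hyw, hzw] at hww
  linear_combination hww - hx

lemma tri_vv {θ : K} (hθ : θ ^ 3 + θ ^ 2 - 2 * θ - 1 = 0) : ∀ n : ℕ, 1 ≤ n →
    Tri θ (vv θ (cc n)) (vv θ n) (vv θ (n + 1)) := by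
  intro n
  induction n with
  | zero => intro h; omega
  | succ n ih =>
    intro _
    rcases Nat.eq_zero_or_pos n with hn | hn
    · subst hn
      rw [cc_small 1 (by omega)]
      constructor <;> simp [be, vv, sp] <;> ring
    · have hT := ih hn
      have hc := cc_mono_succ n
      rcases (show cc (n + 1) = cc n ∨ cc (n + 1) = cc n + 1 by omega) with hA | hB
      · rw [hA]
        have h1 : Tri θ (vv θ n) (vv θ (n + 1)) (vv θ (cc n)) := hT.rot
        have h2 := h1.next (w := vv θ (n + 2)) (fun q => (isSp_be θ q n hn).1 hA)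
        exact h2.swap
      · have hTm : TT (cc n) = n + 1 := TT_of_move (by omega)
        -- the closing triangle
        have h1 : Tri θ (vv θ n) (vv θ (cc n)) (vv θ (n + 1)) := hT.swap
        have h2 := h1.next (w := vv θ (cc n + 1)) (fun q => by
          have := ((isSp_be θ q).close hθ (cc n)).1
          rw [hTm] at this
          have e1 : n + 1 - 1 = n := by omega
          rw [e1] at this
          linear_combination this)
        have h3 := h2.next (w := vv θ (n + 2)) (fun q => (isSp_be θ q n hn).2 hB)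
        rw [hB]
        exact h3.swap

/-- the closing adjacency -/
lemma closing {θ : K} (hθ : θ ^ 3 + θ ^ 2 - 2 * θ - 1 = 0) {n : ℕ} (hn : 1 ≤ n)
    (hB : cc (n + 1) = cc n + 1) : be θ (vv θ (cc n + 1)) (vv θ (n + 1)) = θ := by
  have h := tri_vv hθ (n + 1) (by omega)
  rw [hB] at h
  exact h.xy

end Pool.Agent.Lib.MP_0702e0_co
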