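import Pool.Agent.Lib.MP_0702e0_co.Group

/-!
Vertices of the order-7 triangular tiling as vectors, the corresponding points of the upper half plane,
and the lower bound for the distance between two different vertices.
-/

set_option autoImplicit false

namespace Pool.Agent.Lib.MP_0702e0_co

open Matrix

theorem Qf_v : Qf v = (4 - c ^ 2) * (3 - c ^ 2) := by
  simp [Qf, v]; ring

theorem mulVec_sc (g : M) (a : A) (y : V) : g *ᵥ (sc a y) = sc a (g *ᵥ y) := by
  ext i : 1
  simp only [mulVec3, sc]; ring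

theorem Qf_sc (a : A) (x : V) : Qf (sc a x) = a ^ 2 * Qf x := by
  simp only [Qf, sc]; ring

theorem Qf_sub (x y : V) : Qf (x - y) = Qf x + Qf y - Bf x y := by
  simp only [Qf, Bf, Pi.sub_apply]; ring

theorem Qf_add (x y : V) : Qf (x + y) = Qf x + Qf y + Bf x y := by
  simp only [Qf, Bf, Pi.add_apply]; ring

/-- The elements of the group generated by `R` and `J` have the following properties. -/
structure Good (g : M) : Prop where
  form : ∀ x y, Bf (g *ᵥ x) (g *ᵥ y) = Bf x y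
  int : ∀ i j, g i j ∈ O
  cong : ∃ l : V, (∀ i, l i ∈ O) ∧ g *ᵥ v = v + sc mu l

theorem Good.mul {g h : M} (hg : Good g) (hh : Good h) : Good (g * h) := by
  refine ⟨?_, ?_, ?_⟩
  · intro x y
    rw [← mulVec_mulVec, ← mulVec_mulVec, hg.form, hh.form]
  · intro i j
    rw [Matrix.mul_apply]
    exact O.sum_mem fun k _ => O.mul_mem (hg.int i k) (hh.int k j)
  · obtain ⟨l, hl, hl'⟩ := hg.cong
    obtain ⟨l2, hl2, hl2'⟩ := hh.cong
    refine ⟨l + g *ᵥ l2, ?_, ?_⟩
    · intro i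
      rw [Pi.add_apply, mulVec3]
      refine O.add_mem (hl i) (O.add_mem (O.add_mem ?_ ?_) ?_) <;>
        exact O.mul_mem (hg.int _ _) (hl2 _)
    · rw [← mulVec_mulVec, hl2', mulVec_add, mulVec_sc, hl']
      ext i : 1
      simp only [Pi.add_apply, sc]; ring

theorem Good.one : Good 1 := by
  refine ⟨fun x y => by simp, fun i j => ?_, 0, fun i => ?_, ?_⟩
  · rw [Matrix.one_apply]; split_ifs
    · exact O.one_mem
    · exact O.zero_mem
  · exact O.zero_mem
  · ext i : 1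
    simp [sc]

theorem Good.pow {g : M} (hg : Good g) (n : ℕ) : Good (g ^ n) := by
  induction n with
  | zero => simpa using Good.one
  | succ n ih => rw [pow_succ]; exact ih.mul hg

theorem c_sq_mem : c ^ 2 ∈ O := O.pow_mem c_mem 2

theorem good_R : Good R := by
  refine ⟨Bf_R, ?_, 0, fun i => O.zero_mem, ?_⟩
  · intro i j
    fin_cases i <;> fin_cases j <;> simp [R] <;>
      first
        | exact O.zero_mem
        | exact O.one_mem
        | exact c_mem
        | exact O.sub_mem c_sq_mem O.one_mem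
  · rw [R_v]; ext i : 1; simp [sc]

theorem good_J : Good J := by
  refine ⟨Bf_J, ?_, -e3, ?_, J_v⟩
  · intro i j
    fin_cases i <;> fin_cases j <;> simp [J] <;>
      first
        | exact O.zero_mem
        | exact O.one_mem
        | exact c_mem
  · intro i
    fin_cases i <;> simp [e3]

theorem R_pow_v (n : ℕ) : R ^ n *ᵥ v = v := by
  induction n with
  | zero => simp
  | succ n ih => rw [pow_succ, ← mulVec_mulVec, R_v, ih]

/-! ### The first place -/

abbrev W : Type := Fin 3 → ℝ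

/-- The first coordinate of a vector. -/
def proj (x : V) : W := fun i => x i 0

/-- Twice the real bilinear form. -/
noncomputable def BR (x y : W) : ℝ :=
  2 * x 0 * y 0 + 2 * x 1 * y 1 + 2 * x 2 * y 2 - c0 * (x 0 * y 1 + x 1 * y 0) - (x 1 * y 2 + x 2 * y 1)

theorem c_zero : c 0 = c0 := by simp [c]

theorem Bf_zero (x y : V) : Bf x y 0 = BR (proj x) (proj y) := by
  simp only [Bf, BR, proj, Pi.add_apply, Pi.sub_apply, Pi.mul_apply, c_zero, Pi.ofNat_apply]

noncomputable def nn : ℝ := (4 - c0 ^ 2) * (c0 ^ 2 - 3)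

theorem sq_lower : 3.2468 < c0 ^ 2 := by nlinarith [c0_lower]
theorem sq_upper : c0 ^ 2 < 3.2473 := by nlinarith [c0_lower, c0_upper]

theorem nn_pos : 0 < nn := by
  unfold nn
  have h1 := sq_lower
  have h2 := sq_upper
  apply mul_pos <;> linarith

/-- Real vectors of the norm of a vertex on the upper sheet. -/
def IsVert (x : W) : Prop := BR x x = -2 * nn ∧ 0 < x 2

noncomputable def sg : ℝ := Real.sqrt (4 - c0 ^ 2)
noncomputable def rh : ℝ := Real.sqrt (c0 ^ 2 - 3)

theorem sg_sq : sg ^ 2 = 4 - c0 ^ 2 := Real.sq_sqrt (by linarith [sq_upper])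
theorem rh_sq : rh ^ 2 = c0 ^ 2 - 3 := Real.sq_sqrt (by linarith [sq_lower])
theorem sg_pos : 0 < sg := Real.sqrt_pos.mpr (by linarith [sq_upper])
theorem rh_pos : 0 < rh := Real.sqrt_pos.mpr (by linarith [sq_lower])

noncomputable def Xc (x : W) : ℝ := x 0 - c0 / 2 * x 1
noncomputable def Yc (x : W) : ℝ := sg / 2 * x 1 - x 2 / sg
noncomputable def Tc (x : W) : ℝ := rh * x 2 / sg

theorem BR_eq (x y : W) : BR x y = 2 * (Xc x * Xc y + Yc x * Yc y - Tc x * Tc y) := by
  have h1 := sg_sq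
  have h2 := rh_sq
  have h3 := sg_pos.ne'
  have e : Yc x * Yc y - Tc x * Tc y =
      (sg ^ 2 * (x 1 * y 1)) / 4 - (x 1 * y 2 + x 2 * y 1) / 2 + (1 - rh ^ 2) * (x 2 * y 2) / sg ^ 2 := by
    unfold Yc Tc
    field_simp
    ring
  have h4 : 1 - rh ^ 2 = sg ^ 2 := by rw [h1, h2]; ring
  rw [h4, mul_div_cancel_left₀ _ (pow_ne_zero 2 h3), h1] at e
  have : Xc x * Xc y + Yc x * Yc y - Tc x * Tc y = Xc x * Xc y + (Yc x * Yc y - Tc x * Tc y) := by ring
  rw [this, e]
  unfold BR Xc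
  ring

theorem norm_eq {x : W} (hx : IsVert x) : Tc x ^ 2 = Xc x ^ 2 + Yc x ^ 2 + nn := by
  have h := hx.1
  rw [BR_eq] at h
  linarith

theorem Tc_pos {x : W} (hx : IsVert x) : 0 < Tc x := by
  unfold Tc
  exact div_pos (mul_pos rh_pos hx.2) sg_pos

theorem P_pos {x : W} (hx : IsVert x) : 0 < Tc x + Yc x := by
  have h1 := norm_eq hx
  have h2 := Tc_pos hx
  have h3 := nn_pos
  by_contra h
  push Not at h
  nlinarith [sq_nonneg (Xc x)]

open UpperHalfPlane

open Classical in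
/-- The point of the upper half plane given by a vertex vector. -/
noncomputable def pt (x : W) : ℍ :=
  if h : 0 < Tc x + Yc x then
    ⟨⟨Xc x / (Tc x + Yc x), Real.sqrt nn / (Tc x + Yc x)⟩, div_pos (Real.sqrt_pos.mpr nn_pos) h⟩
  else UpperHalfPlane.I

theorem pt_re {x : W} (hx : IsVert x) : (pt x).re = Xc x / (Tc x + Yc x) := by
  unfold pt
  rw [dif_pos (P_pos hx)]
  rfl

theorem pt_im {x : W} (hx : IsVert x) : (pt x).im = Real.sqrt nn / (Tc x + Yc x) := by
  unfold pt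
  rw [dif_pos (P_pos hx)]
  rfl

theorem cosh_pt {x y : W} (hx : IsVert x) (hy : IsVert y) :
    Real.cosh (dist (pt x) (pt y)) = -BR x y / (2 * nn) := by
  rw [UpperHalfPlane.cosh_dist', pt_re hx, pt_re hy, pt_im hx, pt_im hy, BR_eq]
  have h1 := P_pos hx
  have h2 := P_pos hy
  have h3 := norm_eq hx
  have h4 := norm_eq hy
  have h5 := nn_pos
  have h6 : Real.sqrt nn ^ 2 = nn := Real.sq_sqrt h5.le
  have h7 := (Real.sqrt_pos.mpr h5)
  generalize Real.sqrt nn = s at *
  generalize nn = N at *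
  generalize Xc x = X at *
  generalize Xc y = X' at *
  generalize Yc x = Y at *
  generalize Yc y = Y' at *
  generalize Tc x = T at *
  generalize Tc y = T' at *
  have hP := h1.ne'
  have hP' := h2.ne'
  have hs := h7.ne'
  subst h6
  field_simp
  linear_combination (-(T' + Y') ^ 2) * h3 - (T + Y) ^ 2 * h4

theorem pt_inj {x y : W} (hx : IsVert x) (hy : IsVert y) (h : pt x = pt y) : x = y := by
  have hre : (pt x).re = (pt y).re := by rw [h]
  have him : (pt x).im = (pt y).im := by rw [h]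
  rw [pt_re hx, pt_re hy] at hre
  rw [pt_im hx, pt_im hy] at him
  have h1 := P_pos hx
  have h2 := P_pos hy
  have h3 := norm_eq hx
  have h4 := norm_eq hy
  have hP : Tc x + Yc x = Tc y + Yc y := by
    have h7 := (Real.sqrt_pos.mpr nn_pos)
    rw [div_eq_div_iff h1.ne' h2.ne'] at him
    exact (mul_left_cancel₀ h7.ne' him).symm
  have hX : Xc x = Xc y := by
    rw [hP, div_left_inj' h2.ne'] at hre
    exact hre
  have hM : Tc x - Yc x = Tc y - Yc y := by
    have e1 : (Tc x + Yc x) * (Tc x - Yc x) = (Tc y + Yc y) * (Tc y - Yc y) := by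
      rw [hX] at h3
      linear_combination h3 - h4
    rw [hP] at e1
    exact mul_left_cancel₀ h2.ne' e1
  have hT : Tc x = Tc y := by linarith
  have hY : Yc x = Yc y := by linarith
  have k2 : x 2 = y 2 := by
    unfold Tc at hT
    rw [div_left_inj' sg_pos.ne'] at hT
    exact mul_left_cancel₀ rh_pos.ne' hT
  have k1 : x 1 = y 1 := by
    unfold Yc at hY
    rw [k2] at hY
    have : sg / 2 * x 1 = sg / 2 * y 1 := by linarith
    exact mul_left_cancel₀ (by have := sg_pos; positivity) this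
  have k0 : x 0 = y 0 := by
    unfold Xc at hX
    rw [k1] at hX
    linarith
  ext i
  fin_cases i
  · exact k0
  · exact k1
  · exact k2

/-- The vertex vectors: images of `v` under good matrices, on the upper sheet. -/
def Vx (x : V) : Prop := (∃ g, Good g ∧ x = g *ᵥ v) ∧ 0 < x 2 0

theorem Vx.qf {x : V} (hx : Vx x) : Qf x = Qf v := by
  obtain ⟨⟨g, hg, rfl⟩, _⟩ := hx
  have h := hg.form v v
  rw [Bf_self, Bf_self] at h
  have h2 : (2 : A) ≠ 0 := by
    intro h
    have := congrFun h 0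
    simp at this
  ext i
  have := congrFun h i
  simp only [Pi.mul_apply, Pi.ofNat_apply] at this
  linarith

theorem Qf_v_zero : Qf v 0 = -nn := by
  rw [Qf_v]
  simp only [Pi.mul_apply, Pi.sub_apply, Pi.pow_apply, Pi.ofNat_apply, c_zero, nn]
  ring

theorem Vx.isVert {x : V} (hx : Vx x) : IsVert (proj x) := by
  refine ⟨?_, hx.2⟩
  rw [← Bf_zero, Bf_self, hx.qf]
  simp only [Pi.mul_apply, Pi.ofNat_apply, Qf_v_zero]
  ring

/-! ### Distances -/

theorem c_one_sq : (c 1) ^ 2 = 2 - c0 := by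
  simp only [c, Matrix.cons_val_one, Matrix.cons_val_zero]
  linear_combination (c0 - 1) * c0_cubic

theorem c_two_sq : (c 2) ^ 2 = 3 + c0 - c0 ^ 2 := by
  simp only [c, Matrix.cons_val]
  linear_combination (c0 + 1) * c0_cubic

theorem c_sq_lt (i : Fin 3) (hi : i ≠ 0) : 0 < 3 - (c i) ^ 2 := by
  have h1 := c0_lower
  have h2 := c0_upper
  have h3 := sq_lower
  fin_cases i
  · exact absurd rfl hi
  · simp only [Fin.mk_one, c_one_sq]; linarith
  · simp only [Fin.reduceFinMk, c_two_sq]; linarith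

theorem Qf_nonneg (z : V) (i : Fin 3) (hi : i ≠ 0) : 0 ≤ Qf z i := by
  have h := c_sq_lt i hi
  have e : Qf z i = (z 0 i - c i / 2 * z 1 i) ^ 2 + (z 2 i - z 1 i / 2) ^ 2 + (3 - c i ^ 2) * (z 1 i / 2) ^ 2 := by
    simp only [Qf, Pi.add_apply, Pi.sub_apply, Pi.mul_apply]
    ring
  rw [e]
  have := mul_nonneg h.le (sq_nonneg (z 1 i / 2))
  positivity

theorem Qf_mem (z : V) (hz : ∀ i, z i ∈ O) : Qf z ∈ O := by
  unfold Qf
  refine O.sub_mem (O.sub_mem (O.add_mem (O.add_mem ?_ ?_) ?_) ?_) ?_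
  · exact O.mul_mem (hz 0) (hz 0)
  · exact O.mul_mem (hz 1) (hz 1)
  · exact O.mul_mem (hz 2) (hz 2)
  · exact O.mul_mem (O.mul_mem c_mem (hz 0)) (hz 1)
  · exact O.mul_mem (hz 1) (hz 2)

theorem cosh_dist_ge {x y : V} (hx : Vx x) (hy : Vx y) (hne : pt (proj x) ≠ pt (proj y)) :
    1 + 2 * (c0 ^ 2 - 3) / (4 - c0 ^ 2) ≤ Real.cosh (dist (pt (proj x)) (pt (proj y))) := by
  have hqx := hx.qf
  have hqy := hy.qf
  have hcosh := cosh_pt hx.isVert hy.isVert
  obtain ⟨⟨g, hg, hgx⟩, _⟩ := hx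
  obtain ⟨⟨h, hh, hhy⟩, _⟩ := hy
  obtain ⟨l, hl, hl'⟩ := hg.cong
  obtain ⟨m, hm, hm'⟩ := hh.cong
  rw [hl'] at hgx
  rw [hm'] at hhy
  set z : V := l - m with hz
  have hzO : ∀ i, z i ∈ O := fun i => O.sub_mem (hl i) (hm i)
  have hxy : x - y = sc mu z := by
    rw [hgx, hhy]
    ext i : 1
    simp only [Pi.sub_apply, Pi.add_apply, sc, hz]; ring
  have hb : Qf z ∈ O := Qf_mem z hzO
  have e1 : mu ^ 2 * Qf z = 2 * Qf v - Bf x y := by
    rw [← Qf_sc, ← hxy, Qf_sub, hqx, hqy]; ring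
  have e2 : ∀ i, mu i ^ 2 * Qf z i + Qf (x + y) i = 4 * Qf v i := by
    intro i
    have h1 : mu ^ 2 * Qf z + Qf (x + y) = 4 * Qf v := by
      rw [e1, Qf_add, hqx, hqy]; ring
    have := congrFun h1 i
    simpa using this
  have hmu : ∀ i, mu i = 2 * (3 - c i ^ 2) := by
    intro i
    simp only [mu, Pi.sub_apply, Pi.mul_apply, Pi.pow_apply, Pi.ofNat_apply]; ring
  have hQv : ∀ i, Qf v i = (4 - c i ^ 2) * (3 - c i ^ 2) := by
    intro i
    rw [Qf_v]
    simp only [Pi.sub_apply, Pi.mul_apply, Pi.pow_apply, Pi.ofNat_apply]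
  have hbd : ∀ i, i ≠ 0 → Qf z i * (3 - c i ^ 2) ≤ 4 - c i ^ 2 := by
    intro i hi
    have h1 := e2 i
    have h2 := Qf_nonneg (x + y) i hi
    have h3 := c_sq_lt i hi
    rw [hmu, hQv] at h1
    have h4 : (3 - c i ^ 2) * (Qf z i * (3 - c i ^ 2)) ≤ (3 - c i ^ 2) * (4 - c i ^ 2) := by
      nlinarith
    exact le_of_mul_le_mul_left h4 h3
  have e3 : Real.cosh (dist (pt (proj x)) (pt (proj y))) = 1 + mu 0 ^ 2 * Qf z 0 / (2 * nn) := by
    rw [hcosh, ← Bf_zero]
    have h1 := congrFun e1 0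
    simp only [Pi.mul_apply, Pi.pow_apply, Pi.sub_apply, Pi.ofNat_apply, Qf_v_zero] at h1
    have h2 := nn_pos
    rw [h1]
    field_simp
    ring
  have hmu0 : mu 0 = 2 * (3 - c0 ^ 2) := by rw [hmu, c_zero]
  have hmupos : 0 < mu 0 ^ 2 := by
    have : mu 0 ≠ 0 := by
      rw [hmu0]; have := sq_lower; intro h; linarith
    positivity
  have hne0 : Qf z 0 ≠ 0 := by
    intro h
    rw [h, mul_zero, zero_div, add_zero] at e3
    have : dist (pt (proj x)) (pt (proj y)) = 0 := by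
      by_contra hd
      have := Real.one_lt_cosh.mpr hd
      linarith
    exact hne (dist_eq_zero.mp this)
  have h0 : 0 ≤ Qf z 0 := by
    have h1 : 1 ≤ Real.cosh (dist (pt (proj x)) (pt (proj y))) := Real.one_le_cosh _
    rw [e3] at h1
    have h2 : 0 ≤ mu 0 ^ 2 * Qf z 0 / (2 * nn) := by linarith
    have h3 := nn_pos
    rw [div_nonneg_iff] at h2
    rcases h2 with ⟨h2, _⟩ | ⟨_, h2⟩
    · by_contra h4
      push Not at h4
      nlinarith
    · linarith
  have hfin := arith hb h0 (Qf_nonneg z 1 (by decide)) (Qf_nonneg z 2 (by decide))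
    (hbd 1 (by decide)) (hbd 2 (by decide)) hne0
  rw [e3, hmu0]
  have h4 : 2 * (c0 ^ 2 - 3) / (4 - c0 ^ 2) = (2 * (3 - c0 ^ 2)) ^ 2 / (2 * nn) := by
    have h1 : 4 - c0 ^ 2 ≠ 0 := by have := sq_upper; intro h; linarith
    have h2 : c0 ^ 2 - 3 ≠ 0 := by have := sq_lower; intro h; linarith
    unfold nn
    field_simp
    ring
  rw [h4]
  have h5 : (2 * (3 - c0 ^ 2)) ^ 2 / (2 * nn) ≤ (2 * (3 - c0 ^ 2)) ^ 2 * Qf z 0 / (2 * nn) := by
    apply div_le_div_of_nonneg_right _ (by have := nn_pos; positivity)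
    nlinarith [sq_nonneg (2 * (3 - c0 ^ 2))]
  linarith

theorem Bf_v_Jv : Bf (J *ᵥ v) v = 2 * Qf v - mu ^ 2 := by
  rw [J_v]
  simp [Bf, Qf, v, sc, mu, e3]
  ring

theorem Bf_v_Jv_zero : BR (proj (J *ᵥ v)) (proj v) = -2 * nn - (2 * (3 - c0 ^ 2)) ^ 2 := by
  rw [← Bf_zero, Bf_v_Jv]
  simp only [Pi.sub_apply, Pi.mul_apply, Pi.pow_apply, Pi.ofNat_apply, Qf_v_zero, mu, c_zero]
  ring

theorem cosh_adj {x y : W} (hx : IsVert x) (hy : IsVert y)
    (h : BR x y = BR (proj (J *ᵥ v)) (proj v)) :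
    Real.cosh (dist (pt x) (pt y)) = 1 + 2 * (c0 ^ 2 - 3) / (4 - c0 ^ 2) := by
  rw [cosh_pt hx hy, h, Bf_v_Jv_zero]
  have h1 : 4 - c0 ^ 2 ≠ 0 := by have := sq_upper; intro h; linarith
  have h2 : c0 ^ 2 - 3 ≠ 0 := by have := sq_lower; intro h; linarith
  unfold nn
  field_simp
  ring

/-- A vector of the right norm on the same side as a vertex is on the upper sheet. -/
theorem future {x y : W} (hx : IsVert x) (hy : BR y y = -2 * nn) (h : BR y x < 0) : 0 < y 2 := by
  have hn := nn_pos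
  rcases lt_trichotomy (y 2) 0 with h2 | h2 | h2
  · exfalso
    have hm : IsVert (-y) := by
      refine ⟨?_, by simpa using h2⟩
      rw [← hy]
      simp only [BR, Pi.neg_apply]; ring
    have h3 := cosh_pt hm hx
    have h4 := Real.cosh_pos (dist (pt (-y)) (pt x))
    rw [h3] at h4
    have h5 : -BR (-y) x = BR y x := by
      simp only [BR, Pi.neg_apply]; ring
    rw [h5] at h4
    have := div_neg_of_neg_of_pos h (by linarith : 0 < 2 * nn)
    linarith
  · exfalso
    rw [BR_eq] at hy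
    have : Tc y = 0 := by unfold Tc; rw [h2]; simp
    rw [this] at hy
    nlinarith [sq_nonneg (Xc y), sq_nonneg (Yc y)]
  · exact h2

theorem BR_neg_of_isVert {x y : W} (hx : IsVert x) (hy : IsVert y) : BR x y < 0 := by
  have h3 := cosh_pt hx hy
  have h4 := Real.cosh_pos (dist (pt x) (pt y))
  rw [h3] at h4
  have hn := nn_pos
  by_contra h
  push Not at h
  have : -BR x y / (2 * nn) ≤ 0 := div_nonpos_of_nonpos_of_nonneg (by linarith) (by linarith)
  linarith

theorem vx_v : Vx v := by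
  refine ⟨⟨1, Good.one, by simp⟩, ?_⟩
  simp only [v, Matrix.cons_val, Pi.sub_apply, Pi.pow_apply, Pi.ofNat_apply, c_zero]
  linarith [sq_upper]

/-- The form between the ends of an edge. -/
theorem Bf_step {g : M} (hg : Good g) (i : ℕ) :
    Bf ((g * (R ^ i * J)) *ᵥ v) (g *ᵥ v) = Bf (J *ᵥ v) v := by
  rw [← mulVec_mulVec, hg.form, ← mulVec_mulVec]
  calc Bf (R ^ i *ᵥ (J *ᵥ v)) v = Bf (R ^ i *ᵥ (J *ᵥ v)) (R ^ i *ᵥ v) := by rw [R_pow_v]
    _ = Bf (J *ᵥ v) v := (good_R.pow i).form _ _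

/-- Adjacency of `g v` and `g R^i J v`. -/
theorem adj_step {g : M} (hg : Good g) (i : ℕ) :
    BR (proj ((g * (R ^ i * J)) *ᵥ v)) (proj (g *ᵥ v)) = BR (proj (J *ᵥ v)) (proj v) := by
  rw [← Bf_zero, ← Bf_zero, Bf_step hg]

/-- Moving across an edge keeps us on the upper sheet. -/
theorem vx_step {g : M} (hg : Good g) (h : Vx (g *ᵥ v)) (i : ℕ) : Vx ((g * (R ^ i * J)) *ᵥ v) := by
  have hgood : Good (g * (R ^ i * J)) := hg.mul ((good_R.pow i).mul good_J)
  refine ⟨⟨_, hgood, rfl⟩, ?_⟩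
  have h2 := adj_step hg i
  rw [Bf_v_Jv_zero] at h2
  have key : 0 < proj ((g * (R ^ i * J)) *ᵥ v) 2 := by
    refine future (x := proj (g *ᵥ v)) h.isVert ?_ ?_
    · have h3 := hgood.form v v
      rw [Bf_self v] at h3
      have h4 := congrFun h3 0
      rw [Bf_zero] at h4
      rw [h4]
      simp only [Pi.mul_apply, Pi.ofNat_apply, Qf_v_zero]; ring
    · have := nn_pos
      rw [h2]
      nlinarith [sq_nonneg (2 * (3 - c0 ^ 2))]
  exact key

end Pool.Agent.Lib.MP_0702e0_co
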