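import Pool.Agent.Lib.MP_0702e0_co.Vertex

/-!
The walls of the regions used to separate the vertices of the tiling, and the linear identities between
them.
-/

set_option autoImplicit false
set_option linter.unusedSimpArgs false
set_option linter.unnecessarySeqFocus false

namespace Pool.Agent.Lib.MP_0702e0_co

open Matrix

theorem c6k (k : Fin 3) : c k ^ 6 = 9 * c k ^ 2 + 5 * c k - 4 := by
  linear_combination c k * c5k k + 4 * c3k k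
theorem c7k (k : Fin 3) : c k ^ 7 = 14 * c k ^ 2 + 14 * c k - 9 := by
  linear_combination c k * c6k k + 9 * c3k k
theorem c8k (k : Fin 3) : c k ^ 8 = 28 * c k ^ 2 + 19 * c k - 14 := by
  linear_combination c k * c7k k + 14 * c3k k
theorem c9k (k : Fin 3) : c k ^ 9 = 47 * c k ^ 2 + 42 * c k - 28 := by
  linear_combination c k * c8k k + 28 * c3k k
theorem c10k (k : Fin 3) : c k ^ 10 = 89 * c k ^ 2 + 66 * c k - 47 := by
  linear_combination c k * c9k k + 47 * c3k k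
theorem c11k (k : Fin 3) : c k ^ 11 = 155 * c k ^ 2 + 131 * c k - 89 := by
  linear_combination c k * c10k k + 89 * c3k k

/-- The step to the `i`-th neighbour. -/
noncomputable def mv (i : ℕ) : M := R ^ i * J

noncomputable def aL : V := ![-(2 * c ^ 2 - 1), -2 * c, -c]
noncomputable def nA : V := ![1, 0, -c]
noncomputable def nB : V := ![-1, -2 * c, -c]
noncomputable def eW : V := ![0, 0, -1]

theorem mvJ (w : V) : J *ᵥ w = ![-w 0 + c * w 1, w 1, w 1 - w 2] := by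
  ext i : 1
  rw [mulVec3]
  fin_cases i <;> simp [J] <;> ring

theorem mvR (w : V) : R *ᵥ w = ![-w 0 + c * w 1, -c * w 0 + (c ^ 2 - 1) * w 1 + w 2, w 2] := by
  ext i : 1
  rw [mulVec3]
  fin_cases i <;> simp [R] <;> ring

theorem mv_succ (i : ℕ) (w : V) : mv (i + 1) *ᵥ w = R *ᵥ (mv i *ᵥ w) := by
  rw [mulVec_mulVec, mv, mv, pow_succ', mul_assoc]

theorem mv_zero (w : V) : mv 0 *ᵥ w = J *ᵥ w := by simp [mv]

theorem mv2v (w : V) : mv 2 *ᵥ w = R *ᵥ (R *ᵥ (J *ᵥ w)) := by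
  rw [mv_succ, mv_succ, mv_zero]

theorem mv3v (w : V) : mv 3 *ᵥ w = R *ᵥ (R *ᵥ (R *ᵥ (J *ᵥ w))) := by
  rw [mv_succ, mv2v]

theorem mv4v (w : V) : mv 4 *ᵥ w = R *ᵥ (R *ᵥ (R *ᵥ (R *ᵥ (J *ᵥ w)))) := by
  rw [mv_succ, mv3v]

theorem mv1v (w : V) : mv 1 *ᵥ w = R *ᵥ (J *ᵥ w) := by
  rw [mv_succ, mv_zero]

/-- Adjacent walls coincide. -/
theorem J_wall : R *ᵥ (J *ᵥ nA) = -(J *ᵥ aL) := by
  rw [mvJ, mvR, mvJ]
  ext i k
  fin_cases i <;> simp [nA, aL] <;> ring_nf <;> (try simp only [c3k, c4k]) <;> (try ring)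

theorem mv_wall (j : ℕ) : mv (j + 1) *ᵥ nA = -(mv j *ᵥ aL) := by
  have h : mv (j + 1) *ᵥ nA = R ^ j *ᵥ (R *ᵥ (J *ᵥ nA)) := by
    rw [mulVec_mulVec, mulVec_mulVec, mv, pow_succ]
  rw [h, J_wall, mulVec_neg, mulVec_mulVec, mv]

theorem ab_aL : sc 2 aL = sc (1 + c) (mv 2 *ᵥ aL) + sc (1 + c) (mv 2 *ᵥ nB) + sc (2 * c ^ 2) (mv 2 *ᵥ eW) := by
  simp only [mv_zero, mv1v, mv2v, mv3v, mv4v, mvJ, mvR]
  ext i k
  fin_cases i <;> simp [sc, nA, aL, nB, eW, v] <;> ring_nf <;> (try simp only [c3k, c4k, c5k, c6k, c7k, c8k, c9k, c10k, c11k]) <;> (try ring) <;> (try simp)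

theorem ab_nA : nA = sc (1) (mv 2 *ᵥ nB) := by
  simp only [mv_zero, mv1v, mv2v, mv3v, mv4v, mvJ, mvR]
  ext i k
  fin_cases i <;> simp [sc, nA, aL, nB, eW, v] <;> ring_nf <;> (try simp only [c3k, c4k, c5k, c6k, c7k, c8k, c9k, c10k, c11k]) <;> (try ring) <;> (try simp)

theorem aa3_aL : aL = sc (c ^ 2 - c) (mv 3 *ᵥ aL) + sc (c ^ 2 - c) (mv 3 *ᵥ nA) + sc (c ^ 2 - c) (mv 3 *ᵥ (-v)) := by
  simp only [mv_zero, mv1v, mv2v, mv3v, mv4v, mvJ, mvR]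
  ext i k
  fin_cases i <;> simp [sc, nA, aL, nB, eW, v] <;> ring_nf <;> (try simp only [c3k, c4k, c5k, c6k, c7k, c8k, c9k, c10k, c11k]) <;> (try ring) <;> (try simp)

theorem aa3_nA : nA = sc (c) (mv 3 *ᵥ nA) + sc (c ^ 2 + c - 1) (mv 3 *ᵥ (-v)) := by
  simp only [mv_zero, mv1v, mv2v, mv3v, mv4v, mvJ, mvR]
  ext i k
  fin_cases i <;> simp [sc, nA, aL, nB, eW, v] <;> ring_nf <;> (try simp only [c3k, c4k, c5k, c6k, c7k, c8k, c9k, c10k, c11k]) <;> (try ring) <;> (try simp)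

theorem aa4_aL : aL = sc (1) (mv 4 *ᵥ aL) := by
  simp only [mv_zero, mv1v, mv2v, mv3v, mv4v, mvJ, mvR]
  ext i k
  fin_cases i <;> simp [sc, nA, aL, nB, eW, v] <;> ring_nf <;> (try simp only [c3k, c4k, c5k, c6k, c7k, c8k, c9k, c10k, c11k]) <;> (try ring) <;> (try simp)

theorem aa4_nA : nA = sc (1) (mv 4 *ᵥ aL) + sc (c ^ 2 - 1) (mv 4 *ᵥ nA) + sc (c ^ 2) (mv 4 *ᵥ (-v)) := by
  simp only [mv_zero, mv1v, mv2v, mv3v, mv4v, mvJ, mvR]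
  ext i k
  fin_cases i <;> simp [sc, nA, aL, nB, eW, v] <;> ring_nf <;> (try simp only [c3k, c4k, c5k, c6k, c7k, c8k, c9k, c10k, c11k]) <;> (try ring) <;> (try simp)

theorem bb3_aL : sc 2 aL = sc (c ^ 2 + c - 2) (mv 3 *ᵥ aL) + sc (c ^ 2 - c) (mv 3 *ᵥ nB) + sc (2 * c ^ 2 - 2) (mv 3 *ᵥ eW) := by
  simp only [mv_zero, mv1v, mv2v, mv3v, mv4v, mvJ, mvR]
  ext i k
  fin_cases i <;> simp [sc, nA, aL, nB, eW, v] <;> ring_nf <;> (try simp only [c3k, c4k, c5k, c6k, c7k, c8k, c9k, c10k, c11k]) <;> (try ring) <;> (try simp)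

theorem bb3_nB : nB = sc (1) (mv 3 *ᵥ nB) := by
  simp only [mv_zero, mv1v, mv2v, mv3v, mv4v, mvJ, mvR]
  ext i k
  fin_cases i <;> simp [sc, nA, aL, nB, eW, v] <;> ring_nf <;> (try simp only [c3k, c4k, c5k, c6k, c7k, c8k, c9k, c10k, c11k]) <;> (try ring) <;> (try simp)

theorem bb3_eW : sc 4 eW = sc (2 + 2 * c - c ^ 2) (mv 3 *ᵥ aL) + sc (c ^ 2) (mv 3 *ᵥ nB) + sc (2 * c ^ 2 + 2 * c - 4) (mv 3 *ᵥ eW) := by
  simp only [mv_zero, mv1v, mv2v, mv3v, mv4v, mvJ, mvR]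
  ext i k
  fin_cases i <;> simp [sc, nA, aL, nB, eW, v] <;> ring_nf <;> (try simp only [c3k, c4k, c5k, c6k, c7k, c8k, c9k, c10k, c11k]) <;> (try ring) <;> (try simp)

theorem ba4_nB : nB = sc (c) (mv 4 *ᵥ nA) + sc (c ^ 2 + c - 1) (mv 4 *ᵥ (-v)) := by
  simp only [mv_zero, mv1v, mv2v, mv3v, mv4v, mvJ, mvR]
  ext i k
  fin_cases i <;> simp [sc, nA, aL, nB, eW, v] <;> ring_nf <;> (try simp only [c3k, c4k, c5k, c6k, c7k, c8k, c9k, c10k, c11k]) <;> (try ring) <;> (try simp)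

theorem ba4_eW : sc 2 eW = sc (1 + 2 * c - c ^ 2) (mv 4 *ᵥ aL) + sc (c ^ 2 + c - 3) (mv 4 *ᵥ nA) + sc (2 * c - 1) (mv 4 *ᵥ (-v)) := by
  simp only [mv_zero, mv1v, mv2v, mv3v, mv4v, mvJ, mvR]
  ext i k
  fin_cases i <;> simp [sc, nA, aL, nB, eW, v] <;> ring_nf <;> (try simp only [c3k, c4k, c5k, c6k, c7k, c8k, c9k, c10k, c11k]) <;> (try ring) <;> (try simp)

theorem dj42 : sc (-2) (mv 4 *ᵥ nA) = sc (c ^ 2 + c - 2) (mv 2 *ᵥ aL) + sc (c ^ 2 - c) (mv 2 *ᵥ nB) + sc (2 * c ^ 2 - 2) (mv 2 *ᵥ eW) := by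
  simp only [mv_zero, mv1v, mv2v, mv3v, mv4v, mvJ, mvR]
  ext i k
  fin_cases i <;> simp [sc, nA, aL, nB, eW, v] <;> ring_nf <;> (try simp only [c3k, c4k, c5k, c6k, c7k, c8k, c9k, c10k, c11k]) <;> (try ring) <;> (try simp)

theorem rt3 : mv 3 *ᵥ aL = sc (c) (mv 0 *ᵥ nA) + sc (c ^ 2 + c - 1) (mv 0 *ᵥ (-v)) := by
  simp only [mv_zero, mv1v, mv2v, mv3v, mv4v, mvJ, mvR]
  ext i k
  fin_cases i <;> simp [sc, nA, aL, nB, eW, v] <;> ring_nf <;> (try simp only [c3k, c4k, c5k, c6k, c7k, c8k, c9k, c10k, c11k]) <;> (try ring) <;> (try simp)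

theorem rt2 : mv 2 *ᵥ aL = sc (1) (mv 0 *ᵥ aL) + sc (c ^ 2 - 1) (mv 0 *ᵥ nA) + sc (c ^ 2) (mv 0 *ᵥ (-v)) := by
  simp only [mv_zero, mv1v, mv2v, mv3v, mv4v, mvJ, mvR]
  ext i k
  fin_cases i <;> simp [sc, nA, aL, nB, eW, v] <;> ring_nf <;> (try simp only [c3k, c4k, c5k, c6k, c7k, c8k, c9k, c10k, c11k]) <;> (try ring) <;> (try simp)

theorem rt1 : mv 1 *ᵥ aL = sc (c ^ 2 - c) (mv 0 *ᵥ aL) + sc (c ^ 2 - c) (mv 0 *ᵥ nA) + sc (c ^ 2 - c) (mv 0 *ᵥ (-v)) := by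
  simp only [mv_zero, mv1v, mv2v, mv3v, mv4v, mvJ, mvR]
  ext i k
  fin_cases i <;> simp [sc, nA, aL, nB, eW, v] <;> ring_nf <;> (try simp only [c3k, c4k, c5k, c6k, c7k, c8k, c9k, c10k, c11k]) <;> (try ring) <;> (try simp)

end Pool.Agent.Lib.MP_0702e0_co
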